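import Pool.Agent.Helper317.Sacks.CoreDefs

/-!
The certificates used in the reductions.
-/

namespace Pool.Agent.Helper317.Sacks

open Filter

/-- `x` is the position of the marker `r`, certified by the negative information `κ` -/
def Cert (P κ r x t : ℕ) : Prop :=
  x ≤ t ∧ len P t ≤ r ∧ Nat.testBit κ (Nat.pair r (x + 1)) = true

def Sub (a b : ℕ) : Prop := ∀ z < a, Nat.testBit a z = true → Nat.testBit b z = true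

/-- the certificate for `a ∩ C = ∅` in the case `C ≤ A` -/
def Case2 (c q P yt ej a τ r x t x' t' : ℕ) : Prop :=
  Cert P τ r x t ∧ Cert P τ (r + 1) x' t' ∧ ej ≤ tab yt r ∧
    ∀ z < a, Nat.testBit a z = true → z < bfun c q x x' ∧
      halt x (Nat.pair c (Nat.pair q z)) = false

/-- the certificate for `a ∩ K = ∅` in the case `K ≤ C` -/
def Case1 (c cA q P yt gt E qA a σ τ κ σ' τ' t0 e xe te r' xr tr r x t x' t' : ℕ) : Prop :=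
  Sub σ' σ ∧ Sub τ' τ ∧
    halt t0 (Nat.pair cA (Nat.pair qA (Nat.pair κ (Nat.pair σ' τ')))) = true ∧
    Cert P κ e xe te ∧ Cert P κ r' xr tr ∧ Cert P κ r x t ∧ Cert P κ (r + 1) x' t' ∧
    a ≤ xe ∧ (∀ z < a, Nat.testBit a z = true → halt xr z = false) ∧
    tab yt r ≤ tab gt (e * (E + 1) + r') ∧
    ∀ z < bfun c q x x', halt x (Nat.pair c (Nat.pair q z)) = false → Nat.testBit τ z = true

/-- first and second components -/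
def fs (n : ℕ) : ℕ := n.unpair.1
def sn (n : ℕ) : ℕ := n.unpair.2

/-- `n = ⟨⟨q, ⟨P, ⟨yt, ej⟩⟩⟩, ⟨a, ⟨σ, τ⟩⟩⟩`, `w = ⟨r, ⟨x, ⟨t, ⟨x', t'⟩⟩⟩⟩` -/
def RCase2 (c n w : ℕ) : Prop :=
  Case2 c (fs (fs n)) (fs (sn (fs n))) (fs (sn (sn (fs n)))) (sn (sn (sn (fs n))))
    (fs (sn n)) (sn (sn (sn n)))
    (fs w) (fs (sn w)) (fs (sn (sn w))) (fs (sn (sn (sn w)))) (sn (sn (sn (sn w))))

/-- `n = ⟨⟨q, ⟨P, ⟨yt, ⟨gt, ⟨E, qA⟩⟩⟩⟩⟩, ⟨a, ⟨σ, τ⟩⟩⟩`,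
`w = ⟨⟨κ, ⟨σ', ⟨τ', t0⟩⟩⟩, ⟨⟨e, ⟨xe, te⟩⟩, ⟨⟨r', ⟨xr, tr⟩⟩, ⟨r, ⟨x, ⟨t, ⟨x', t'⟩⟩⟩⟩⟩⟩⟩` -/
def RCase1 (c cA n w : ℕ) : Prop :=
  Case1 c cA (fs (fs n)) (fs (sn (fs n))) (fs (sn (sn (fs n)))) (fs (sn (sn (sn (fs n)))))
    (fs (sn (sn (sn (sn (fs n)))))) (sn (sn (sn (sn (sn (fs n))))))
    (fs (sn n)) (fs (sn (sn n))) (sn (sn (sn n)))
    (fs (fs w)) (fs (sn (fs w))) (fs (sn (sn (fs w)))) (sn (sn (sn (fs w))))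
    (fs (fs (sn w))) (fs (sn (fs (sn w)))) (sn (sn (fs (sn w))))
    (fs (fs (sn (sn w)))) (fs (sn (fs (sn (sn w))))) (sn (sn (fs (sn (sn w)))))
    (fs (sn (sn (sn w)))) (fs (sn (sn (sn (sn w))))) (fs (sn (sn (sn (sn (sn w))))))
    (fs (sn (sn (sn (sn (sn (sn w))))))) (sn (sn (sn (sn (sn (sn (sn w)))))))

/-- the bound for the indices -/
def EE (u s : ℕ → ℕ → ℕ) (d : ℕ) : ℕ := u 0 d + 2 ^ (s 0 d)

end Pool.Agent.Helper317.Sacks
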