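import Pool.Agent.Helper317.Sacks.ProcDefs

/-!
Properties of the process.
-/

namespace Pool.Agent.Helper317.Sacks

open Nat.Partrec (Code)

theorem halt_primrec : Primrec₂ halt := by
  have h : Primrec fun p : ℕ × ℕ =>
      (Code.evaln p.1 (Denumerable.ofNat Code p.2.unpair.1) p.2.unpair.2).isSome := by
    refine Primrec.option_isSome.comp ?_
    exact Code.primrec_evaln.comp (Primrec.pair (Primrec.pair Primrec.fst
      ((Primrec.ofNat Code).comp (Primrec.fst.comp (Primrec.unpair.comp Primrec.snd))))
      (Primrec.snd.comp (Primrec.unpair.comp Primrec.snd)))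
  exact h.to₂

lemma aux_ex_lt {α : Type*} [Primcodable α] {R : ℕ → α → Prop}
    (hR : PrimrecPred fun p : ℕ × α => R p.1 p.2) {f : α → ℕ} (hf : Primrec f) :
    PrimrecPred fun a => ∃ x < f a, R x a := by
  have h1 : PrimrecRel R := hR
  have h2 := (h1.exists_mem_list).comp (Primrec.list_range.comp hf) Primrec.id
  exact h2.of_eq (by simp)

lemma aux_all_lt {α : Type*} [Primcodable α] {R : ℕ → α → Prop}
    (hR : PrimrecPred fun p : ℕ × α => R p.1 p.2) {f : α → ℕ} (hf : Primrec f) :
    PrimrecPred fun a => ∀ x < f a, R x a := by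
  have h1 : PrimrecRel R := hR
  have h2 := (h1.forall_mem_list).comp (Primrec.list_range.comp hf) Primrec.id
  exact h2.of_eq (by simp)

lemma aux_all_mem {α β : Type*} [Primcodable α] [Primcodable β] {R : β → α → Prop}
    (hR : PrimrecPred fun p : β × α => R p.1 p.2) {f : α → List β} (hf : Primrec f) :
    PrimrecPred fun a => ∀ x ∈ f a, R x a := by
  have h1 : PrimrecRel R := hR
  have h2 := (h1.forall_mem_list).comp hf Primrec.id
  exact h2.of_eq (by simp)

lemma aux_ev : PrimrecPred fun p : ℕ × ℕ => ev p.1 p.2 := by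
  refine aux_ex_lt (α := ℕ × ℕ)
    (R := fun z p => halt p.1 z = true ∧ halt (p.1 - 1) z = false) ?_ Primrec.snd
  refine PrimrecPred.and ?_ ?_
  · exact Primrec.eq.comp (halt_primrec.comp (Primrec.fst.comp Primrec.snd) Primrec.fst)
      (Primrec.const true)
  · exact Primrec.eq.comp (halt_primrec.comp
      (Primrec.nat_sub.comp (Primrec.fst.comp Primrec.snd) (Primrec.const 1)) Primrec.fst)
      (Primrec.const false)

lemma aux_pow : Primrec₂ fun a b : ℕ => a ^ b := Primrec₂.unpaired'.1 Nat.Primrec.pow

lemma aux_Act : PrimrecPred fun p : ℕ × ℕ => Act p.1 p.2 := by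
  refine PrimrecPred.and (Primrec.nat_lt.comp (Primrec.const 0) Primrec.fst)
    (PrimrecPred.and (Primrec.nat_lt.comp Primrec.fst Primrec.snd) ?_)
  refine aux_ex_lt (α := ℕ × ℕ)
    (R := fun s p => 2 ^ s ∣ p.1 ∧ p.2 < p.1 + 2 ^ s) ?_ Primrec.snd
  have hpow : Primrec fun q : ℕ × ℕ × ℕ => 2 ^ q.1 :=
    aux_pow.comp (Primrec.const 2) Primrec.fst
  have hu : Primrec fun q : ℕ × ℕ × ℕ => q.2.1 := Primrec.fst.comp Primrec.snd
  have hn : Primrec fun q : ℕ × ℕ × ℕ => q.2.2 := Primrec.snd.comp Primrec.snd
  refine PrimrecPred.and ?_ (Primrec.nat_lt.comp hn (Primrec.nat_add.comp hu hpow))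
  refine (Primrec.eq.comp (Primrec.nat_mod.comp hu hpow) (Primrec.const 0)).of_eq ?_
  intro a
  exact (Nat.dvd_iff_mod_eq_zero).symm

lemma aux_grow : PrimrecPred fun p : List ℕ × ℕ × ℕ => grow p.1 p.2.1 p.2.2 := by
  have ht : Primrec fun p : List ℕ × ℕ × ℕ => p.2.1 := Primrec.fst.comp Primrec.snd
  have hb : Primrec fun p : List ℕ × ℕ × ℕ => p.2.2 := Primrec.snd.comp Primrec.snd
  refine PrimrecPred.and (Primrec.nat_lt.comp hb ht) ?_
  refine aux_all_mem (α := List ℕ × ℕ × ℕ) (β := ℕ)
    (R := fun c p => ∀ n < p.2.2 + 1, ∃ y < p.2.1,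
      Code.evaln p.2.1 (Denumerable.ofNat Code c) n = some y) ?_ Primrec.fst
  refine aux_all_lt (α := ℕ × List ℕ × ℕ × ℕ)
    (R := fun n q => ∃ y < q.2.2.1,
      Code.evaln q.2.2.1 (Denumerable.ofNat Code q.1) n = some y) ?_
    (Primrec.succ.comp (hb.comp Primrec.snd))
  refine aux_ex_lt (α := ℕ × ℕ × List ℕ × ℕ × ℕ)
    (R := fun y r => Code.evaln r.2.2.2.1 (Denumerable.ofNat Code r.2.1) r.1 = some y) ?_
    (ht.comp (Primrec.snd.comp Primrec.snd))
  have h1 : Primrec fun r : ℕ × ℕ × ℕ × List ℕ × ℕ × ℕ => r.2.2.2.2.1 :=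
    ht.comp (Primrec.snd.comp (Primrec.snd.comp Primrec.snd))
  have h2 : Primrec fun r : ℕ × ℕ × ℕ × List ℕ × ℕ × ℕ => Denumerable.ofNat Code r.2.2.1 :=
    (Primrec.ofNat Code).comp (Primrec.fst.comp (Primrec.snd.comp Primrec.snd))
  have h3 : Primrec fun r : ℕ × ℕ × ℕ × List ℕ × ℕ × ℕ => r.2.1 :=
    Primrec.fst.comp Primrec.snd
  exact Primrec.eq.comp (Code.primrec_evaln.comp (Primrec.pair (Primrec.pair h1 h2) h3))
    (Primrec.option_some.comp Primrec.fst)

open Classical in
lemma aux_idx : Primrec fun p : ℕ × List ℕ =>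
    (List.range p.2.length).findIdx
      (fun u => decide (Act u p.2.length ∧ ev p.1 (p.2.getD (u - 1) 0))) := by
  refine Primrec.list_findIdx (Primrec.list_range.comp (Primrec.list_length.comp Primrec.snd)) ?_
  have h : PrimrecPred fun q : (ℕ × List ℕ) × ℕ =>
      (Act q.2 q.1.2.length ∧ ev q.1.1 (q.1.2.getD (q.2 - 1) 0)) := by
    refine PrimrecPred.and ?_ ?_
    · exact aux_Act.comp (Primrec.pair Primrec.snd
        (Primrec.list_length.comp (Primrec.snd.comp Primrec.fst)))
    · exact aux_ev.comp (Primrec.pair (Primrec.fst.comp Primrec.fst)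
        ((Primrec.list_getD 0).comp (Primrec.snd.comp Primrec.fst)
          (Primrec.nat_sub.comp Primrec.snd (Primrec.const 1))))
  exact h.decide

lemma aux_stp : Primrec fun p : ℕ × ℕ × List ℕ => stp (WW p.1) p.1 p.2.1 p.2.2 := by
  classical
  have hWW : Primrec WW :=
    (Primrec.ofNat (List ℕ)).comp (Primrec.fst.comp Primrec.unpair)
  have hP : Primrec fun p : ℕ × ℕ × List ℕ => p.1 := Primrec.fst
  have ht : Primrec fun p : ℕ × ℕ × List ℕ => p.2.1 := Primrec.fst.comp Primrec.snd
  have hL : Primrec fun p : ℕ × ℕ × List ℕ => p.2.2 := Primrec.snd.comp Primrec.snd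
  have hlen : Primrec fun p : ℕ × ℕ × List ℕ => p.2.2.length := Primrec.list_length.comp hL
  have hidx := aux_idx.comp (Primrec.pair ht hL)
  unfold stp
  refine Primrec.ite (Primrec.nat_lt.comp hidx hlen) (Primrec.list_take.comp hidx hL) ?_
  refine Primrec.ite ?_ (Primrec.list_concat.comp hL ht) hL
  refine aux_grow.comp (Primrec.pair (hWW.comp hP) (Primrec.pair ht ?_))
  have h5 : Primrec fun p : ℕ × ℕ × List ℕ =>
      ((p.2.2)[p.2.2.length - 1]?).getD p.1 :=
    Primrec.option_getD.comp (Primrec.list_getElem?.comp hL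
      (Primrec.nat_sub.comp hlen (Primrec.const 1))) hP
  refine h5.of_eq ?_
  intro a
  rfl

lemma aux_st : Primrec₂ st := by
  have h := Primrec.nat_rec (f := fun _ : ℕ => ([] : List ℕ))
    (g := fun P (q : ℕ × List ℕ) => stp (WW P) P q.1 q.2) (Primrec.const [])
    (aux_stp : Primrec fun p : ℕ × ℕ × List ℕ => stp (WW p.1) p.1 p.2.1 p.2.2)
  refine h.of_eq ?_
  intro P t
  induction t with
  | zero => rfl
  | succ t ih => 
    show stp (WW P) P t _ = stp (WW P) P t (st P t)
    rw [← ih]

theorem len_primrec : Primrec₂ len :=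
  Primrec.list_length.comp₂ aux_st

theorem halt_mono {s s' z : ℕ} (h : s ≤ s') (hs : halt s z = true) : halt s' z = true := by
  unfold halt at *
  rw [Option.isSome_iff_exists] at *
  obtain ⟨x, hx⟩ := hs
  exact ⟨x, Code.evaln_mono h hx⟩



theorem stp_trunc (W : List ℕ) (P t : ℕ) (L : List ℕ) :
    (∃ u, u < L.length ∧ 0 < u ∧ ev t (L.getD (u - 1) 0) ∧ stp W P t L = L.take u) ∨
    (grow W t (L.getD (L.length - 1) P) ∧ stp W P t L = L ++ [t]) ∨
    (¬ grow W t (L.getD (L.length - 1) P) ∧ stp W P t L = L) := by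
  classical
  unfold stp
  split_ifs with h1 h2
  · left
    refine ⟨_, h1, ?_, ?_, rfl⟩
    all_goals
      have h3 := List.findIdx_getElem (w := (by rw [List.length_range]; exact h1 :
        (List.range L.length).findIdx
          (fun u => decide (Act u L.length ∧ ev t (L.getD (u - 1) 0))) < (List.range L.length).length))
      rw [List.getElem_range] at h3
      have h4 := of_decide_eq_true h3
    · exact h4.1.1
    · exact h4.2
  · exact Or.inr (Or.inl ⟨h2, rfl⟩)
  · exact Or.inr (Or.inr ⟨h2, rfl⟩)

theorem ev_eventually (b : ℕ) : ∀ᶠ t in Filter.atTop, ¬ ev t b := by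
  have h : ∀ z : ℕ, ∀ᶠ t in Filter.atTop, ¬ (halt t z = true ∧ halt (t - 1) z = false) := by
    intro z
    by_cases hz : ∃ s, halt s z = true
    · obtain ⟨s, hs⟩ := hz
      filter_upwards [Filter.eventually_ge_atTop (s + 1)] with t ht h
      have := halt_mono (by omega : s ≤ t - 1) hs
      rw [this] at h
      exact absurd h.2 (by simp)
    · push Not at hz
      exact Filter.Eventually.of_forall fun t h => hz t h.1
  have h2 : ∀ᶠ t in Filter.atTop, ∀ z ∈ Finset.range b, ¬ (halt t z = true ∧ halt (t - 1) z = false) := by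
    rw [Filter.eventually_all_finset]
    exact fun z _ => h z
  filter_upwards [h2] with t ht h
  obtain ⟨z, hz, h3⟩ := h
  exact ht z (Finset.mem_range.2 hz) h3

theorem grow_eventually {P : ℕ} (hP : Good P) (b : ℕ) : ∀ᶠ t in Filter.atTop, grow (WW P) t b := by
  have h2 : ∀ᶠ t in Filter.atTop, ∀ c ∈ (WW P).toFinset, ∀ n ∈ Finset.range (b + 1),
      ∃ y < t, Code.evaln t (Denumerable.ofNat Code c) n = some y := by
    rw [Filter.eventually_all_finset]
    intro c hc
    rw [Filter.eventually_all_finset]
    intro n _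
    have hd := hP c (List.mem_toFinset.1 hc) n
    obtain ⟨y, hy⟩ := Part.dom_iff_mem.1 hd
    obtain ⟨s, hs⟩ := Code.evaln_complete.1 hy
    filter_upwards [Filter.eventually_ge_atTop s, Filter.eventually_gt_atTop y] with t h1 h2
    exact ⟨y, h2, Code.evaln_mono h1 hs⟩
  filter_upwards [h2, Filter.eventually_gt_atTop b] with t ht hb
  exact ⟨hb, fun c hc n hn => ht c (List.mem_toFinset.2 hc) n (Finset.mem_range.2 hn)⟩

theorem stab_aux {P : ℕ} (hP : Good P) (k : ℕ) :
    ∃ T, ∀ t, T ≤ t → k ≤ len P t ∧ (st P t).take k = (st P T).take k := by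
  induction k with
  | zero => exact ⟨0, fun t _ => ⟨Nat.zero_le _, by simp⟩⟩
  | succ k ih =>
    obtain ⟨T, hT⟩ := ih
    set b := ((st P T).take k).getD (k - 1) P with hb
    obtain ⟨T1, hT1⟩ := Filter.eventually_atTop.1 ((ev_eventually b).and (grow_eventually hP b))
    set T2 := max T T1 with hT2
    have step : ∀ t, T2 ≤ t → k + 1 ≤ len P (t + 1) ∧
        (k + 1 ≤ len P t → (st P (t + 1)).take (k + 1) = (st P t).take (k + 1)) := by
      intro t ht
      have a1 := hT t (le_trans (le_max_left _ _) ht)
      have a2 := hT (t + 1) (le_trans (le_trans (le_max_left _ _) ht) (Nat.le_succ t))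
      have a3 := hT1 t (le_trans (le_max_right _ _) ht)
      have hst : st P (t + 1) = stp (WW P) P t (st P t) := rfl
      rcases stp_trunc (WW P) P t (st P t) with ⟨u, hu1, hu0, hu2, hu3⟩ | ⟨h1, h2⟩ | ⟨h1, h2⟩
      · have hlen : len P (t + 1) = u := by
          unfold len
          rw [hst, hu3, List.length_take]
          omega
        have hku : k ≤ u := by rw [← hlen]; exact a2.1
        have hne : u ≠ k := by
          intro e
          subst e
          apply a3.1
          have : b = (st P t).getD (u - 1) 0 := by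
            rw [hb, ← a1.2, List.getD_eq_getElem?_getD, List.getD_eq_getElem?_getD,
              List.getElem?_take_of_lt (by omega)]
            rw [List.getElem?_eq_getElem (by omega)]
            rfl
          rw [this]
          exact hu2
        refine ⟨by omega, fun _ => ?_⟩
        rw [hst, hu3, List.take_take]
        congr 1
        omega
      · have hlen : len P (t + 1) = len P t + 1 := by
          unfold len
          rw [hst, h2, List.length_append]
          rfl
        refine ⟨by omega, fun h => ?_⟩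
        rw [hst, h2, List.take_append_of_le_length h]
      · have hne : len P t ≠ k := by
          intro e
          apply h1
          have e' : (st P t).length = k := e
          have : (st P t).getD ((st P t).length - 1) P = b := by
            rw [hb, ← a1.2, e', List.take_of_length_le (by omega)]
          rw [this]
          exact a3.2
        have hlen : len P (t + 1) = len P t := by
          unfold len
          rw [hst, h2]
        refine ⟨by omega, fun h => ?_⟩
        rw [hst, h2]
    refine ⟨T2 + 1, fun t ht => ?_⟩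
    induction t, ht using Nat.le_induction with
    | base => exact ⟨(step T2 le_rfl).1, rfl⟩
    | succ t ht ih2 =>
      have s := step t (by omega)
      exact ⟨s.1, (s.2 ih2.1).trans ih2.2⟩

/-- every position is eventually occupied forever -/
theorem exists_stab {P : ℕ} (hP : Good P) (r : ℕ) : ∃ T, ∀ t, T ≤ t → r < len P t := by
  obtain ⟨T, hT⟩ := stab_aux hP (r + 1)
  exact ⟨T, fun t ht => (hT t ht).1⟩

/-- the condition for truncation at `u` -/
def P3_cond (P t u : ℕ) : Prop := Act u (len P t) ∧ ev t ((st P t).getD (u - 1) 0)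

theorem P3_step (P t : ℕ) :
    (∃ u, u < len P t ∧ P3_cond P t u ∧ (∀ v < u, ¬ P3_cond P t v) ∧ st P (t + 1) = (st P t).take u) ∨
    ((∀ u < len P t, ¬ P3_cond P t u) ∧ grow (WW P) t ((st P t).getD (len P t - 1) P) ∧
      st P (t + 1) = st P t ++ [t]) ∨
    ((∀ u < len P t, ¬ P3_cond P t u) ∧ st P (t + 1) = st P t) := by
  classical
  have hst : st P (t + 1) = stp (WW P) P t (st P t) := rfl
  set L := st P t with hL
  have hlen : len P t = L.length := rfl
  set p : ℕ → Bool := fun u => decide (Act u L.length ∧ ev t (L.getD (u - 1) 0)) with hp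
  have hstp : stp (WW P) P t L = if (List.range L.length).findIdx p < L.length
      then L.take ((List.range L.length).findIdx p)
      else if grow (WW P) t (L.getD (L.length - 1) P) then L ++ [t] else L := by
    unfold stp
    simp only [hp]
  have hnot : ∀ i, i < L.length → i < (List.range L.length).findIdx p → ¬ P3_cond P t i := by
    intro i hi hi2 hc
    have h1 := List.not_of_lt_findIdx hi2
    have h2 : (List.range L.length)[i]'(by simpa using hi) = i := by simp
    rw [h2] at h1
    have h3 : p i = true := by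
      simp only [hp, decide_eq_true_eq]
      exact hc
    rw [h3] at h1
    exact absurd h1 (by simp)
  by_cases h : (List.range L.length).findIdx p < L.length
  · left
    refine ⟨(List.range L.length).findIdx p, h, ?_, ?_, ?_⟩
    · have h1 := List.findIdx_getElem (p := p) (xs := List.range L.length) (w := by simpa using h)
      have h2 : (List.range L.length)[(List.range L.length).findIdx p]'(by simpa using h) =
          (List.range L.length).findIdx p := by simp
      rw [h2] at h1
      have h3 := of_decide_eq_true h1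
      exact h3
    · intro v hv
      exact hnot v (hv.trans h) hv
    · rw [hst, hstp, if_pos h]
  · right
    have hall : ∀ u < len P t, ¬ P3_cond P t u := by
      intro u hu
      exact hnot u hu (lt_of_lt_of_le hu (not_lt.1 h))
    by_cases hg : grow (WW P) t (L.getD (L.length - 1) P)
    · left
      exact ⟨hall, hg, by rw [hst, hstp, if_neg h, if_pos hg]⟩
    · right
      exact ⟨hall, by rw [hst, hstp, if_neg h, if_neg hg]⟩

theorem P3_len_zero (P : ℕ) : len P 0 = 0 := rfl

theorem P3_bdd {P : ℕ} (hP : Good P) (r : ℕ) : BddAbove {t | len P t ≤ r} := by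
  obtain ⟨T, hT⟩ := exists_stab hP r
  refine ⟨T, fun t ht => ?_⟩
  by_contra h
  have := hT t (by omega)
  have h2 : len P t ≤ r := ht
  omega

theorem P3_mem {P : ℕ} (hP : Good P) (r : ℕ) : len P (X P r) ≤ r :=
  Nat.sSup_mem (s := {t | len P t ≤ r}) ⟨0, Nat.zero_le _⟩ (P3_bdd hP r)

theorem P3_le_X {P : ℕ} (hP : Good P) {r t : ℕ} (h : len P t ≤ r) : t ≤ X P r :=
  le_csSup (P3_bdd hP r) h

theorem lt_len_of_X_lt {P : ℕ} (hP : Good P) {r t : ℕ} (h : X P r < t) : r < len P t := by
  by_contra hc
  have := P3_le_X hP (not_lt.1 hc)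
  omega

theorem P3_len_succ_le (P t : ℕ) : len P (t + 1) ≤ len P t + 1 := by
  rcases P3_step P t with ⟨u, hu, -, -, h⟩ | ⟨-, -, h⟩ | ⟨-, h⟩
  · have : len P (t + 1) = min u (len P t) := by
      show (st P (t + 1)).length = _
      rw [h, List.length_take]; rfl
    omega
  · have : len P (t + 1) = len P t + 1 := by
      show (st P (t + 1)).length = _
      rw [h, List.length_append]; rfl
    omega
  · have : len P (t + 1) = len P t := by
      show (st P (t + 1)).length = _
      rw [h]; rfl
    omega

theorem len_X {P : ℕ} (hP : Good P) (r : ℕ) : len P (X P r) = r := by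
  have h1 := P3_mem hP r
  have h2 := lt_len_of_X_lt hP (Nat.lt_succ_self (X P r))
  have h3 := P3_len_succ_le P (X P r)
  rw [Nat.succ_eq_add_one] at h2
  omega

theorem P3_atX {P : ℕ} (hP : Good P) (r : ℕ) :
    grow (WW P) (X P r) ((st P (X P r)).getD (r - 1) P) ∧
      st P (X P r + 1) = st P (X P r) ++ [X P r] := by
  have h2 := lt_len_of_X_lt hP (Nat.lt_succ_self (X P r))
  rw [Nat.succ_eq_add_one] at h2
  have h1 := len_X hP r
  rcases P3_step P (X P r) with ⟨u, hu, -, -, h⟩ | ⟨-, hg, h⟩ | ⟨-, h⟩
  · have : len P (X P r + 1) = min u (len P (X P r)) := by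
      show (st P (X P r + 1)).length = _
      rw [h, List.length_take]; rfl
    omega
  · rw [h1] at hg
    exact ⟨hg, h⟩
  · have : len P (X P r + 1) = len P (X P r) := by
      show (st P (X P r + 1)).length = _
      rw [h]; rfl
    omega

theorem X_strictMono {P : ℕ} (hP : Good P) : StrictMono (X P) := by
  apply strictMono_nat_of_lt_succ
  intro r
  have h1 := len_X hP r
  have h2 := len_X hP (r + 1)
  have h3 : X P r ≤ X P (r + 1) := P3_le_X hP (by omega)
  rcases Nat.lt_or_eq_of_le h3 with h | h
  · exact h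
  · rw [← h] at h2
    omega

/-- after stage `X P r` the marker `r` is `X P r` -/
theorem st_getD {P : ℕ} (hP : Good P) {r t : ℕ} (h : X P r < t) : (st P t)[r]? = some (X P r) := by
  induction t, h using Nat.le_induction with
  | base =>
    rw [Nat.succ_eq_add_one, (P3_atX hP r).2]
    have h1 : (st P (X P r)).length = r := len_X hP r
    rw [List.getElem?_append_right (by omega)]
    simp [h1]
  | succ t ht ih =>
    have ht' : X P r < t := ht
    have h1 := lt_len_of_X_lt hP ht'
    have h2 : r < len P (t + 1) := lt_len_of_X_lt hP (by omega)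
    rcases P3_step P t with ⟨u, hu, -, -, h⟩ | ⟨-, -, h⟩ | ⟨-, h⟩
    · have h3 : len P (t + 1) = min u (len P t) := by
        show (st P (t + 1)).length = _
        rw [h, List.length_take]; rfl
      rw [h, List.getElem?_take_of_lt (by omega)]
      exact ih
    · rw [h, List.getElem?_append_left h1]
      exact ih
    · rw [h]
      exact ih

theorem lt_X_zero {P : ℕ} (hP : Good P) : P < X P 0 := by
  have h1 := (P3_atX hP 0).1
  have h2 : (st P (X P 0)).length = 0 := len_X hP 0
  have h3 : st P (X P 0) = [] := List.length_eq_zero_iff.1 h2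
  rw [h3] at h1
  exact h1.1

theorem X_grow {P : ℕ} (hP : Good P) (r : ℕ) : ∀ c ∈ WW P, ∀ n ≤ X P r, ∃ y < X P (r + 1),
    Code.evaln (X P (r + 1)) (Denumerable.ofNat Code c) n = some y := by
  have h1 := (P3_atX hP (r + 1)).1
  have h2 := st_getD hP (X_strictMono hP (Nat.lt_succ_self r))
  have h3 : (st P (X P (r + 1))).getD (r + 1 - 1) P = X P r := by
    rw [Nat.add_sub_cancel, List.getD_eq_getElem?_getD]
    have h4 : (st P (X P (r + 1)))[r]? = some (X P r) := h2
    rw [h4]; rfl
  rw [h3] at h1
  intro c hc n hn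
  exact h1.2 c hc n (by omega)

theorem X_complete {P : ℕ} (hP : Good P) {w s t : ℕ} (hw : 0 < w) (hs : 2 ^ s ∣ w)
    (ht : X P w < t) (hl : w + 2 ^ s ≤ len P t) : X P (w + 2 ^ s - 1) < t := by
  have key : ∀ t', t ≤ t' → w + 2 ^ s ≤ len P t' := by
    intro t' htt'
    induction t', htt' using Nat.le_induction with
    | base => exact hl
    | succ t' htt' ih =>
      have h2 : w < len P (t' + 1) := lt_len_of_X_lt hP (by omega)
      rcases P3_step P t' with ⟨u, hu, hc, -, h⟩ | ⟨-, -, h⟩ | ⟨-, h⟩
      · have h3 : len P (t' + 1) = min u (len P t') := by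
          show (st P (t' + 1)).length = _
          rw [h, List.length_take]; rfl
        have h4 : len P (t' + 1) = u := by omega
        rw [h4]
        by_contra hcon
        have hlt : u < w + 2 ^ s := not_le.1 hcon
        have hwu : w < u := by omega
        obtain ⟨⟨-, -, s', -, hs', hn⟩, -⟩ := hc
        have hss : s' < s := by
          by_contra hge
          have h5 : 2 ^ s ∣ u := (pow_dvd_pow 2 (not_lt.1 hge)).trans hs'
          have h6 : 2 ^ s ∣ u - w := Nat.dvd_sub h5 hs
          have h7 := Nat.le_of_dvd (by omega) h6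
          omega
        have h8 : 2 ^ s' ∣ 2 ^ s := pow_dvd_pow 2 hss.le
        have h9 : 2 ^ s' ∣ w + 2 ^ s := dvd_add (h8.trans hs) h8
        have h10 : 2 ^ s' ∣ w + 2 ^ s - u := Nat.dvd_sub h9 hs'
        have h11 := Nat.le_of_dvd (by omega) h10
        omega
      · have h3 : len P (t' + 1) = len P t' + 1 := by
          show (st P (t' + 1)).length = _
          rw [h, List.length_append]; rfl
        omega
      · have h3 : len P (t' + 1) = len P t' := by
          show (st P (t' + 1)).length = _
          rw [h]; rfl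
        omega
  by_contra hcon
  have h1 := key _ (not_lt.1 hcon)
  have h2 := len_X hP (w + 2 ^ s - 1)
  omega

theorem X_quiet {P : ℕ} (hP : Good P) {w s t : ℕ} (hw : 0 < w) (hs : 2 ^ s ∣ w)
    (ht : X P w < t) (ht' : t ≤ X P (w + 2 ^ s - 1)) : ¬ ev t (X P (w - 1)) := by
  intro hev
  have h1 : len P t < w + 2 ^ s := by
    by_contra hcon
    have := X_complete hP hw hs ht (not_lt.1 hcon)
    omega
  have h2 : w < len P t := lt_len_of_X_lt hP ht
  have h3 : 2 ^ s ≤ w := Nat.le_of_dvd hw hs
  have h4 : s < 2 ^ s := Nat.lt_two_pow_self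
  have hlt : X P (w - 1) < t := (X_strictMono hP (by omega : w - 1 < w)).trans ht
  have h5 : (st P t).getD (w - 1) 0 = X P (w - 1) := by
    rw [List.getD_eq_getElem?_getD, st_getD hP hlt]; rfl
  have hc : P3_cond P t w := by
    refine ⟨⟨hw, h2, s, by omega, hs, h1⟩, ?_⟩
    rw [h5]; exact hev
  have h6 : w < len P (t + 1) := lt_len_of_X_lt hP (by omega)
  rcases P3_step P t with ⟨u, hu, -, hmin, h⟩ | ⟨hn, -, -⟩ | ⟨hn, -⟩
  · have h7 : len P (t + 1) = min u (len P t) := by
      show (st P (t + 1)).length = _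
      rw [h, List.length_take]; rfl
    exact hmin w (by omega) hc
  · exact hn w h2 hc
  · exact hn w h2 hc

end Pool.Agent.Helper317.Sacks
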