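import Pool.Agent.Helper317.Sacks.Model
import Pool.Agent.Helper317.Sacks.Proc

/-!
`Σ_1` sets in the model through halting programs.
-/

namespace Pool.Agent.Helper317.Sacks

open FirstOrder FirstOrder.Language Filter
open Pool.Agent.Helper626
open Nat.Partrec (Code)


/-! ### part 24218 -/

section

variable {F : Set (ℕ → ℕ)} {U : Ultrafilter ℕ} {B : ℕ → ℕ → ℕ} [hA : Fact (Adm F U B)]

theorem mod_PAminusExp_aux : PAminusExp (Mod F U B) where
  add_assoc x y z := by
    rw [eq_iff]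
    filter_upwards [rep_add (x + y) z, rep_add x y, rep_add x (y + z), rep_add y z] with d h1 h2 h3 h4
    rw [h1, h2, h3, h4, Nat.add_assoc]
  add_comm x y := by
    rw [eq_iff]
    filter_upwards [rep_add x y, rep_add y x] with d h1 h2
    rw [h1, h2, Nat.add_comm]
  mul_assoc x y z := by
    rw [eq_iff]
    filter_upwards [rep_mul (x * y) z, rep_mul x y, rep_mul x (y * z), rep_mul y z] with d h1 h2 h3 h4
    rw [h1, h2, h3, h4, Nat.mul_assoc]
  mul_comm x y := by
    rw [eq_iff]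
    filter_upwards [rep_mul x y, rep_mul y x] with d h1 h2
    rw [h1, h2, Nat.mul_comm]
  mul_add x y z := by
    rw [eq_iff]
    filter_upwards [rep_mul x (y + z), rep_add y z, rep_add (x * y) (x * z), rep_mul x y,
      rep_mul x z] with d h1 h2 h3 h4 h5
    rw [h1, h2, h3, h4, h5, Nat.mul_add]
  add_zero x := by
    rw [eq_iff]
    filter_upwards [rep_add x 0, rep_zero (F := F) (U := U) (B := B)] with d h1 h2
    rw [h1, h2, Nat.add_zero]
  mul_zero x := by
    rw [eq_iff]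
    filter_upwards [rep_mul x 0, rep_zero (F := F) (U := U) (B := B)] with d h1 h2
    rw [h1, h2, Nat.mul_zero]
  mul_one x := by
    rw [eq_iff]
    filter_upwards [rep_mul x 1, rep_one (F := F) (U := U) (B := B)] with d h1 h2
    rw [h1, h2, Nat.mul_one]
  lt_trans x y z h1 h2 := by
    rw [lt_iff]
    filter_upwards [h1, h2] with d h1 h2
    exact h1.trans h2
  lt_irrefl x h := by
    obtain ⟨d, hd⟩ := (h : ∀ᶠ d in (U : Filter (ℕ)), rep x d < rep x d).exists
    exact absurd hd (Nat.lt_irrefl _)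
  lt_trichotomy x y := by
    have : ∀ᶠ d in (U : Filter (ℕ)), rep x d < rep y d ∨ (rep x d = rep y d ∨ rep y d < rep x d) :=
      Eventually.of_forall fun d => lt_trichotomy _ _
    rw [Ultrafilter.eventually_or, Ultrafilter.eventually_or] at this
    rw [eq_iff]
    exact this
  add_lt_add x y z h := by
    rw [lt_iff]
    filter_upwards [h, rep_add x z, rep_add y z] with d h1 h2 h3
    rw [h2, h3]
    exact Nat.add_lt_add_right h1 _
  mul_lt_mul x y z hz h := by
    rw [lt_iff]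
    filter_upwards [h, rep_mul x z, rep_mul y z, hz, rep_zero (F := F) (U := U) (B := B)] with d h1 h2 h3 h4 h5
    rw [h2, h3]
    rw [h5] at h4
    exact Nat.mul_lt_mul_of_pos_right h1 h4
  exists_add x y h := by
    obtain ⟨z, hz⟩ := exists_comp₂ (F := F) (U := U) (B := B) y x
      (g := fun a b => a - b) Primrec.nat_sub.to_comp
    refine ⟨z, ?_⟩
    rw [eq_iff]
    filter_upwards [rep_add x z, hz, h] with d h1 h2 h3
    rw [h1, h2]
    omega
  zero_lt_one := by
    rw [lt_iff]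
    filter_upwards [rep_zero (F := F) (U := U) (B := B), rep_one (F := F) (U := U) (B := B)] with d h1 h2
    omega
  discrete x h := by
    rw [eq_iff, lt_iff, ← Ultrafilter.eventually_or]
    filter_upwards [h, rep_zero (F := F) (U := U) (B := B), rep_one (F := F) (U := U) (B := B)] with d h1 h2 h3
    omega
  nonneg x := by
    rw [eq_iff, lt_iff, ← Ultrafilter.eventually_or]
    filter_upwards [rep_zero (F := F) (U := U) (B := B)] with d h2
    omega
  pow_zero x := by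
    rw [eq_iff]
    filter_upwards [rep_pow x 0, rep_zero (F := F) (U := U) (B := B), rep_one (F := F) (U := U) (B := B)] with d h1 h2 h3
    rw [h1, h2, h3, Nat.pow_zero]
  pow_succ x y := by
    rw [eq_iff]
    filter_upwards [rep_pow x (y + 1), rep_add y 1, rep_one (F := F) (U := U) (B := B), rep_mul (x ^ y) x,
      rep_pow x y] with d h1 h2 h3 h4 h5
    rw [h1, h2, h3, h4, h5, Nat.pow_succ]

theorem mod_PAminusExp : PAminusExp (Mod F U B) := by
  exact mod_PAminusExp_aux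

end


/-! ### part 24219 -/

section

variable {F : Set (ℕ → ℕ)} {U : Ultrafilter ℕ} {B : ℕ → ℕ → ℕ} [hA : Fact (Adm F U B)]

theorem rep_two_aux : ∀ᶠ d in (U : Filter ℕ), rep (1 + 1 : Mod F U B) d = 1 + 1 := by
  filter_upwards [rep_add (F := F) (U := U) (B := B) 1 1, rep_one (F := F) (U := U) (B := B)]
    with d h1 h2
  rw [h1, h2]

theorem rep_two_pow_aux (x : Mod F U B) :
    ∀ᶠ d in (U : Filter ℕ), rep ((1 + 1 : Mod F U B) ^ x) d = (1 + 1) ^ rep x d := by
  filter_upwards [rep_pow (1 + 1 : Mod F U B) x, rep_two_aux (F := F) (U := U) (B := B)]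
    with d h1 h2
  rw [h1, h2]

theorem digit_iff_aux (x a : Mod F U B) :
    Digit x a ↔ ∀ᶠ d in (U : Filter ℕ), Digit (rep x d) (rep a d) := by
  constructor
  · rintro ⟨q, r, h, hr⟩
    rw [eq_iff] at h
    rw [lt_iff] at hr
    filter_upwards [h, hr, rep_add (q * (1 + 1) ^ (x + 1) + (1 + 1) ^ x) r,
      rep_add (q * (1 + 1) ^ (x + 1)) ((1 + 1) ^ x), rep_mul q ((1 + 1) ^ (x + 1)),
      rep_two_pow_aux (x + 1), rep_two_pow_aux x, rep_add x 1,
      rep_one (F := F) (U := U) (B := B)] with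
      d h1 h2 h3 h4 h5 h6 h7 h8 h9
    refine ⟨rep q d, rep r d, ?_, ?_⟩
    · rw [h1, h3, h4, h5, h6, h7, h8, h9]
    · rw [← h7]
      exact h2
  · intro h
    have hp : Primrec₂ (fun a b : ℕ => a ^ b) := Primrec₂.unpaired'.1 Nat.Primrec.pow
    have hc1 : Computable₂ (fun a x : ℕ => a / 2 ^ (x + 1)) :=
      Primrec₂.to_comp (Primrec.nat_div.comp Primrec.fst
        (hp.comp (Primrec.const 2) (Primrec.succ.comp Primrec.snd)))
    have hc2 : Computable₂ (fun a x : ℕ => a % 2 ^ x) :=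
      Primrec₂.to_comp (Primrec.nat_mod.comp Primrec.fst
        (hp.comp (Primrec.const 2) Primrec.snd))
    obtain ⟨q, hq⟩ := exists_comp₂ a x hc1
    obtain ⟨r, hr⟩ := exists_comp₂ a x hc2
    refine ⟨q, r, ?_, ?_⟩
    · rw [eq_iff]
      filter_upwards [h, hq, hr, rep_add (q * (1 + 1) ^ (x + 1) + (1 + 1) ^ x) r,
        rep_add (q * (1 + 1) ^ (x + 1)) ((1 + 1) ^ x), rep_mul q ((1 + 1) ^ (x + 1)),
        rep_two_pow_aux (x + 1), rep_two_pow_aux x, rep_add x 1,
        rep_one (F := F) (U := U) (B := B)] with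
        d h0 h1 h2 h3 h4 h5 h6 h7 h8 h9
      rw [h3, h4, h5, h6, h7, h8, h9, h1, h2]
      rw [digit_nat, Nat.testBit_eq_decide_div_mod_eq, decide_eq_true_eq] at h0
      obtain ⟨A, hA⟩ : ∃ A, A = rep a d := ⟨_, rfl⟩
      obtain ⟨X, hX⟩ : ∃ X, X = rep x d := ⟨_, rfl⟩
      rw [← hA, ← hX] at h0 ⊢
      have e1 := Nat.div_add_mod A (2 ^ X)
      have e2 := Nat.div_add_mod (A / 2 ^ X) 2
      rw [h0] at e2
      have e3 : A / 2 ^ (X + 1) = A / 2 ^ X / 2 := by
        rw [pow_succ, Nat.div_div_eq_div_mul]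
      rw [e3]
      calc A = 2 ^ X * (A / 2 ^ X) + A % 2 ^ X := e1.symm
        _ = 2 ^ X * (2 * (A / 2 ^ X / 2) + 1) + A % 2 ^ X := by rw [e2]
        _ = A / 2 ^ X / 2 * (1 + 1) ^ (X + 1) + (1 + 1) ^ X + A % 2 ^ X := by
          rw [pow_succ]
          norm_num
          ring
    · rw [lt_iff]
      filter_upwards [hr, rep_two_pow_aux x] with d h1 h7
      rw [h7, h1]
      exact Nat.mod_lt _ (by positivity)

theorem mem_fset_iff (x a : Mod F U B) :
    x ∈ fset a ↔ ∀ᶠ d in (U : Filter ℕ), Nat.testBit (rep a d) (rep x d) = true := by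
  change Digit x a ↔ _
  rw [digit_iff_aux]
  simp only [digit_nat]

end


/-! ### part 24220 -/

section

variable {F : Set (ℕ → ℕ)} {U : Ultrafilter ℕ} {B : ℕ → ℕ → ℕ} [hA : Fact (Adm F U B)]

theorem search {R : ℕ → ℕ → Prop} (hR : PrimrecRel R) : ∃ c : ℕ, ∀ x : Mod F U B,
    ((∃ t : Mod F U B, ∀ᶠ d in (U : Filter ℕ), halt (rep t d) (Nat.pair c (rep x d)) = true) ↔
      ∃ w : Mod F U B, ∀ᶠ d in (U : Filter ℕ), R (rep x d) (rep w d)) := by
  classical
  obtain ⟨inst, h2'⟩ := hR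
  have h2 : Primrec (fun p : ℕ × ℕ => @decide (R p.1 p.2) (Classical.propDecidable _)) :=
    h2'.of_eq (fun p => by congr)
  clear h2' inst
  have h3 : Partrec₂ (fun (n w : ℕ) => (Part.some (decide (R n w)) : Part Bool)) :=
    h2.to_comp.partrec
  have h5 := Partrec.rfind h3
  obtain ⟨c, hc⟩ := Code.exists_code.1 (Partrec.nat_iff.1 h5)
  have hev : Primrec (fun p : ℕ × ℕ => Code.evaln p.1 c p.2) :=
    Code.primrec_evaln.comp (Primrec.pair (Primrec.pair Primrec.fst (Primrec.const c)) Primrec.snd)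
  refine ⟨Encodable.encode c, fun x => ⟨?_, ?_⟩⟩
  · rintro ⟨t, ht⟩
    have hg : Computable₂ (fun t x : ℕ => (Code.evaln t c x).getD 0) :=
      (Primrec.option_getD.comp hev (Primrec.const 0)).to_comp
    obtain ⟨w, hw⟩ := exists_comp₂ t x hg
    refine ⟨w, ?_⟩
    filter_upwards [ht, hw] with d h1 h2
    unfold halt at h1
    simp only [Nat.unpair_pair, Denumerable.ofNat_encode] at h1
    rw [Option.isSome_iff_exists] at h1
    obtain ⟨y, hy⟩ := h1
    rw [h2, hy]
    have h6 : y ∈ Code.eval c (rep x d) := Code.evaln_sound hy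
    rw [hc] at h6
    exact of_decide_eq_true (Part.mem_some_iff.1 (Nat.rfind_spec h6)).symm
  · rintro ⟨w, hw⟩
    have hdom : ∀ n w, R n w → ∃ s, (Code.evaln s c n).isSome = true := by
      intro n w hnw
      obtain ⟨z, hz, -⟩ := Nat.rfind_min' (p := fun w : ℕ => decide (R n w)) (m := w)
        (decide_eq_true hnw)
      have h6 : z ∈ Code.eval c n := by rw [hc]; exact hz
      obtain ⟨s, hs⟩ := Code.evaln_complete.1 h6
      exact ⟨s, Option.isSome_iff_exists.2 ⟨z, hs⟩⟩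
    have htot : ∀ p : ℕ × ℕ, ∃ s, (!(decide (R p.1 p.2)) || (Code.evaln s c p.1).isSome) = true := by
      intro p
      by_cases h : R p.1 p.2
      · obtain ⟨s, hs⟩ := hdom p.1 p.2 h
        exact ⟨s, by rw [hs, Bool.or_true]⟩
      · exact ⟨0, by rw [decide_eq_false h]; rfl⟩
    have hg : Computable (fun p : ℕ × ℕ => Nat.find (htot p)) := by
      have h7 : Primrec (fun q : (ℕ × ℕ) × ℕ =>
          (!(decide (R q.1.1 q.1.2)) || (Code.evaln q.2 c q.1.1).isSome)) :=
        Primrec.or.comp (Primrec.not.comp (h2.comp Primrec.fst))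
          (Primrec.option_isSome.comp (hev.comp (Primrec.pair Primrec.snd
            (Primrec.fst.comp Primrec.fst))))
      have h8 : Partrec₂ (fun (p : ℕ × ℕ) (s : ℕ) => (Part.some
          (!(decide (R p.1 p.2)) || (Code.evaln s c p.1).isSome) : Part Bool)) :=
        h7.to_comp.partrec
      refine (Partrec.rfind h8).of_eq_tot ?_
      intro p
      refine Nat.mem_rfind.2 ⟨?_, ?_⟩
      · rw [Part.mem_some_iff]
        exact (Nat.find_spec (htot p)).symm
      · intro m hm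
        rw [Part.mem_some_iff]
        have := Nat.find_min (htot p) hm
        rw [Bool.not_eq_true] at this
        exact this.symm
    obtain ⟨t, ht⟩ := exists_comp₂ x w (g := fun n w => Nat.find (htot (n, w))) hg
    refine ⟨t, ?_⟩
    filter_upwards [hw, ht] with d h1 h2
    unfold halt
    simp only [Nat.unpair_pair, Denumerable.ofNat_encode]
    rw [h2]
    have h9 := Nat.find_spec (htot (rep x d, rep w d))
    rw [Bool.or_eq_true] at h9
    rcases h9 with h | h
    · have h10 : decide (R (rep x d) (rep w d)) = true := decide_eq_true h1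
      rw [h10] at h
      exact absurd h (by decide)
    · exact h

end


/-! ### part 24221 -/

section

variable {F : Set (ℕ → ℕ)} {U : Ultrafilter ℕ} {B : ℕ → ℕ → ℕ} [hA : Fact (Adm F U B)]

theorem sat_sigma {n : ℕ} {φ : Fml true n} (h : IsSigma 1 φ) :
    ∃ R : ℕ → ℕ → Prop, PrimrecRel R ∧ ∀ x : Fin n → Mod F U B,
      (Sat φ x ↔ ∃ w : Mod F U B, ∀ᶠ d in (U : Filter ℕ), R (enc n (fun i => rep (x i) d)) (rep w d)) := by
  obtain ⟨r, ψ, hψ, rfl⟩ := h
  have hψ' : IsDelta0 ψ := hψ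
  have h1 : PrimrecPred (fun z : ℕ =>
      Sat ψ (Fin.append (dec n z.unpair.1) (dec r z.unpair.2) : Fin (n + r) → ℕ)) := by
    refine (D0.of_delta0 hψ').primrec
      (fun z => Fin.append (dec n z.unpair.1) (dec r z.unpair.2)) ?_
    intro i
    refine Fin.addCases (fun i => ?_) (fun i => ?_) i
    · simp only [Fin.append_left]
      exact (dec_primrec n i).comp (Primrec.fst.comp Primrec.unpair)
    · simp only [Fin.append_right]
      exact (dec_primrec r i).comp (Primrec.snd.comp Primrec.unpair)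
  refine ⟨fun a b => Sat ψ (Fin.append (dec n a) (dec r b) : Fin (n + r) → ℕ), ?_, ?_⟩
  · have h2 : PrimrecPred (fun z : ℕ × ℕ => Sat ψ (Fin.append (dec n (Nat.pair z.1 z.2).unpair.1)
        (dec r (Nat.pair z.1 z.2).unpair.2) : Fin (n + r) → ℕ)) :=
      h1.comp (Primrec₂.natPair.comp Primrec.fst Primrec.snd)
    refine h2.of_eq ?_
    rintro ⟨a, b⟩
    simp only [Nat.unpair_pair]
  · intro x
    rw [sat_exs]
    constructor
    · rintro ⟨w, hw⟩
      rw [los_delta hψ'] at hw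
      simp only [rep_append] at hw
      obtain ⟨z, hz⟩ := exists_enc r w
      refine ⟨z, ?_⟩
      filter_upwards [hw, hz] with d h1 h2
      rw [h2, dec_enc, dec_enc]
      exact h1
    · rintro ⟨b, hb⟩
      have hex : ∀ i : Fin r, ∃ y : Mod F U B, ∀ᶠ d in (U : Filter ℕ),
          rep y d = dec r (rep b d) i := fun i => exists_comp b (dec_primrec r i).to_comp
      choose w hw using hex
      refine ⟨w, ?_⟩
      rw [los_delta hψ']
      simp only [rep_append]
      have hall : ∀ᶠ d in (U : Filter ℕ), ∀ i, rep (w i) d = dec r (rep b d) i := by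
        rw [Filter.eventually_all]
        exact hw
      filter_upwards [hb, hall] with d h1 h2
      rw [dec_enc] at h1
      have h3 : (fun i => rep (w i) d) = dec r (rep b d) := funext h2
      rw [h3]
      exact h1

end


/-! ### part 24222 -/

section

variable {F : Set (ℕ → ℕ)} {U : Ultrafilter ℕ} {B : ℕ → ℕ → ℕ} [hA : Fact (Adm F U B)]


omit hA in
theorem sK_S1 (n : ℕ) {R : ℕ → ℕ → Prop} (hR : PrimrecRel R) :
    S1 true (fun v : Fin (n + 1) → ℕ => R (enc n (Fin.init v)) (v (Fin.last n))) := by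
  have h2' : PrimrecPred (fun c : ℕ => R c.unpair.1 c.unpair.2) :=
    hR.comp (Primrec.fst.comp Primrec.unpair) (Primrec.snd.comp Primrec.unpair)
  obtain ⟨inst, h2⟩ := h2'
  have h3 : Primrec (fun z : ℕ => if decide (R z.unpair.1 z.unpair.2) = true then 1 else 0) :=
    Primrec.ite (Primrec.eq.comp h2 (Primrec.const true)) (Primrec.const 1) (Primrec.const 0)
  have h4 : Nat.Partrec (fun z => Part.some (if decide (R z.unpair.1 z.unpair.2) = true then 1 else 0)) := by
    exact Partrec.nat_iff.1 h3.to_comp.partrec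
  refine (S1.ex (Q := fun v c => Pool.Agent.Helper626.enc (n+1) v = c ∧ ∃ y, y = 1 ∧
    y ∈ (Part.some (if decide (R c.unpair.1 c.unpair.2) = true then 1 else 0) : Part ℕ))
    (S1.and (S1.encT (t := fun i w => w i.castSucc) (fun i => T0.var _) T0.last)
      (S1.ex (S1.and (S1.eq T0.last T0.one)
        ((S1.of_partrec h4).app (R := fun x y => y ∈ (Part.some
          (if decide (R x.unpair.1 x.unpair.2) = true then 1 else 0) : Part ℕ)) T0.last.init T0.last))))).of_iff
    fun v => ?_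
  have henc : Nat.unpair (enc (n+1) v) = (enc n (Fin.init v), v (Fin.last n)) := by
    change Nat.unpair (Nat.pair _ _) = _
    rw [Nat.unpair_pair]
  constructor
  · intro h
    refine ⟨_, rfl, 1, rfl, ?_⟩
    have h6 : decide (R (Nat.unpair (enc (n+1) v)).1 (Nat.unpair (enc (n+1) v)).2) = true := by
      rw [decide_eq_true_eq, henc]; exact h
    rw [if_pos h6]
    exact Part.mem_some _
  · rintro ⟨c, rfl, y, rfl, h⟩
    by_contra hcon
    have h6 : ¬ decide (R (Nat.unpair (enc (n+1) v)).1 (Nat.unpair (enc (n+1) v)).2) = true := by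
      rw [decide_eq_true_eq, henc]; exact hcon
    rw [if_neg h6, Part.mem_some_iff] at h
    exact absurd h (by norm_num)

omit hA in
/-- total computable search -/
theorem sK_search {R : ℕ → ℕ → Prop} (hR : PrimrecRel R) (h : ∀ k, ∃ z, R k z) :
    ∃ ζ : ℕ → ℕ, Computable ζ ∧ ∀ k, R k (ζ k) := by
  obtain ⟨inst, h2⟩ := hR
  haveI hdec : ∀ k z, Decidable (R k z) := fun k z => inst (k, z)
  have h2' : Primrec (fun a : ℕ × ℕ => decide (R a.1 a.2)) :=
    h2.of_eq (fun a => by congr)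
  have hp : Partrec₂ (fun (k z : ℕ) => (Part.some (decide (R k z)) : Part Bool)) := by
    exact (h2'.to_comp).partrec
  have hr := Partrec.rfind hp
  have hex : ∀ k, ∃ n, n ∈ Nat.rfind (fun z => (Part.some (decide (R k z)) : Part Bool)) := by
    intro k
    refine ⟨Nat.find (h k), Nat.mem_rfind.2 ⟨?_, fun {m} hm => ?_⟩⟩
    · rw [Part.mem_some_iff]
      exact (decide_eq_true (Nat.find_spec (h k))).symm
    · rw [Part.mem_some_iff]
      exact (decide_eq_false (Nat.find_min (h k) hm)).symm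
  choose ζ hζ using hex
  refine ⟨ζ, Partrec.of_eq_tot hr hζ, fun k => ?_⟩
  have := (Nat.mem_rfind.1 (hζ k)).1
  rw [Part.mem_some_iff] at this
  exact of_decide_eq_true this.symm

omit hA in
theorem sK_snoc2 {n : ℕ} {α : Type} (x : Fin n → α) (W : Fin 2 → α) :
    (Fin.append x W : Fin (n + 2) → α) = (Fin.snoc (Fin.snoc x (W 0) : Fin (n+1) → α) (W 1) : Fin (n + 1 + 1) → α) := by
  have h1 : W = (Fin.snoc (Fin.snoc (Fin.elim0 : Fin 0 → α) (W 0) : Fin 1 → α) (W 1) : Fin 2 → α) := by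
    funext i
    fin_cases i
    · rfl
    · rfl
  have h2 := append_snoc' x (Fin.snoc (Fin.elim0 : Fin 0 → α) (W 0) : Fin 1 → α) (W 1)
  have h3 := append_snoc' x (Fin.elim0 : Fin 0 → α) (W 0)
  have h4 : Fin.append x (Fin.elim0 : Fin 0 → α) = x := by
    funext i
    exact Fin.append_left x (Fin.elim0 : Fin 0 → α) i
  rw [h4] at h3
  rw [h3, ← h1] at h2
  exact h2

theorem sK_common (n : ℕ) {R : ℕ → ℕ → Prop} (hR : PrimrecRel R) :
    ∃ θ : Fml true (n + 2), IsDelta0 θ ∧ ∀ x : Fin n → Mod F U B,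
      ((∃ w : Mod F U B, ∀ᶠ d in (U : Filter ℕ), R (enc n (fun i => rep (x i) d)) (rep w d)) ↔
        ∃ W : Fin 2 → Mod F U B, Sat θ (Fin.append x W)) := by
  obtain ⟨P', hP', h⟩ := sK_S1 n hR
  obtain ⟨θ, hθ, hθ'⟩ := hP'.syn
  -- total version : search on codes of tuples
  have hrel2 : PrimrecRel (fun k z : ℕ => (¬ R (enc n (Fin.init (dec (n+1) k))) (dec (n+1) k (Fin.last n))) ∨
      P' (Fin.snoc (dec (n+1) k) z)) := by
    have h1 : PrimrecPred (fun c : ℕ => P' (Fin.snoc (dec (n+1) c.unpair.1) c.unpair.2)) := by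
      refine hP'.primrec (fun z => Fin.snoc (dec (n+1) z.unpair.1) z.unpair.2) ?_
      intro i
      refine Fin.lastCases ?_ (fun i => ?_) i
      · simp only [Fin.snoc_last]
        exact Primrec.snd.comp Primrec.unpair
      · simp only [Fin.snoc_castSucc]
        exact (dec_primrec (n+1) i).comp (Primrec.fst.comp Primrec.unpair)
    have h2 : PrimrecPred (fun z : ℕ × ℕ => P' (Fin.snoc (dec (n+1) z.1) z.2)) := by
      refine (h1.comp (Primrec₂.natPair.comp Primrec.fst Primrec.snd)).of_eq ?_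
      intro x
      simp
    have henc : ∀ (m : ℕ) (g : ℕ → (Fin m → ℕ)), (∀ i, Primrec (fun k => g k i)) →
        Primrec (fun k => enc m (g k)) := by
      intro m
      induction m with
      | zero => intro g _; exact Primrec.const 0
      | succ m ih =>
        intro g hg
        exact Primrec₂.natPair.comp (ih (fun k => Fin.init (g k)) (fun i => hg i.castSucc)) (hg (Fin.last m))
    have h5 : Primrec (fun k => enc n (Fin.init (dec (n+1) k))) :=
      henc n (fun k => Fin.init (dec (n+1) k)) (fun i => dec_primrec (n+1) i.castSucc)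
    have h3 : PrimrecPred (fun z : ℕ × ℕ => ¬ R (enc n (Fin.init (dec (n+1) z.1))) (dec (n+1) z.1 (Fin.last n))) :=
      (hR.comp (h5.comp Primrec.fst) ((dec_primrec (n+1) (Fin.last n)).comp Primrec.fst)).not
    exact h3.or h2
  obtain ⟨ζ, hζ, hζ'⟩ := sK_search hrel2 (by
    intro k
    by_cases hk : R (enc n (Fin.init (dec (n+1) k))) (dec (n+1) k (Fin.last n))
    · obtain ⟨z, hz⟩ := (h (dec (n+1) k)).1 hk
      exact ⟨z, Or.inr hz⟩
    · exact ⟨0, Or.inl hk⟩)
  refine ⟨θ, hθ, fun x => ?_⟩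
  constructor
  · rintro ⟨w, hw⟩
    obtain ⟨k, hk⟩ := exists_enc (n+1) (Fin.snoc x w : Fin (n+1) → Mod F U B)
    obtain ⟨z, hz⟩ := exists_comp k hζ
    refine ⟨![w, z], ?_⟩
    rw [sK_snoc2]
    have := (los_delta hθ (Fin.snoc (Fin.snoc x w : Fin (n+1) → Mod F U B) z : Fin (n+1+1) → Mod F U B)).2 ?_
    · exact this
    · filter_upwards [hw, hk, hz] with d h1 h2 h3
      rw [hθ', rep_snoc, rep_snoc, h3]
      rw [rep_snoc] at h2
      rcases hζ' (rep k d) with h4 | h4
      · exfalso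
        apply h4
        rw [h2, dec_enc, Fin.init_snoc, Fin.snoc_last]
        exact h1
      · rw [h2, dec_enc] at h4
        rw [h2]
        exact h4
  · rintro ⟨W, hW⟩
    rw [sK_snoc2] at hW
    have := (los_delta hθ (Fin.snoc (Fin.snoc x (W 0) : Fin (n+1) → Mod F U B) (W 1) : Fin (n+1+1) → Mod F U B)).1 hW
    refine ⟨W 0, ?_⟩
    filter_upwards [this] with d hd
    rw [hθ', rep_snoc, rep_snoc] at hd
    have h5 : R (enc n (Fin.init (Fin.snoc (fun i => rep (x i) d) (rep (W 0) d) : Fin (n+1) → ℕ)))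
      ((Fin.snoc (fun i => rep (x i) d) (rep (W 0) d) : Fin (n+1) → ℕ) (Fin.last n)) :=
      (h (Fin.snoc (fun i => rep (x i) d) (rep (W 0) d))).2 ⟨_, hd⟩
    rw [Fin.init_snoc, Fin.snoc_last] at h5
    exact h5

theorem sigma_of (n : ℕ) {R : ℕ → ℕ → Prop} (hR : PrimrecRel R) :
    ∃ φ : Fml true n, IsSigma 1 φ ∧ ∀ x : Fin n → Mod F U B,
      (Sat φ x ↔ ∃ w : Mod F U B, ∀ᶠ d in (U : Filter ℕ), R (enc n (fun i => rep (x i) d)) (rep w d)) := by
  obtain ⟨θ, hθ, h⟩ := sK_common (F := F) (U := U) (B := B) n hR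
  refine ⟨exs 2 θ, ⟨2, θ, hθ, rfl⟩, fun x => ?_⟩
  rw [sat_exs, h]

theorem pi_of (n : ℕ) {R : ℕ → ℕ → Prop} (hR : PrimrecRel R) :
    ∃ φ : Fml true n, IsPi 1 φ ∧ ∀ x : Fin n → Mod F U B,
      (Sat φ x ↔ ¬ ∃ w : Mod F U B, ∀ᶠ d in (U : Filter ℕ), R (enc n (fun i => rep (x i) d)) (rep w d)) := by
  obtain ⟨θ, hθ, h⟩ := sK_common (F := F) (U := U) (B := B) n hR
  refine ⟨alls 2 θ.not, ⟨2, θ.not, IsDelta0.imp hθ IsDelta0.falsum, rfl⟩, fun x => ?_⟩
  rw [sat_alls, h, not_exists]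
  rfl

end


/-! ### part 24223 -/

section

variable {F : Set (ℕ → ℕ)} {U : Ultrafilter ℕ} {B : ℕ → ℕ → ℕ} [hA : Fact (Adm F U B)]




theorem sigmaDef_of {S : Set (Mod F U B)} {R : ℕ → ℕ → Prop} (hR : PrimrecRel R) (q : Mod F U B)
    (h : ∀ x, x ∈ S ↔ ∃ w : Mod F U B, ∀ᶠ d in (U : Filter ℕ), R (Nat.pair (rep q d) (rep x d)) (rep w d)) :
    SigmaDef true 1 S := by
  have hR' : PrimrecRel (fun a w : ℕ => R (Nat.pair a.unpair.1.unpair.2 a.unpair.2) w) := by
    have h1 : Primrec (fun z : ℕ × ℕ => Nat.pair z.1.unpair.1.unpair.2 z.1.unpair.2) :=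
      Primrec₂.natPair.comp
        (Primrec.snd.comp (Primrec.unpair.comp (Primrec.fst.comp (Primrec.unpair.comp Primrec.fst))))
        (Primrec.snd.comp (Primrec.unpair.comp Primrec.fst))
    exact hR.comp h1 Primrec.snd
  obtain ⟨φ, hφ, hsat⟩ := sigma_of (F := F) (U := U) (B := B) 2 hR'
  refine ⟨1, φ, fun _ => q, hφ, fun x => ?_⟩
  rw [h x, hsat]
  have henc : ∀ d, enc 2 (fun i => rep ((Fin.snoc (fun _ : Fin 1 => q) x : Fin 2 → Mod F U B) i) d) =
      Nat.pair (Nat.pair 0 (rep q d)) (rep x d) := by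
    intro d
    rw [rep_snoc (fun _ : Fin 1 => q) x d]
    show Nat.pair (Nat.pair 0 (Fin.init (Fin.snoc (fun _ : Fin 1 => rep q d) (rep x d) :
        Fin 2 → ℕ) (Fin.last 0))) ((Fin.snoc (fun _ : Fin 1 => rep q d) (rep x d) :
        Fin 2 → ℕ) (Fin.last 1)) = _
    rw [Fin.init_snoc, Fin.snoc_last]
  simp only [henc, Nat.unpair_pair]

theorem sigmaDef_elim {S : Set (Mod F U B)} (h : SigmaDef true 1 S) : ∃ (c : ℕ) (q : Mod F U B),
    ∀ x, x ∈ S ↔ ∃ w : Mod F U B, ∀ᶠ d in (U : Filter ℕ),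
      halt (rep w d) (Nat.pair c (Nat.pair (rep q d) (rep x d))) = true := by
  obtain ⟨m, φ, p, hφ, hS⟩ := h
  obtain ⟨R, hR, hsat⟩ := sat_sigma (F := F) (U := U) (B := B) hφ
  obtain ⟨q, hq⟩ := exists_enc m p
  obtain ⟨c, hc⟩ := search (F := F) (U := U) (B := B) hR
  refine ⟨c, q, fun x => ?_⟩
  obtain ⟨z, hz⟩ := exists_pair q x
  have henc : ∀ d, enc (m + 1) (fun i => rep ((Fin.snoc p x : Fin (m + 1) → Mod F U B) i) d) =
      Nat.pair (enc m (fun i => rep (p i) d)) (rep x d) := by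
    intro d
    rw [rep_snoc p x d]
    show Nat.pair (enc m (Fin.init (Fin.snoc (fun i => rep (p i) d) (rep x d) :
        Fin (m + 1) → ℕ))) ((Fin.snoc (fun i => rep (p i) d) (rep x d) :
        Fin (m + 1) → ℕ) (Fin.last m)) = _
    rw [Fin.init_snoc, Fin.snoc_last]
  have key : ∀ᶠ d in (U : Filter ℕ),
      enc (m + 1) (fun i => rep ((Fin.snoc p x : Fin (m + 1) → Mod F U B) i) d) = rep z d := by
    filter_upwards [hz, hq] with d h1 h2
    rw [henc, h1, h2]
  rw [hS, hsat]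
  constructor
  · rintro ⟨w, hw⟩
    obtain ⟨t, ht⟩ := (hc z).2 ⟨w, by
      filter_upwards [hw, key] with d h1 h2
      rw [← h2]; exact h1⟩
    refine ⟨t, ?_⟩
    filter_upwards [ht, hz] with d h1 h2
    rw [← h2]; exact h1
  · rintro ⟨t, ht⟩
    obtain ⟨w, hw⟩ := (hc z).1 ⟨t, by
      filter_upwards [ht, hz] with d h1 h2
      rw [h2]; exact h1⟩
    refine ⟨w, ?_⟩
    filter_upwards [hw, key] with d h1 h2
    rw [h2]; exact h1

end


/-! ### part 24224 -/

section

variable {F : Set (ℕ → ℕ)} {U : Ultrafilter ℕ} {B : ℕ → ℕ → ℕ} [hA : Fact (Adm F U B)]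



theorem turing_fset_zero : fset (0 : Mod F U B) = ∅ := by
  ext x
  rw [mem_fset_iff]
  simp only [Set.mem_empty_iff_false, iff_false]
  intro h
  obtain ⟨d, h1, h2⟩ := (h.and (rep_zero (F := F) (U := U) (B := B))).exists
  rw [h2, Nat.zero_testBit] at h1
  exact absurd h1 (by simp)

theorem turing_one_ne_zero : (1 : Mod F U B) ≠ 0 := by
  intro h
  obtain ⟨d, h1, h2⟩ := ((rep_one (F := F) (U := U) (B := B)).and
    (rep_zero (F := F) (U := U) (B := B))).exists
  rw [h, h2] at h1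
  exact absurd h1 (by norm_num)

/-- decoding functions -/
def g1 (z : ℕ) : ℕ := z.unpair.1
def g2 (z : ℕ) : ℕ := z.unpair.2

theorem g1_pr : Primrec g1 := Primrec.fst.comp Primrec.unpair
theorem g2_pr : Primrec g2 := Primrec.snd.comp Primrec.unpair

theorem turing_rel {R1 R0 : ℕ → ℕ → Prop} (h1 : PrimrecRel R1) (h0 : PrimrecRel R0) :
    PrimrecRel (fun z w : ℕ => (g2 (g1 (g1 z)) = 1 ∧
        R1 (Nat.pair (g2 (g1 (g1 (g1 (g1 z))))) (g2 (g1 (g1 (g1 z))))) w) ∨
      (g2 (g1 (g1 z)) = 0 ∧ R0 (Nat.pair (g2 (g1 (g1 (g1 (g1 z)))))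
        (Nat.pair (g2 (g1 (g1 (g1 z)))) (Nat.pair (g2 (g1 z)) (g2 z)))) w)) := by
  have e0 : Primrec (fun p : ℕ × ℕ => p.1) := Primrec.fst
  have e1 : Primrec (fun p : ℕ × ℕ => g1 p.1) := g1_pr.comp e0
  have e2 : Primrec (fun p : ℕ × ℕ => g1 (g1 p.1)) := g1_pr.comp e1
  have e3 : Primrec (fun p : ℕ × ℕ => g1 (g1 (g1 p.1))) := g1_pr.comp e2
  have e4 : Primrec (fun p : ℕ × ℕ => g1 (g1 (g1 (g1 p.1)))) := g1_pr.comp e3
  have ft := g2_pr.comp e0
  have fs := g2_pr.comp e1
  have fi := g2_pr.comp e2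
  have fa := g2_pr.comp e3
  have fq := g2_pr.comp e4
  have k1 : PrimrecPred (fun p : ℕ × ℕ => g2 (g1 (g1 p.1)) = 1) :=
    Primrec.eq.comp fi (Primrec.const 1)
  have k0 : PrimrecPred (fun p : ℕ × ℕ => g2 (g1 (g1 p.1)) = 0) :=
    Primrec.eq.comp fi (Primrec.const 0)
  have l1 : PrimrecPred (fun p : ℕ × ℕ =>
      R1 (Nat.pair (g2 (g1 (g1 (g1 (g1 p.1))))) (g2 (g1 (g1 (g1 p.1))))) p.2) :=
    h1.comp (Primrec₂.natPair.comp fq fa) Primrec.snd
  have l0 : PrimrecPred (fun p : ℕ × ℕ =>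
      R0 (Nat.pair (g2 (g1 (g1 (g1 (g1 p.1)))))
        (Nat.pair (g2 (g1 (g1 (g1 p.1)))) (Nat.pair (g2 (g1 p.1)) (g2 p.1)))) p.2) :=
    h0.comp (Primrec₂.natPair.comp fq (Primrec₂.natPair.comp fa (Primrec₂.natPair.comp fs ft)))
      Primrec.snd
  exact (k1.and l1).or (k0.and l0)

theorem turing_of {X Y : Set (Mod F U B)} {R1 R0 : ℕ → ℕ → Prop} (h1 : PrimrecRel R1)
    (h0 : PrimrecRel R0) (q : Mod F U B)
    (H1 : ∀ a : Mod F U B, fset a ⊆ X ↔ ∃ w : Mod F U B, ∀ᶠ d in (U : Filter ℕ),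
      R1 (Nat.pair (rep q d) (rep a d)) (rep w d))
    (H0 : ∀ a : Mod F U B, fset a ⊆ Xᶜ ↔ ∃ s t : Mod F U B, fset s ⊆ Y ∧ fset t ⊆ Yᶜ ∧
      ∃ w : Mod F U B, ∀ᶠ d in (U : Filter ℕ),
        R0 (Nat.pair (rep q d) (Nat.pair (rep a d) (Nat.pair (rep s d) (rep t d)))) (rep w d)) :
    TuringLE true X Y := by
  classical
  obtain ⟨φ, hφ, hsat⟩ := sigma_of (F := F) (U := U) (B := B) 5 (turing_rel h1 h0)
  refine ⟨fun a i s t => (i = 1 ∧ ∃ w : Mod F U B, ∀ᶠ d in (U : Filter ℕ),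
      R1 (Nat.pair (rep q d) (rep a d)) (rep w d)) ∨ (i = 0 ∧ ∃ w : Mod F U B,
      ∀ᶠ d in (U : Filter ℕ),
        R0 (Nat.pair (rep q d) (Nat.pair (rep a d) (Nat.pair (rep s d) (rep t d)))) (rep w d)),
    ⟨1, φ, ![q], hφ, ?_⟩, ?_⟩
  · intro a i s t
    have h := hsat (Fin.append ![q] ![a, i, s, t])
    refine Iff.trans ?_ h.symm
    have henc : ∀ d, enc 5 (fun k => rep ((Fin.append ![q] ![a, i, s, t] : Fin 5 → Mod F U B) k) d) =
        Nat.pair (Nat.pair (Nat.pair (Nat.pair (Nat.pair 0 (rep q d)) (rep a d)) (rep i d)) (rep s d))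
          (rep t d) := by
      intro d
      rfl
    simp only [henc, g1, g2, Nat.unpair_pair]
    have hor : ∀ w : Mod F U B, (∀ᶠ d in (U : Filter ℕ),
        ((rep i d = 1 ∧ R1 (Nat.pair (rep q d) (rep a d)) (rep w d)) ∨
        (rep i d = 0 ∧ R0 (Nat.pair (rep q d) (Nat.pair (rep a d) (Nat.pair (rep s d) (rep t d))))
          (rep w d)))) ↔
        ((i = 1 ∧ ∀ᶠ d in (U : Filter ℕ), R1 (Nat.pair (rep q d) (rep a d)) (rep w d)) ∨
        (i = 0 ∧ ∀ᶠ d in (U : Filter ℕ),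
          R0 (Nat.pair (rep q d) (Nat.pair (rep a d) (Nat.pair (rep s d) (rep t d)))) (rep w d))) := by
      intro w
      have hi1 : (∀ᶠ d in (U : Filter ℕ), rep i d = 1) ↔ i = 1 := by
        rw [eq_iff]
        constructor
        · intro h
          filter_upwards [h, rep_one (F := F) (U := U) (B := B)] with d a b
          rw [a, b]
        · intro h
          filter_upwards [h, rep_one (F := F) (U := U) (B := B)] with d a b
          rw [a, b]
      have hi0 : (∀ᶠ d in (U : Filter ℕ), rep i d = 0) ↔ i = 0 := by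
        rw [eq_iff]
        constructor
        · intro h
          filter_upwards [h, rep_zero (F := F) (U := U) (B := B)] with d a b
          rw [a, b]
        · intro h
          filter_upwards [h, rep_zero (F := F) (U := U) (B := B)] with d a b
          rw [a, b]
      rw [Ultrafilter.eventually_or, Filter.eventually_and, Filter.eventually_and, hi1, hi0]
    simp only [hor]
    constructor
    · rintro (⟨hi, w, hw⟩ | ⟨hi, w, hw⟩)
      · exact ⟨w, Or.inl ⟨hi, hw⟩⟩
      · exact ⟨w, Or.inr ⟨hi, hw⟩⟩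
    · rintro ⟨w, (⟨hi, hw⟩ | ⟨hi, hw⟩)⟩
      · exact Or.inl ⟨hi, w, hw⟩
      · exact Or.inr ⟨hi, w, hw⟩
  · intro a
    constructor
    · rw [H1 a]
      constructor
      · rintro ⟨w, hw⟩
        exact ⟨0, 0, by rw [turing_fset_zero]; exact Set.empty_subset _,
          by rw [turing_fset_zero]; exact Set.empty_subset _, Or.inl ⟨rfl, w, hw⟩⟩
      · rintro ⟨s, t, -, -, (⟨-, w, hw⟩ | ⟨hi, -⟩)⟩
        · exact ⟨w, hw⟩
        · exact absurd hi turing_one_ne_zero
    · rw [H0 a]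
      constructor
      · rintro ⟨s, t, hs, ht, w, hw⟩
        exact ⟨s, t, hs, ht, Or.inr ⟨rfl, w, hw⟩⟩
      · rintro ⟨s, t, hs, ht, (⟨hi, -⟩ | ⟨-, w, hw⟩)⟩
        · exact absurd hi.symm turing_one_ne_zero
        · exact ⟨s, t, hs, ht, w, hw⟩

end


/-! ### part 24225 -/

section

variable {F : Set (ℕ → ℕ)} {U : Ultrafilter ℕ} {B : ℕ → ℕ → ℕ} [hA : Fact (Adm F U B)]



theorem enc_four (m : ℕ) (v : Fin (m + 4) → ℕ) : enc (m + 4) v =
    Nat.pair (Nat.pair (Nat.pair (Nat.pair (enc m (fun i => v (Fin.castAdd 4 i)))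
      (v (Fin.natAdd m 0))) (v (Fin.natAdd m 1))) (v (Fin.natAdd m 2))) (v (Fin.natAdd m 3)) := rfl

/-- the rearrangement -/
def arr (z : ℕ) : ℕ :=
  Nat.pair (Nat.pair (Nat.pair (Nat.pair z.unpair.1 z.unpair.2.unpair.1) 0)
    z.unpair.2.unpair.2.unpair.1) z.unpair.2.unpair.2.unpair.2

theorem arr_primrec : Primrec arr := by
  have h1 : Primrec (fun z : ℕ => z.unpair.1) := Primrec.fst.comp Primrec.unpair
  have h2 : Primrec (fun z : ℕ => z.unpair.2) := Primrec.snd.comp Primrec.unpair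
  have h3 : Primrec (fun z : ℕ => z.unpair.2.unpair.1) := h1.comp h2
  have h4 : Primrec (fun z : ℕ => z.unpair.2.unpair.2.unpair.1) := h3.comp h2
  have h5 : Primrec (fun z : ℕ => z.unpair.2.unpair.2.unpair.2) := (h2.comp h2).comp h2
  exact Primrec₂.natPair.comp (Primrec₂.natPair.comp (Primrec₂.natPair.comp
    (Primrec₂.natPair.comp h1 h3) (Primrec.const 0)) h4) h5


theorem turing_elim {X Y : Set (Mod F U B)} (h : TuringLE true X Y) : ∃ (c : ℕ) (q : Mod F U B),
    ∀ a : Mod F U B, fset a ⊆ Xᶜ ↔ ∃ s t : Mod F U B, fset s ⊆ Y ∧ fset t ⊆ Yᶜ ∧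
      ∃ w : Mod F U B, ∀ᶠ d in (U : Filter ℕ),
        halt (rep w d) (Nat.pair c (Nat.pair (rep q d)
          (Nat.pair (rep a d) (Nat.pair (rep s d) (rep t d))))) = true := by
  obtain ⟨W, ⟨m, φ, p, hφ, hW⟩, hX⟩ := h
  obtain ⟨R, hR, hsat⟩ := sat_sigma (F := F) (U := U) (B := B) hφ
  obtain ⟨q, hq⟩ := exists_enc m p
  have hR' : PrimrecRel (fun z w : ℕ => R (arr z) w) :=
    hR.comp (arr_primrec.comp Primrec.fst) Primrec.snd
  obtain ⟨c, hc⟩ := search (F := F) (U := U) (B := B) hR'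
  refine ⟨c, q, fun a => ?_⟩
  rw [(hX a).2]
  refine exists_congr fun s => exists_congr fun t => and_congr Iff.rfl (and_congr Iff.rfl ?_)
  obtain ⟨x1, hx1⟩ := exists_pair s t
  obtain ⟨x2, hx2⟩ := exists_pair a x1
  obtain ⟨x, hx3⟩ := exists_pair q x2
  have hx : ∀ᶠ d in (U : Filter ℕ), rep x d = Nat.pair (rep q d)
      (Nat.pair (rep a d) (Nat.pair (rep s d) (rep t d))) := by
    filter_upwards [hx1, hx2, hx3] with d h1 h2 h3
    rw [h3, h2, h1]
  rw [hW, hsat]
  have h1 : (∃ w : Mod F U B, ∀ᶠ d in (U : Filter ℕ),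
      halt (rep w d) (Nat.pair c (Nat.pair (rep q d)
          (Nat.pair (rep a d) (Nat.pair (rep s d) (rep t d))))) = true) ↔
      ∃ w : Mod F U B, ∀ᶠ d in (U : Filter ℕ),
        halt (rep w d) (Nat.pair c (rep x d)) = true :=
    exists_congr fun w => Filter.eventually_congr (hx.mono fun d hd => by rw [hd])
  rw [h1, hc x]
  refine exists_congr fun w => Filter.eventually_congr ?_
  filter_upwards [hx, hq, rep_zero (F := F) (U := U) (B := B)] with d h1 h2 h3
  have h4 : enc (m + 4) (fun i => rep (Fin.append p ![a, 0, s, t] i) d) = arr (rep x d) := by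
    rw [rep_append, enc_four]
    simp only [Fin.append_left, Fin.append_right]
    rw [← h2, h1, arr]
    simp [h3]
  rw [h4]

end


end Pool.Agent.Helper317.Sacks
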