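import Pool.Agent.Helper317.Sacks.CoreDefs
import Pool.Agent.Helper317.Sacks.Sig

/-!
Basic facts on the model.
-/

namespace Pool.Agent.Helper317.Sacks

open FirstOrder FirstOrder.Language Filter
open Pool.Agent.Helper626
open Nat.Partrec (Code)


/-! ### part 24483 -/

section

variable {F : Set (ℕ → ℕ)} {U : Ultrafilter ℕ} {P : ℕ → ℕ} {u s : ℕ → ℕ → ℕ}

theorem Ctx.X_mem (h : Ctx F U P u s) {f : ℕ → ℕ} (hf : f ∈ F) : (fun d => X (P d) (f d)) ∈ F := by
  have h1 := h.pick RX (by simp [RR]) (fun d => Nat.pair (P d) (f d)) (h.pair P h.Pmem f hf)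
  have h2 : (fun d => Sacks.pick RX (Nat.pair (P d) (f d))) = fun d => X (P d) (f d) := by
    funext d
    have h3 : RX (Nat.pair (P d) (f d)) (Sacks.pick RX (Nat.pair (P d) (f d))) :=
      pick_spec ⟨X (P d) (f d), by unfold RX; rw [Nat.unpair_pair]⟩
    unfold RX at h3
    rw [Nat.unpair_pair] at h3
    exact h3
  rw [← h2]
  exact h1

theorem Ctx.u_mono (h : Ctx F U P u s) {i j : ℕ} (hij : i ≤ j) :
    ∀ᶠ d in (U : Filter ℕ), u i d ≤ u j d := by
  induction hij with
  | refl => exact Eventually.of_forall fun d => le_rfl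
  | @step j _ ih =>
    filter_upwards [ih, h.nest j] with d h1 h2
    exact h1.trans h2.1.le

theorem Ctx.u_lt_e (h : Ctx F U P u s) (i j : ℕ) :
    ∀ᶠ d in (U : Filter ℕ), u i d < u j d + 2 ^ (s j d) := by
  rcases le_total i j with hij | hij
  · filter_upwards [h.u_mono hij] with d h1
    have := Nat.two_pow_pos (s j d)
    omega
  · have key : ∀ᶠ d in (U : Filter ℕ), u i d + 2 ^ (s i d) ≤ u j d + 2 ^ (s j d) := by
      induction hij with
      | refl => exact Eventually.of_forall fun d => le_rfl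
      | @step i _ ih =>
        filter_upwards [ih, h.nest i] with d h1 h2
        exact h2.2.trans h1
    filter_upwards [key] with d h1
    have := Nat.two_pow_pos (s i d)
    omega

theorem Ctx.adm (h : Ctx F U P u s) : Adm F U (BB P u) := by
  refine ⟨h.const, h.pair, h.comp, fun j => h.X_mem (h.umem j), fun j => ?_, fun g hg j => ?_⟩
  · filter_upwards [h.nest j] with d hd
    exact (X_strictMono (h.good d)).monotone hd.1.le
  · refine ⟨j + 1, ?_⟩
    obtain ⟨c, hc⟩ := Code.exists_code.1 (Partrec.nat_iff.1 hg)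
    have htot : ∀ n, (c.eval n).Dom := by
      intro n
      rw [hc]
      trivial
    filter_upwards [h.tot c htot, h.nest j] with d h1 h2 n hn
    obtain ⟨y, hy, hy'⟩ := X_grow (h.good d) (u j d) (Encodable.encode c) h1 n hn
    rw [Denumerable.ofNat_encode] at hy'
    have h3 : y ∈ c.eval n := Code.evaln_sound (by rw [hy']; rfl)
    rw [hc] at h3
    have h4 : y = g n := Part.mem_some_iff.1 h3
    rw [← h4]
    have h5 : X (P d) (u j d + 1) ≤ X (P d) (u (j + 1) d) :=
      (X_strictMono (h.good d)).monotone h2.1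
    exact (hy.trans_le h5).le

theorem Ctx.ini_u (h : Ctx F U P u s) (j : ℕ) : Ini U u (u j) := by
  refine ⟨j + 1, ?_⟩
  filter_upwards [h.nest j] with d hd
  exact hd.1

theorem Ctx.ini_succ (h : Ctx F U P u s) {f : ℕ → ℕ} (hf : Ini U u f) :
    Ini U u (fun d => f d + 1) := by
  obtain ⟨j, hj⟩ := hf
  refine ⟨j + 1, ?_⟩
  filter_upwards [hj, h.nest j] with d h1 h2
  omega

theorem Ini.of_le {f g : ℕ → ℕ} (hf : Ini U u f) (hg : ∀ᶠ d in (U : Filter ℕ), g d ≤ f d) :
    Ini U u g := by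
  obtain ⟨j, hj⟩ := hf
  refine ⟨j, ?_⟩
  filter_upwards [hj, hg] with d h1 h2
  omega

theorem Ctx.not_ini_iff (h : Ctx F U P u s) {f : ℕ → ℕ} (hf : f ∈ F) :
    ¬ Ini U u f ↔ ∃ j, ∀ᶠ d in (U : Filter ℕ), u j d + 2 ^ (s j d) ≤ f d := by
  constructor
  · intro hI
    exact (h.gap f hf).resolve_left hI
  · rintro ⟨j, hj⟩ ⟨i, hi⟩
    obtain ⟨d, ⟨h1, h2⟩, h3⟩ := ((hj.and hi).and (h.u_lt_e i j)).exists
    omega

theorem Ctx.u_le_of_not_ini (h : Ctx F U P u s) {f : ℕ → ℕ} (hf : ¬ Ini U u f) (j : ℕ) :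
    ∀ᶠ d in (U : Filter ℕ), u j d ≤ f d := by
  by_contra hcon
  apply hf
  refine ⟨j, ?_⟩
  rw [← Ultrafilter.eventually_not] at hcon
  filter_upwards [hcon] with d hd
  omega

theorem Ctx.pre_X (h : Ctx F U P u s) {f : ℕ → ℕ} (hf : f ∈ F) (hI : Ini U u f) :
    IsPre F U (BB P u) (fun d => X (P d) (f d)) := by
  obtain ⟨j, hj⟩ := hI
  refine ⟨h.X_mem hf, j, ?_⟩
  filter_upwards [hj] with d hd
  exact (X_strictMono (h.good d)).monotone hd.le

theorem Ctx.lt_X (h : Ctx F U P u s) {f m : ℕ → ℕ} (hI : ¬ Ini U u f)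
    (hm : IsPre F U (BB P u) m) : ∀ᶠ d in (U : Filter ℕ), m d < X (P d) (f d) := by
  obtain ⟨k, hk⟩ := hm.2
  filter_upwards [hk, h.nest k, h.u_le_of_not_ini hI (k + 1)] with d h1 h2 h3
  refine lt_of_le_of_lt h1 ?_
  exact X_strictMono (h.good d) (h2.1.trans_le h3)

theorem Ctx.lt_X_u (h : Ctx F U P u s) {m : ℕ → ℕ} (hm : IsPre F U (BB P u) m) :
    ∃ j, ∀ᶠ d in (U : Filter ℕ), m d < X (P d) (u j d) := by
  obtain ⟨k, hk⟩ := hm.2
  refine ⟨k + 1, ?_⟩
  filter_upwards [hk, h.nest k] with d h1 h2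
  exact lt_of_le_of_lt h1 (X_strictMono (h.good d) h2.1)

variable [hA : Fact (Adm F U (BB P u))]


end


/-! ### part 24484 -/

section

variable {F : Set (ℕ → ℕ)} {U : Ultrafilter ℕ} {P : ℕ → ℕ} {u s : ℕ → ℕ → ℕ}













variable [hA : Fact (Adm F U (BB P u))]

theorem Ctx.quiet (h : Ctx F U P u s) (b : Mod F U (BB P u)) :
    ∃ j, ∀ z : Mod F U (BB P u), (∀ᶠ d in (U : Filter ℕ), rep z d ≤ rep b d) →
      (∃ t : Mod F U (BB P u), ∀ᶠ d in (U : Filter ℕ), halt (rep t d) (rep z d) = true) →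
      ∀ᶠ d in (U : Filter ℕ), halt (X (P d) (u j d)) (rep z d) = true := by
  classical
  obtain ⟨i, hi⟩ := h.lt_X_u (rep_pre b)
  refine ⟨i + 1, ?_⟩
  rintro z hz ⟨t, ht⟩
  obtain ⟨k, hk⟩ := (rep_pre t).2
  filter_upwards [hi, hz, ht, hk, h.u_lt_e k (i + 1), h.pos (i + 1), h.nest i] with
    d h1 h2 h3 h4 h5 h6 h7
  by_contra hcon
  have hcon' : halt (X (P d) (u (i + 1) d)) (rep z d) = false := by simpa using hcon
  have hex : ∃ t', halt t' (rep z d) = true := ⟨_, h3⟩
  obtain ⟨t', ht'⟩ : ∃ t', t' = Nat.find hex := ⟨_, rfl⟩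
  have ht'1 : halt t' (rep z d) = true := by rw [ht']; exact Nat.find_spec hex
  have ht'2 : t' ≤ rep t d := by rw [ht']; exact Nat.find_min' hex h3
  have ht'3 : X (P d) (u (i + 1) d) < t' := by
    by_contra hle
    have := halt_mono (not_lt.1 hle) ht'1
    rw [hcon'] at this
    exact absurd this (by simp)
  have ht'4 : halt (t' - 1) (rep z d) = false := by
    have : ¬ halt (t' - 1) (rep z d) = true :=
      Nat.find_min hex (show t' - 1 < Nat.find hex by omega)
    simpa using this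
  have hev : ev t' (X (P d) (u (i + 1) d - 1)) := by
    refine ⟨rep z d, ?_, ht'1, ht'4⟩
    have e1 : X (P d) (u i d) ≤ X (P d) (u (i + 1) d - 1) :=
      (X_strictMono (h.good d)).monotone (by omega)
    omega
  refine X_quiet (h.good d) h6.1 h6.2 ht'3 ?_ hev
  have e2 : X (P d) (u k d) ≤ X (P d) (u (i + 1) d + 2 ^ (s (i + 1) d) - 1) :=
    (X_strictMono (h.good d)).monotone (by omega)
  have h4' : rep t d ≤ X (P d) (u k d) := h4
  omega


end


/-! ### part 24485 -/

section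

variable {F : Set (ℕ → ℕ)} {U : Ultrafilter ℕ} {P : ℕ → ℕ} {u s : ℕ → ℕ → ℕ}













variable [hA : Fact (Adm F U (BB P u))]

theorem Ctx.mem_AS_of_not_ini (h : Ctx F U P u s) {z : Mod F U (BB P u)}
    (hI : ¬ Ini U u (fun d => (rep z d).unpair.1)) : z ∈ AS F U P u := by
  have hm : IsPre F U (BB P u) (fun d => (rep z d).unpair.2) :=
    (rep_pre z).comp (Computable.snd.comp Computable.unpair)
  obtain ⟨j, hj⟩ := h.lt_X_u hm
  obtain ⟨t, ht⟩ := exists_rep _ (h.pre_X (h.umem j) (h.ini_u j))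
  refine ⟨t, ?_⟩
  filter_upwards [hj, ht, h.u_le_of_not_ini hI j] with d h1 h2 h3
  rw [h2, len_X (h.good d)]
  exact ⟨h1.le, h3⟩

theorem Ctx.mem_AS_iff (h : Ctx F U P u s) (z : Mod F U (BB P u)) :
    z ∈ AS F U P u ↔ ∀ᶠ d in (U : Filter ℕ), AN (P d) (rep z d) := by
  constructor
  · rintro ⟨t, ht⟩
    filter_upwards [ht] with d hd
    exact hd.1.trans (P3_le_X (h.good d) hd.2)
  · intro hz
    by_cases hI : Ini U u (fun d => (rep z d).unpair.1)
    · have hf : (fun d => (rep z d).unpair.1) ∈ F :=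
        ((rep_pre z).comp (Computable.fst.comp Computable.unpair)).1
      obtain ⟨t, ht⟩ := exists_rep _ (h.pre_X hf hI)
      refine ⟨t, ?_⟩
      filter_upwards [hz, ht] with d h1 h2
      rw [h2, len_X (h.good d)]
      exact ⟨h1, le_rfl⟩
    · exact h.mem_AS_of_not_ini hI

theorem Ctx.ini_of_not_mem_AS (h : Ctx F U P u s) {z : Mod F U (BB P u)} (hz : z ∉ AS F U P u) :
    Ini U u (fun d => (rep z d).unpair.1) := by
  by_contra hI
  exact hz (h.mem_AS_of_not_ini hI)


end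


/-! ### part 24486 -/

section

variable {F : Set (ℕ → ℕ)} {U : Ultrafilter ℕ} {P : ℕ → ℕ} {u s : ℕ → ℕ → ℕ}













variable [hA : Fact (Adm F U (BB P u))]



/-- one half of both statements -/
theorem fset_sub_aux (h : Ctx F U P u s) (R : ℕ → ℕ → Prop) (hR : R ∈ RR) (q : ℕ → ℕ → Prop)
    (hRq : ∀ n w, R n w ↔ (Nat.testBit n.unpair.2 w = true ∧ ¬ q n.unpair.1 w))
    (a : Mod F U (BB P u))
    (hsub : ∀ x ∈ fset a, ∀ᶠ d in (U : Filter ℕ), q (P d) (rep x d)) :
    ∀ᶠ d in (U : Filter ℕ), ∀ z, Nat.testBit (rep a d) z = true → q (P d) z := by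
  by_contra hcon
  have h1 : ∀ᶠ d in (U : Filter ℕ), ¬ ∀ z, Nat.testBit (rep a d) z = true → q (P d) z :=
    Ultrafilter.eventually_not.mpr hcon
  have hF : (fun d => pick R (Nat.pair (P d) (rep a d))) ∈ F :=
    h.pick R hR _ (h.pair P h.Pmem (rep a) (rep_pre a).1)
  have h2 : ∀ᶠ d in (U : Filter ℕ),
      Nat.testBit (rep a d) (pick R (Nat.pair (P d) (rep a d))) = true ∧
        ¬ q (P d) (pick R (Nat.pair (P d) (rep a d))) := by
    filter_upwards [h1] with d hd
    push Not at hd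
    obtain ⟨z, hz1, hz2⟩ := hd
    have h3 := pick_spec (R := R) (n := Nat.pair (P d) (rep a d))
      ⟨z, (hRq _ _).mpr (by rw [Nat.unpair_pair]; exact ⟨hz1, hz2⟩)⟩
    rw [hRq, Nat.unpair_pair] at h3
    exact h3
  have h3 : IsPre F U (BB P u) (fun d => pick R (Nat.pair (P d) (rep a d))) := by
    refine (rep_pre a).of_le hF ?_
    filter_upwards [h2] with d hd
    have h4 := Nat.ge_two_pow_of_testBit hd.1
    have h5 := Nat.lt_two_pow_self (n := pick R (Nat.pair (P d) (rep a d)))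
    omega
  obtain ⟨x, hx⟩ := exists_rep _ h3
  have h4 : x ∈ fset a := by
    rw [mem_fset_iff]
    filter_upwards [h2, hx] with d hd1 hd2
    rw [hd2]
    exact hd1.1
  have h5 := hsub x h4
  obtain ⟨d, hd1, hd2, hd3⟩ := (h2.and (hx.and h5)).exists
  rw [hd2] at hd3
  exact hd1.2 hd3

theorem Ctx.fset_sub_AS (h : Ctx F U P u s) (a : Mod F U (BB P u)) :
    fset a ⊆ AS F U P u ↔ ∀ᶠ d in (U : Filter ℕ), ∀ z, Nat.testBit (rep a d) z = true → AN (P d) z := by
  constructor
  · intro hsub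
    refine fset_sub_aux h Rout (by simp [RR]) AN (fun n w => Iff.rfl) a ?_
    intro x hx
    exact (h.mem_AS_iff x).mp (hsub hx)
  · intro h1 x hx
    rw [h.mem_AS_iff]
    rw [mem_fset_iff] at hx
    filter_upwards [h1, hx] with d hd1 hd2
    exact hd1 _ hd2

theorem Ctx.fset_sub_ASc (h : Ctx F U P u s) (a : Mod F U (BB P u)) :
    fset a ⊆ (AS F U P u)ᶜ ↔
      ∀ᶠ d in (U : Filter ℕ), ∀ z, Nat.testBit (rep a d) z = true → ¬ AN (P d) z := by
  constructor
  · intro hsub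
    refine fset_sub_aux h Rin (by simp [RR]) (fun p z => ¬ AN p z)
      (fun n w => by rw [not_not]; rfl) a ?_
    intro x hx
    have h1 : ¬ ∀ᶠ d in (U : Filter ℕ), AN (P d) (rep x d) :=
      fun h2 => hsub hx ((h.mem_AS_iff x).mpr h2)
    exact Ultrafilter.eventually_not.mpr h1
  · intro h1 x hx hxA
    rw [h.mem_AS_iff] at hxA
    rw [mem_fset_iff] at hx
    obtain ⟨d, hd1, hd2, hd3⟩ := (h1.and (hx.and hxA)).exists
    exact hd1 _ hd2 hd3


end


/-! ### part 24487 -/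

section

variable {F : Set (ℕ → ℕ)} {U : Ultrafilter ℕ} {P : ℕ → ℕ} {u s : ℕ → ℕ → ℕ}













variable [hA : Fact (Adm F U (BB P u))]

theorem Ctx.AS_sigma (h : Ctx F U P u s) : SigmaDef true 1 (AS F U P u) := by
  have hP : IsPre F U (BB P u) P := by
    refine ⟨h.Pmem, 0, Eventually.of_forall fun d => ?_⟩
    exact (lt_X_zero (h.good d)).le.trans ((X_strictMono (h.good d)).monotone (Nat.zero_le _))
  obtain ⟨q, hq⟩ := exists_rep P hP
  have hR : PrimrecRel (fun a t : ℕ =>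
      a.unpair.2.unpair.2 ≤ t ∧ len a.unpair.1 t ≤ a.unpair.2.unpair.1) := by
    have h1 : PrimrecPred (fun z : ℕ × ℕ => z.1.unpair.2.unpair.2 ≤ z.2) :=
      Primrec.nat_le.comp (Primrec.snd.comp (Primrec.unpair.comp
        (Primrec.snd.comp (Primrec.unpair.comp Primrec.fst)))) Primrec.snd
    have h2 : PrimrecPred (fun z : ℕ × ℕ => len z.1.unpair.1 z.2 ≤ z.1.unpair.2.unpair.1) :=
      Primrec.nat_le.comp
        (len_primrec.comp (Primrec.fst.comp (Primrec.unpair.comp Primrec.fst)) Primrec.snd)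
        (Primrec.fst.comp (Primrec.unpair.comp
          (Primrec.snd.comp (Primrec.unpair.comp Primrec.fst))))
    exact h1.and h2
  refine sigmaDef_of hR q fun x => ?_
  constructor
  · rintro ⟨t, ht⟩
    refine ⟨t, ?_⟩
    filter_upwards [ht, hq] with d h1 h2
    simp only [Nat.unpair_pair, h2]
    exact h1
  · rintro ⟨t, ht⟩
    refine ⟨t, ?_⟩
    filter_upwards [ht, hq] with d h1 h2
    simp only [Nat.unpair_pair, h2] at h1
    exact h1

theorem Ctx.KS_sigma (h : Ctx F U P u s) : SigmaDef true 1 (KS F U P u) := by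
  obtain ⟨q, hq⟩ := exists_const (F := F) (U := U) (B := BB P u) 0
  have hR : PrimrecRel (fun a t : ℕ => halt t a.unpair.2 = true) := by
    have h1 : Primrec (fun z : ℕ × ℕ => halt z.2 z.1.unpair.2) :=
      halt_primrec.comp Primrec.snd (Primrec.snd.comp (Primrec.unpair.comp Primrec.fst))
    exact Primrec.eq.comp h1 (Primrec.const true)
  refine sigmaDef_of hR q fun x => ?_
  constructor
  · rintro ⟨t, ht⟩
    refine ⟨t, ?_⟩
    filter_upwards [ht] with d h1
    simp only [Nat.unpair_pair]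
    exact h1
  · rintro ⟨t, ht⟩
    refine ⟨t, ?_⟩
    filter_upwards [ht] with d h1
    simp only [Nat.unpair_pair] at h1
    exact h1


end


/-! ### part 24488 -/

section

variable {F : Set (ℕ → ℕ)} {U : Ultrafilter ℕ} {P : ℕ → ℕ} {u s : ℕ → ℕ → ℕ}













variable [hA : Fact (Adm F U (BB P u))]


omit hA in
theorem k6_testBit : PrimrecPred fun p : ℕ × ℕ => Nat.testBit p.1 p.2 = true := by
  refine (Primrec.eq.comp (Primrec.nat_mod.comp (Primrec.nat_div.comp Primrec.fst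
    (aux_pow.comp (Primrec.const 2) Primrec.snd)) (Primrec.const 2)) (Primrec.const 1)).of_eq ?_
  intro p
  rw [Nat.testBit_eq_decide_div_mod_eq, decide_eq_true_eq]

omit hA in
theorem k6_rel (π : ℕ → ℕ → ℕ) (hπ : Primrec₂ π) : PrimrecRel (fun (n z : ℕ) =>
    z < n.unpair.2.unpair.2 ∧ Nat.testBit n.unpair.2.unpair.2 z = true ∧
      halt n.unpair.1 (π n.unpair.2.unpair.1 z) = false) := by
  have e1 : Primrec fun p : ℕ × ℕ => p.1.unpair.1 :=
    Primrec.fst.comp (Primrec.unpair.comp Primrec.fst)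
  have e2 : Primrec fun p : ℕ × ℕ => p.1.unpair.2.unpair.1 :=
    Primrec.fst.comp (Primrec.unpair.comp (Primrec.snd.comp (Primrec.unpair.comp Primrec.fst)))
  have e3 : Primrec fun p : ℕ × ℕ => p.1.unpair.2.unpair.2 :=
    Primrec.snd.comp (Primrec.unpair.comp (Primrec.snd.comp (Primrec.unpair.comp Primrec.fst)))
  have h1 : PrimrecPred fun p : ℕ × ℕ => p.2 < p.1.unpair.2.unpair.2 :=
    Primrec.nat_lt.comp Primrec.snd e3
  have h2 : PrimrecPred fun p : ℕ × ℕ => Nat.testBit p.1.unpair.2.unpair.2 p.2 = true :=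
    k6_testBit.comp (Primrec.pair e3 Primrec.snd)
  have h3 : PrimrecPred fun p : ℕ × ℕ =>
      halt p.1.unpair.1 (π p.1.unpair.2.unpair.1 p.2) = false :=
    Primrec.eq.comp (halt_primrec.comp e1 (hπ.comp e2 Primrec.snd)) (Primrec.const false)
  exact h1.and (h2.and h3)

omit hA in
theorem k6_comp (π : ℕ → ℕ → ℕ) (hπ : Primrec₂ π) : Computable (fun n : ℕ =>
    Nat.findGreatest (fun z => z < n.unpair.2.unpair.2 ∧ Nat.testBit n.unpair.2.unpair.2 z = true ∧
      halt n.unpair.1 (π n.unpair.2.unpair.1 z) = false) n.unpair.2.unpair.2) :=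
  (Primrec.nat_findGreatest (Primrec.snd.comp (Primrec.unpair.comp
    (Primrec.snd.comp Primrec.unpair))) (k6_rel π hπ)).to_comp

theorem k6_gen (h : Ctx F U P u s) (π : ℕ → ℕ → ℕ) (hπ : Primrec₂ π)
    (hmono : ∀ q z z' : ℕ, z ≤ z' → π q z ≤ π q z') (q a : Mod F U (BB P u)) :
    (∀ x ∈ fset a, ∃ t : Mod F U (BB P u), ∀ᶠ d in (U : Filter ℕ),
      halt (rep t d) (π (rep q d) (rep x d)) = true) ↔
    ∃ w : Mod F U (BB P u), ∀ᶠ d in (U : Filter ℕ),
      ∀ z < rep a d, Nat.testBit (rep a d) z = true → halt (rep w d) (π (rep q d) z) = true := by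
  constructor
  · intro hx
    obtain ⟨b, hb⟩ := exists_comp₂ q a hπ.to_comp
    obtain ⟨j, hj⟩ := h.quiet b
    obtain ⟨w, hw⟩ := exists_rep _ (h.pre_X (h.umem j) (h.ini_u j))
    refine ⟨w, ?_⟩
    by_contra hcon
    rw [← Ultrafilter.eventually_not] at hcon
    obtain ⟨p1, hp1⟩ := exists_pair q a
    obtain ⟨p2, hp2⟩ := exists_pair w p1
    obtain ⟨z, hz⟩ := exists_comp p2 (k6_comp π hπ)
    have hz2 : ∀ᶠ d in (U : Filter ℕ), rep z d < rep a d ∧ Nat.testBit (rep a d) (rep z d) = true ∧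
        halt (rep w d) (π (rep q d) (rep z d)) = false := by
      filter_upwards [hcon, hp1, hp2, hz] with d h1 h2 h3 h4
      rw [h3, h2] at h4
      simp only [Nat.unpair_pair] at h4
      push Not at h1
      obtain ⟨y, hy1, hy2, hy3⟩ := h1
      have h6 := Nat.findGreatest_spec (P := fun z => z < rep a d ∧
        Nat.testBit (rep a d) z = true ∧ halt (rep w d) (π (rep q d) z) = false) hy1.le
        ⟨hy1, hy2, by simpa using hy3⟩
      rw [h4]
      exact h6
    have hzf : z ∈ fset a := by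
      rw [mem_fset_iff]
      filter_upwards [hz2] with d hd
      exact hd.2.1
    obtain ⟨t, ht⟩ := hx z hzf
    obtain ⟨y, hy⟩ := exists_comp₂ q z hπ.to_comp
    have hyb : ∀ᶠ d in (U : Filter ℕ), rep y d ≤ rep b d := by
      filter_upwards [hy, hb, hz2] with d h1 h2 h3
      rw [h1, h2]
      exact hmono _ _ _ h3.1.le
    have hfin := hj y hyb ⟨t, by
      filter_upwards [hy, ht] with d h1 h2
      rw [h1]
      exact h2⟩
    obtain ⟨d, ⟨h1, h2⟩, h3, h4⟩ := ((hfin.and hw).and (hy.and hz2)).exists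
    rw [h3, ← h2] at h1
    rw [h4.2.2] at h1
    exact Bool.false_ne_true h1
  · rintro ⟨w, hw⟩ x hx
    rw [mem_fset_iff] at hx
    refine ⟨w, ?_⟩
    filter_upwards [hw, hx] with d h1 h2
    exact h1 _ (lt_of_lt_of_le (Nat.lt_two_pow_self) (Nat.ge_two_pow_of_testBit h2)) h2

theorem Ctx.fset_sub_WS (h : Ctx F U P u s) (c : ℕ) (q a : Mod F U (BB P u)) :
    fset a ⊆ WS F U P u c q ↔ ∃ w : Mod F U (BB P u), ∀ᶠ d in (U : Filter ℕ),
      ∀ z < rep a d, Nat.testBit (rep a d) z = true →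
        halt (rep w d) (Nat.pair c (Nat.pair (rep q d) z)) = true := by
  have hpi : Primrec₂ (fun q z : ℕ => Nat.pair c (Nat.pair q z)) :=
    Primrec₂.natPair.comp₂ (Primrec₂.const c) Primrec₂.natPair
  refine k6_gen h (fun q z => Nat.pair c (Nat.pair q z)) hpi (fun q z z' hz => ?_) q a
  rcases hz.eq_or_lt with rfl | hlt
  · exact le_rfl
  · exact (Nat.pair_lt_pair_right c (Nat.pair_lt_pair_right q hlt)).le

theorem Ctx.fset_sub_KS (h : Ctx F U P u s) (a : Mod F U (BB P u)) :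
    fset a ⊆ KS F U P u ↔ ∃ w : Mod F U (BB P u), ∀ᶠ d in (U : Filter ℕ),
      ∀ z < rep a d, Nat.testBit (rep a d) z = true → halt (rep w d) z = true := by
  exact k6_gen h (fun _ z => z) Primrec₂.right (fun _ z z' hz => hz) a a


end


end Pool.Agent.Helper317.Sacks
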