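import Pool.Agent.Helper317.Sacks.CaseDefs
import Pool.Agent.Helper317.Sacks.Core1

/-!
Tables, true stages, induction.
-/

namespace Pool.Agent.Helper317.Sacks

open FirstOrder FirstOrder.Language Filter
open Pool.Agent.Helper626
open Nat.Partrec (Code)


/-! ### part 25012 -/

section

variable {F : Set (ℕ → ℕ)} {U : Ultrafilter ℕ} {P : ℕ → ℕ} {u s : ℕ → ℕ → ℕ}

theorem RCase_aux_imp {α : Type*} [Primcodable α] {p q : α → Prop} (hp : PrimrecPred p)
    (hq : PrimrecPred q) : PrimrecPred fun a => p a → q a :=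
  (hp.not.or hq).of_eq fun _ => imp_iff_not_or.symm

theorem RCase_aux_testBit {α : Type*} [Primcodable α] {a z : α → ℕ} (ha : Primrec a)
    (hz : Primrec z) : PrimrecPred fun x => Nat.testBit (a x) (z x) = true := by
  refine (Primrec.eq.comp (Primrec.nat_mod.comp (Primrec.nat_div.comp ha
    (aux_pow.comp (Primrec.const 2) hz)) (Primrec.const 2)) (Primrec.const 1)).of_eq ?_
  intro x
  rw [Nat.testBit_eq_decide_div_mod_eq, decide_eq_true_iff]

theorem RCase_aux_halt {α : Type*} [Primcodable α] {s z : α → ℕ} (hs : Primrec s)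
    (hz : Primrec z) (b : Bool) : PrimrecPred fun x => halt (s x) (z x) = b :=
  Primrec.eq.comp (halt_primrec.comp hs hz) (Primrec.const b)

theorem RCase_aux_cert {α : Type*} [Primcodable α] {P κ r x t : α → ℕ} (hP : Primrec P)
    (hκ : Primrec κ) (hr : Primrec r) (hx : Primrec x) (ht : Primrec t) :
    PrimrecPred fun a => Cert (P a) (κ a) (r a) (x a) (t a) := by
  refine PrimrecPred.and (Primrec.nat_le.comp hx ht) (PrimrecPred.and
    (Primrec.nat_le.comp (len_primrec.comp hP ht) hr) ?_)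
  exact RCase_aux_testBit hκ (Primrec₂.natPair.comp hr (Primrec.succ.comp hx))

theorem RCase_aux_sub {α : Type*} [Primcodable α] {f g : α → ℕ} (hf : Primrec f)
    (hg : Primrec g) : PrimrecPred fun a => Sub (f a) (g a) := by
  refine aux_all_lt (α := α)
    (R := fun z a => Nat.testBit (f a) z = true → Nat.testBit (g a) z = true) ?_ hf
  exact RCase_aux_imp (RCase_aux_testBit (hf.comp Primrec.snd) Primrec.fst)
    (RCase_aux_testBit (hg.comp Primrec.snd) Primrec.fst)

theorem RCase_aux_tab {α : Type*} [Primcodable α] {w i : α → ℕ} (hw : Primrec w)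
    (hi : Primrec i) : Primrec fun a => tab (w a) (i a) :=
  (Primrec.list_getD 0).comp ((Primrec.ofNat (List ℕ)).comp hw) hi

theorem RCase_aux_prog {α : Type*} [Primcodable α] {c q z : α → ℕ} (hc : Primrec c)
    (hq : Primrec q) (hz : Primrec z) :
    Primrec fun a => Nat.pair (c a) (Nat.pair (q a) (z a)) :=
  Primrec₂.natPair.comp hc (Primrec₂.natPair.comp hq hz)

theorem RCase_aux_bfun {α : Type*} [Primcodable α] {c q x x' : α → ℕ} (hc : Primrec c)
    (hq : Primrec q) (hx : Primrec x) (hx' : Primrec x') :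
    Primrec fun a => bfun (c a) (q a) (x a) (x' a) := by
  unfold bfun
  refine Primrec.list_findIdx (Primrec.list_range.comp hx) ?_
  have hp : Primrec fun p : α × ℕ => Nat.pair (c p.1) (Nat.pair (q p.1) p.2) :=
    RCase_aux_prog (hc.comp Primrec.fst) (hq.comp Primrec.fst) Primrec.snd
  exact Primrec.and.comp (halt_primrec.comp (hx'.comp Primrec.fst) hp)
    (Primrec.not.comp (halt_primrec.comp (hx.comp Primrec.fst) hp))

theorem RCase_aux_case2 {α : Type*} [Primcodable α] {c q P yt ej a τ r x t x' t' : α → ℕ}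
    (hc : Primrec c) (hq : Primrec q) (hP : Primrec P) (hyt : Primrec yt) (hej : Primrec ej)
    (ha : Primrec a) (hτ : Primrec τ) (hr : Primrec r) (hx : Primrec x) (ht : Primrec t)
    (hx' : Primrec x') (ht' : Primrec t') :
    PrimrecPred fun i => Case2 (c i) (q i) (P i) (yt i) (ej i) (a i) (τ i) (r i) (x i) (t i)
      (x' i) (t' i) := by
  refine PrimrecPred.and (RCase_aux_cert hP hτ hr hx ht) (PrimrecPred.and
    (RCase_aux_cert hP hτ (Primrec.succ.comp hr) hx' ht') (PrimrecPred.and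
      (Primrec.nat_le.comp hej (RCase_aux_tab hyt hr)) ?_))
  refine aux_all_lt (α := α)
    (R := fun z i => Nat.testBit (a i) z = true → z < bfun (c i) (q i) (x i) (x' i) ∧
      halt (x i) (Nat.pair (c i) (Nat.pair (q i) z)) = false) ?_ ha
  refine RCase_aux_imp (RCase_aux_testBit (ha.comp Primrec.snd) Primrec.fst) (PrimrecPred.and
    (Primrec.nat_lt.comp Primrec.fst ((RCase_aux_bfun hc hq hx hx').comp Primrec.snd)) ?_)
  exact RCase_aux_halt (hx.comp Primrec.snd)
    (RCase_aux_prog (hc.comp Primrec.snd) (hq.comp Primrec.snd) Primrec.fst) false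

theorem RCase_aux_case1 {α : Type*} [Primcodable α]
    {c cA q P yt gt E qA a σ τ κ σ' τ' t0 e xe te r' xr tr r x t x' t' : α → ℕ}
    (hc : Primrec c) (hcA : Primrec cA) (hq : Primrec q) (hP : Primrec P) (hyt : Primrec yt)
    (hgt : Primrec gt) (hE : Primrec E) (hqA : Primrec qA) (ha : Primrec a) (hσ : Primrec σ)
    (hτ : Primrec τ) (hκ : Primrec κ) (hσ' : Primrec σ') (hτ' : Primrec τ') (ht0 : Primrec t0)
    (he : Primrec e) (hxe : Primrec xe) (hte : Primrec te) (hr' : Primrec r')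
    (hxr : Primrec xr) (htr : Primrec tr) (hr : Primrec r) (hx : Primrec x) (ht : Primrec t)
    (hx' : Primrec x') (ht' : Primrec t') :
    PrimrecPred fun i => Case1 (c i) (cA i) (q i) (P i) (yt i) (gt i) (E i) (qA i) (a i) (σ i)
      (τ i) (κ i) (σ' i) (τ' i) (t0 i) (e i) (xe i) (te i) (r' i) (xr i) (tr i) (r i) (x i)
      (t i) (x' i) (t' i) := by
  refine PrimrecPred.and (RCase_aux_sub hσ' hσ) (PrimrecPred.and (RCase_aux_sub hτ' hτ)
    (PrimrecPred.and (RCase_aux_halt ht0 (Primrec₂.natPair.comp hcA (Primrec₂.natPair.comp hqA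
      (Primrec₂.natPair.comp hκ (Primrec₂.natPair.comp hσ' hτ')))) true)
    (PrimrecPred.and (RCase_aux_cert hP hκ he hxe hte)
    (PrimrecPred.and (RCase_aux_cert hP hκ hr' hxr htr)
    (PrimrecPred.and (RCase_aux_cert hP hκ hr hx ht)
    (PrimrecPred.and (RCase_aux_cert hP hκ (Primrec.succ.comp hr) hx' ht')
    (PrimrecPred.and (Primrec.nat_le.comp ha hxe)
    (PrimrecPred.and ?_ (PrimrecPred.and (Primrec.nat_le.comp (RCase_aux_tab hyt hr)
      (RCase_aux_tab hgt (Primrec.nat_add.comp (Primrec.nat_mul.comp he (Primrec.succ.comp hE))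
        hr'))) ?_)))))))))
  · refine aux_all_lt (α := α)
      (R := fun z i => Nat.testBit (a i) z = true → halt (xr i) z = false) ?_ ha
    exact RCase_aux_imp (RCase_aux_testBit (ha.comp Primrec.snd) Primrec.fst)
      (RCase_aux_halt (hxr.comp Primrec.snd) Primrec.fst false)
  · refine aux_all_lt (α := α)
      (R := fun z i => halt (x i) (Nat.pair (c i) (Nat.pair (q i) z)) = false →
        Nat.testBit (τ i) z = true) ?_ (RCase_aux_bfun hc hq hx hx')
    exact RCase_aux_imp (RCase_aux_halt (hx.comp Primrec.snd)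
      (RCase_aux_prog (hc.comp Primrec.snd) (hq.comp Primrec.snd) Primrec.fst) false)
      (RCase_aux_testBit (hτ.comp Primrec.snd) Primrec.fst)

theorem RCase_aux_fs {α : Type*} [Primcodable α] {f : α → ℕ} (hf : Primrec f) :
    Primrec fun a => fs (f a) :=
  Primrec.fst.comp (Primrec.unpair.comp hf)

theorem RCase_aux_sn {α : Type*} [Primcodable α] {f : α → ℕ} (hf : Primrec f) :
    Primrec fun a => sn (f a) :=
  Primrec.snd.comp (Primrec.unpair.comp hf)

theorem RCase2_primrec (c : ℕ) : PrimrecRel (RCase2 c) := by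
  have n : Primrec fun p : ℕ × ℕ => p.1 := Primrec.fst
  have w : Primrec fun p : ℕ × ℕ => p.2 := Primrec.snd
  have fn := RCase_aux_fs n
  have sn1 := RCase_aux_sn n
  exact RCase_aux_case2 (Primrec.const c) (RCase_aux_fs fn)
    (RCase_aux_fs (RCase_aux_sn fn)) (RCase_aux_fs (RCase_aux_sn (RCase_aux_sn fn)))
    (RCase_aux_sn (RCase_aux_sn (RCase_aux_sn fn)))
    (RCase_aux_fs sn1) (RCase_aux_sn (RCase_aux_sn sn1))
    (RCase_aux_fs w) (RCase_aux_fs (RCase_aux_sn w)) (RCase_aux_fs (RCase_aux_sn (RCase_aux_sn w)))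
    (RCase_aux_fs (RCase_aux_sn (RCase_aux_sn (RCase_aux_sn w))))
    (RCase_aux_sn (RCase_aux_sn (RCase_aux_sn (RCase_aux_sn w))))

theorem RCase1_primrec (c cA : ℕ) : PrimrecRel (RCase1 c cA) := by
  have n : Primrec fun p : ℕ × ℕ => p.1 := Primrec.fst
  have w : Primrec fun p : ℕ × ℕ => p.2 := Primrec.snd
  have fn := RCase_aux_fs n
  have fn1 := RCase_aux_sn fn
  have fn2 := RCase_aux_sn fn1
  have fn3 := RCase_aux_sn fn2
  have fn4 := RCase_aux_sn fn3
  have fn5 := RCase_aux_sn fn4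
  have sn1 := RCase_aux_sn n
  have sn2 := RCase_aux_sn sn1
  have sn3 := RCase_aux_sn sn2
  have fw := RCase_aux_fs w
  have fw1 := RCase_aux_sn fw
  have fw2 := RCase_aux_sn fw1
  have fw3 := RCase_aux_sn fw2
  have w1 := RCase_aux_sn w
  have a1 := RCase_aux_fs w1
  have a2 := RCase_aux_sn a1
  have a3 := RCase_aux_sn a2
  have w2 := RCase_aux_sn w1
  have b1 := RCase_aux_fs w2
  have b2 := RCase_aux_sn b1
  have b3 := RCase_aux_sn b2
  have w3 := RCase_aux_sn w2
  have w4 := RCase_aux_sn w3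
  have w5 := RCase_aux_sn w4
  have w6 := RCase_aux_sn w5
  have w7 := RCase_aux_sn w6
  exact RCase_aux_case1 (Primrec.const c) (Primrec.const cA) (RCase_aux_fs fn)
    (RCase_aux_fs fn1) (RCase_aux_fs fn2) (RCase_aux_fs fn3) (RCase_aux_fs fn4) fn5
    (RCase_aux_fs sn1) (RCase_aux_fs sn2) sn3
    (RCase_aux_fs fw) (RCase_aux_fs fw1) (RCase_aux_fs fw2) fw3
    (RCase_aux_fs a1) (RCase_aux_fs a2) a3
    (RCase_aux_fs b1) (RCase_aux_fs b2) b3
    (RCase_aux_fs w3) (RCase_aux_fs w4) (RCase_aux_fs w5) (RCase_aux_fs w6) w7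

variable [hA : Fact (Adm F U (BB P u))]

end


/-! ### part 25013 -/

section

variable {F : Set (ℕ → ℕ)} {U : Ultrafilter ℕ} {P : ℕ → ℕ} {u s : ℕ → ℕ → ℕ}

theorem Cert.eq {P κ r x t : ℕ} (hP : Good P) (hκ : ∀ z, Nat.testBit κ z = true → ¬ AN P z)
    (hc : Cert P κ r x t) : x = X P r := by
  obtain ⟨h1, h2, h3⟩ := hc
  have h4 := hκ _ h3
  unfold AN at h4
  rw [Nat.unpair_pair] at h4
  have h5 := P3_le_X hP h2
  simp only at h4
  omega

theorem Cert.of_testBit {P κ r : ℕ} (hP : Good P)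
    (h : Nat.testBit κ (Nat.pair r (X P r + 1)) = true) : Cert P κ r (X P r) (X P r) :=
  ⟨le_rfl, (len_X hP r).le, h⟩

theorem yy_spec {P c q E r : ℕ} (hP : Good P) (hr : r ≤ E) : r ≤ yy P c q E r ∧ yy P c q E r ≤ E ∧
    ∀ r' ≤ yy P c q E r, ∀ z < bb P c q r, halt (X P r') (Nat.pair c (Nat.pair q z)) = true →
      halt (X P r) (Nat.pair c (Nat.pair q z)) = true := by
  unfold yy
  refine ⟨Nat.le_findGreatest hr (fun z _ h => h), Nat.findGreatest_le E, ?_⟩
  intro r' hr' z hz hh
  have hspec := Nat.findGreatest_spec (P := fun r' => ∀ z, z < bb P c q r →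
    halt (X P r') (Nat.pair c (Nat.pair q z)) = true →
    halt (X P r) (Nat.pair c (Nat.pair q z)) = true) hr (fun z _ h => h)
  exact hspec z hz (halt_mono ((X_strictMono hP).monotone hr') hh)

theorem gg_spec {P E e r : ℕ} (hP : Good P) (hr : r ≤ E) : r ≤ gg P E e r ∧ gg P E e r ≤ E ∧
    ∀ r' ≤ gg P E e r, ∀ z < X P e, halt (X P r') z = true → halt (X P r) z = true := by
  unfold gg
  refine ⟨Nat.le_findGreatest hr (fun z _ h => h), Nat.findGreatest_le E, ?_⟩
  intro r' hr' z hz hh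
  have hspec := Nat.findGreatest_spec (P := fun r' => ∀ z, z < X P e →
    halt (X P r') z = true → halt (X P r) z = true) hr (fun z _ h => h)
  exact hspec z hz (halt_mono ((X_strictMono hP).monotone hr') hh)

theorem Ctx.EE_le (h : Ctx F U P u s) (d : ℕ) : EE u s d ≤ P d := by
  have h1 := h.big d [EE u s d] (by
    simp only [List.length_singleton]
    exact Nat.one_le_pow _ _ (Nat.succ_pos _)) (by
    intro x hx
    rw [List.mem_singleton] at hx
    rw [hx]
    unfold EE
    omega)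
  refine le_trans ?_ h1
  rw [Encodable.encode_list_cons]
  have h2 := Nat.left_le_pair (Encodable.encode (EE u s d)) (Encodable.encode ([] : List ℕ))
  have h3 : Encodable.encode (EE u s d) = EE u s d := rfl
  rw [h3] at h2 ⊢
  exact h2.trans (Nat.le_succ _)

theorem Ctx.ini_le_EE (h : Ctx F U P u s) {f : ℕ → ℕ} (hf : Ini U u f) :
    ∀ᶠ d in (U : Filter ℕ), f d ≤ EE u s d := by
  obtain ⟨j, hj⟩ := hf
  have key : ∀ j, ∀ᶠ d in (U : Filter ℕ), u j d + 2 ^ (s j d) ≤ u 0 d + 2 ^ (s 0 d) := by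
    intro j
    induction j with
    | zero => exact Eventually.of_forall fun d => le_rfl
    | succ j ih =>
      filter_upwards [ih, h.nest j] with d h1 h2
      exact h2.2.trans h1
  filter_upwards [hj, key j] with d h1 h2
  unfold EE
  exact h1.le.trans ((Nat.le_add_right _ _).trans h2)

variable [hA : Fact (Adm F U (BB P u))]

end


/-! ### part 25014 -/

section

variable {F : Set (ℕ → ℕ)} {U : Ultrafilter ℕ} {P : ℕ → ℕ} {u s : ℕ → ℕ → ℕ}













variable [hA : Fact (Adm F U (BB P u))]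


theorem isigma_pair (a : ℕ) {b b' : ℕ} (h : b ≤ b') : Nat.pair a b ≤ Nat.pair a b' := by
  rcases Nat.lt_or_eq_of_le h with h | h
  · exact (Nat.pair_lt_pair_right a h).le
  · rw [h]

/-- least `z < a` whose program has not stopped -/
def isigma_G (c n : ℕ) : ℕ := (List.range n.unpair.2.unpair.2).findIdx
  (fun z => !halt n.unpair.1 (Nat.pair c (Nat.pair n.unpair.2.unpair.1 z)))

theorem isigma_G_primrec (c : ℕ) : Primrec (isigma_G c) := by
  unfold isigma_G
  refine Primrec.list_findIdx (Primrec.list_range.comp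
    (Primrec.snd.comp (Primrec.unpair.comp (Primrec.snd.comp Primrec.unpair)))) ?_
  have h1 : Primrec fun p : ℕ × ℕ =>
      halt p.1.unpair.1 (Nat.pair c (Nat.pair p.1.unpair.2.unpair.1 p.2)) := by
    refine halt_primrec.comp (Primrec.fst.comp (Primrec.unpair.comp Primrec.fst)) ?_
    refine Primrec₂.natPair.comp (Primrec.const c) (Primrec₂.natPair.comp ?_ Primrec.snd)
    exact Primrec.fst.comp (Primrec.unpair.comp
      (Primrec.snd.comp (Primrec.unpair.comp Primrec.fst)))
  exact (Primrec.not.comp h1).to₂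

theorem isigma_G_spec (c w q a : ℕ) :
    (isigma_G c (Nat.pair w (Nat.pair q a)) ≤ a) ∧
    (∀ z < isigma_G c (Nat.pair w (Nat.pair q a)), halt w (Nat.pair c (Nat.pair q z)) = true) ∧
    (halt w (Nat.pair c (Nat.pair q a)) = false →
      halt w (Nat.pair c (Nat.pair q (isigma_G c (Nat.pair w (Nat.pair q a))))) = false) := by
  unfold isigma_G
  simp only [Nat.unpair_pair]
  have hle : (List.range a).findIdx (fun z => !halt w (Nat.pair c (Nat.pair q z))) ≤ a := by
    have := List.findIdx_le_length (p := fun z => !halt w (Nat.pair c (Nat.pair q z)))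
      (xs := List.range a)
    rwa [List.length_range] at this
  refine ⟨hle, ?_, ?_⟩
  · intro z hz
    have := List.not_of_lt_findIdx hz
    simpa using this
  · intro ha
    rcases Nat.lt_or_ge ((List.range a).findIdx
      (fun z => !halt w (Nat.pair c (Nat.pair q z)))) a with h | h
    · have h2 := List.findIdx_getElem (p := fun z => !halt w (Nat.pair c (Nat.pair q z)))
        (xs := List.range a) (w := by rw [List.length_range]; exact h)
      simpa using h2
    · rw [le_antisymm hle h]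
      exact ha

theorem Ctx.isigma (h : Ctx F U P u s) : ISigma true 1 (Mod F U (BB P u)) := by
  intro m φ hφ p h0 hs a
  by_contra ha
  obtain ⟨c, q, hcq⟩ := sigmaDef_elim (F := F) (U := U) (B := BB P u)
    (S := {x | Sat φ (Fin.snoc p x)}) ⟨m, φ, p, hφ, fun x => Iff.rfl⟩
  have hcq' : ∀ x : Mod F U (BB P u), Sat φ (Fin.snoc p x) ↔
      ∃ w : Mod F U (BB P u), ∀ᶠ d in (U : Filter ℕ),
        halt (rep w d) (Nat.pair c (Nat.pair (rep q d) (rep x d))) = true := hcq
  have hpc : ∀ x : Mod F U (BB P u), ∃ z : Mod F U (BB P u), ∀ᶠ d in (U : Filter ℕ),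
      rep z d = Nat.pair c (Nat.pair (rep q d) (rep x d)) := by
    intro x
    obtain ⟨k, hk⟩ := exists_const (F := F) (U := U) (B := BB P u) c
    obtain ⟨y, hy⟩ := exists_pair q x
    obtain ⟨z, hz⟩ := exists_pair k y
    refine ⟨z, ?_⟩
    filter_upwards [hk, hy, hz] with d h1 h2 h3
    rw [h3, h1, h2]
  obtain ⟨b, hb⟩ := hpc a
  obtain ⟨j, hj⟩ := h.quiet b
  obtain ⟨w, hw⟩ := exists_rep (F := F) (U := U) (B := BB P u) _ (h.pre_X (h.umem j) (h.ini_u j))
  have claim1 : ∀ x : Mod F U (BB P u), (∀ᶠ d in (U : Filter ℕ), rep x d ≤ rep a d) →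
      Sat φ (Fin.snoc p x) → ∀ᶠ d in (U : Filter ℕ),
        halt (rep w d) (Nat.pair c (Nat.pair (rep q d) (rep x d))) = true := by
    intro x hx hsat
    obtain ⟨z, hz⟩ := hpc x
    obtain ⟨t, ht⟩ := (hcq' x).1 hsat
    have h1 : ∀ᶠ d in (U : Filter ℕ), rep z d ≤ rep b d := by
      filter_upwards [hz, hb, hx] with d h1 h2 h3
      rw [h1, h2]
      exact isigma_pair _ (isigma_pair _ h3)
    have h2 := hj z h1 ⟨t, by
      filter_upwards [hz, ht] with d h1 h2
      rw [h1]
      exact h2⟩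
    filter_upwards [h2, hz, hw] with d h3 h4 h5
    rw [h5, ← h4]
    exact h3
  obtain ⟨qa, hqa⟩ := exists_pair q a
  obtain ⟨wqa, hwqa⟩ := exists_pair w qa
  obtain ⟨x0, hx0⟩ := exists_comp wqa (isigma_G_primrec c).to_comp
  have hx0' : ∀ᶠ d in (U : Filter ℕ),
      rep x0 d = isigma_G c (Nat.pair (rep w d) (Nat.pair (rep q d) (rep a d))) := by
    filter_upwards [hqa, hwqa, hx0] with d h1 h2 h3
    rw [h3, h2, h1]
  have hle : ∀ᶠ d in (U : Filter ℕ), rep x0 d ≤ rep a d := by
    filter_upwards [hx0'] with d h1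
    rw [h1]
    exact (isigma_G_spec c _ _ _).1
  have hafalse : ∀ᶠ d in (U : Filter ℕ),
      halt (rep w d) (Nat.pair c (Nat.pair (rep q d) (rep a d))) = false := by
    by_contra hcon
    rw [← Ultrafilter.eventually_not] at hcon
    apply ha
    rw [hcq' a]
    refine ⟨w, ?_⟩
    filter_upwards [hcon] with d h1
    simpa using h1
  have hx0false : ∀ᶠ d in (U : Filter ℕ),
      halt (rep w d) (Nat.pair c (Nat.pair (rep q d) (rep x0 d))) = false := by
    filter_upwards [hx0', hafalse] with d h1 h2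
    rw [h1]
    exact (isigma_G_spec c _ _ _).2.2 h2
  have hx0S : ¬ Sat φ (Fin.snoc p x0) := by
    intro hsat
    obtain ⟨d, h1, h2⟩ := ((claim1 x0 hle hsat).and hx0false).exists
    rw [h1] at h2
    exact Bool.noConfusion h2
  have hx0ne : ∀ᶠ d in (U : Filter ℕ), rep x0 d ≠ 0 := by
    by_contra hcon
    rw [← Ultrafilter.eventually_not] at hcon
    apply hx0S
    have : x0 = 0 := by
      rw [eq_iff]
      filter_upwards [hcon, rep_zero (F := F) (U := U) (B := BB P u)] with d h1 h2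
      rw [h2]
      simpa using h1
    rw [this]
    exact h0
  obtain ⟨y, hy⟩ := exists_comp x0 (g := Nat.pred) Primrec.pred.to_comp
  have hyS : Sat φ (Fin.snoc p y) := by
    rw [hcq' y]
    refine ⟨w, ?_⟩
    filter_upwards [hy, hx0', hx0ne] with d h1 h2 h3
    refine (isigma_G_spec c (rep w d) (rep q d) (rep a d)).2.1 (rep y d) ?_
    rw [← h2, h1]
    exact Nat.pred_lt h3
  apply hx0S
  have hyx : x0 = y + 1 := by
    rw [eq_iff]
    filter_upwards [hy, hx0ne, rep_add y (1 : Mod F U (BB P u)),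
      rep_one (F := F) (U := U) (B := BB P u)] with d h1 h2 h3 h4
    rw [h3, h4, h1]
    exact (Nat.succ_pred_eq_of_ne_zero h2).symm
  rw [hyx]
  exact hs y hyS

end


/-! ### part 25017 -/

section

variable {F : Set (ℕ → ℕ)} {U : Ultrafilter ℕ} {P : ℕ → ℕ} {u s : ℕ → ℕ → ℕ}













variable [hA : Fact (Adm F U (BB P u))]



omit hA in
theorem jl6_search {B : ℕ → ℕ → ℕ} [hA : Fact (Adm F U B)] {R : ℕ → ℕ → Prop} (hR : PrimrecRel R)
    (p b : Mod F U B) (h : ∀ᶠ d in (U : Filter ℕ), ∃ w, w < rep b d ∧ R (rep p d) w) :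
    ∃ z : Mod F U B, ∀ᶠ d in (U : Filter ℕ), rep z d < rep b d ∧ R (rep p d) (rep z d) := by
  classical
  have h1 : PrimrecRel (fun (c w : ℕ) => w < c.unpair.2 ∧ R c.unpair.1 w) := by
    have h3 : PrimrecPred (fun z : ℕ × ℕ => R z.1.unpair.1 z.2) :=
      hR.comp (Primrec.fst.comp (Primrec.unpair.comp Primrec.fst)) Primrec.snd
    have h4 : PrimrecPred (fun z : ℕ × ℕ => z.2 < z.1.unpair.2) :=
      Primrec.nat_lt.comp Primrec.snd (Primrec.snd.comp (Primrec.unpair.comp Primrec.fst))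
    exact h4.and h3
  have h5 : Primrec (fun c : ℕ => Nat.findGreatest
      (fun w => w < c.unpair.2 ∧ R c.unpair.1 w) c.unpair.2) :=
    Primrec.nat_findGreatest (Primrec.snd.comp Primrec.unpair) h1
  obtain ⟨a, ha⟩ := exists_pair p b
  obtain ⟨z, hz⟩ := exists_comp a h5.to_comp
  refine ⟨z, ?_⟩
  filter_upwards [h, ha, hz] with d h1 h2 h4
  obtain ⟨w, hw, hw'⟩ := h1
  rw [h2] at h4
  simp only [Nat.unpair_pair] at h4
  have h6 := Nat.findGreatest_spec (P := fun w => w < rep b d ∧ R (rep p d) w) hw.le ⟨hw, hw'⟩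
  rw [h4]
  exact h6

theorem jl6_bit (a z : ℕ) : Nat.testBit a z = true ↔ a / 2 ^ z % 2 = 1 := by
  rw [Nat.testBit_eq_decide_div_mod_eq, decide_eq_true_eq]

theorem jl6_bit_pr : PrimrecRel (fun p z : ℕ => p.unpair.1 / 2 ^ z % 2 = 1) := by
  have hpow : Primrec₂ (fun a b : ℕ => a ^ b) := Primrec₂.unpaired'.1 Nat.Primrec.pow
  have h : Primrec (fun q : ℕ × ℕ => q.1.unpair.1 / 2 ^ q.2 % 2) :=
    Primrec.nat_mod.comp (Primrec.nat_div.comp
      (Primrec.fst.comp (Primrec.unpair.comp Primrec.fst))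
      (hpow.comp (Primrec.const 2) Primrec.snd)) (Primrec.const 2)
  exact Primrec.eq.comp h (Primrec.const 1)

theorem Ctx.not_halt (h : Ctx F U P u s) (c : ℕ) (q a x : Mod F U (BB P u))
    (ha : fset a ⊆ (WS F U P u c q)ᶜ) : ∀ᶠ d in (U : Filter ℕ), ∀ z < rep a d,
      Nat.testBit (rep a d) z = true → halt (rep x d) (Nat.pair c (Nat.pair (rep q d) z)) = false := by
  by_contra hcon
  rw [← Ultrafilter.eventually_not] at hcon
  obtain ⟨xq, hxq⟩ := exists_pair x q
  obtain ⟨p, hp⟩ := exists_pair a xq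
  have hR : PrimrecRel (fun p z : ℕ => p.unpair.1 / 2 ^ z % 2 = 1 ∧
      halt p.unpair.2.unpair.1 (Nat.pair c (Nat.pair p.unpair.2.unpair.2 z)) = true) := by
    refine PrimrecPred.and jl6_bit_pr ?_
    have hu : Primrec (fun q : ℕ × ℕ => q.1.unpair.2) :=
      Primrec.snd.comp (Primrec.unpair.comp Primrec.fst)
    have h1 : Primrec (fun q : ℕ × ℕ => halt q.1.unpair.2.unpair.1
        (Nat.pair c (Nat.pair q.1.unpair.2.unpair.2 q.2))) :=
      halt_primrec.comp (Primrec.fst.comp (Primrec.unpair.comp hu))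
        (Primrec₂.natPair.comp (Primrec.const c)
          (Primrec₂.natPair.comp (Primrec.snd.comp (Primrec.unpair.comp hu)) Primrec.snd))
    exact Primrec.eq.comp h1 (Primrec.const true)
  obtain ⟨z, hz⟩ := jl6_search hR p a (by
    filter_upwards [hcon, hxq, hp] with d h1 h2 h3
    push Not at h1
    obtain ⟨w, hw1, hw2, hw3⟩ := h1
    refine ⟨w, hw1, ?_⟩
    rw [h3, h2]
    simp only [Nat.unpair_pair]
    refine ⟨(jl6_bit _ _).1 hw2, ?_⟩
    simpa using hw3)
  have hz2 : ∀ᶠ d in (U : Filter ℕ), Nat.testBit (rep a d) (rep z d) = true ∧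
      halt (rep x d) (Nat.pair c (Nat.pair (rep q d) (rep z d))) = true := by
    filter_upwards [hz, hxq, hp] with d h1 h2 h3
    obtain ⟨_, h4⟩ := h1
    rw [h3, h2] at h4
    simp only [Nat.unpair_pair] at h4
    exact ⟨(jl6_bit _ _).2 h4.1, h4.2⟩
  have hza : z ∈ fset a := (mem_fset_iff z a).2 (hz2.mono fun d h => h.1)
  exact ha hza ⟨x, hz2.mono fun d h => h.2⟩

theorem Ctx.not_haltK (h : Ctx F U P u s) (a x : Mod F U (BB P u))
    (ha : fset a ⊆ (KS F U P u)ᶜ) : ∀ᶠ d in (U : Filter ℕ), ∀ z < rep a d,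
      Nat.testBit (rep a d) z = true → halt (rep x d) z = false := by
  by_contra hcon
  rw [← Ultrafilter.eventually_not] at hcon
  obtain ⟨p, hp⟩ := exists_pair a x
  have hR : PrimrecRel (fun p z : ℕ => p.unpair.1 / 2 ^ z % 2 = 1 ∧
      halt p.unpair.2 z = true) := by
    refine PrimrecPred.and jl6_bit_pr ?_
    have h1 : Primrec (fun q : ℕ × ℕ => halt q.1.unpair.2 q.2) :=
      halt_primrec.comp (Primrec.snd.comp (Primrec.unpair.comp Primrec.fst)) Primrec.snd
    exact Primrec.eq.comp h1 (Primrec.const true)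
  obtain ⟨z, hz⟩ := jl6_search hR p a (by
    filter_upwards [hcon, hp] with d h1 h3
    push Not at h1
    obtain ⟨w, hw1, hw2, hw3⟩ := h1
    refine ⟨w, hw1, ?_⟩
    rw [h3]
    simp only [Nat.unpair_pair]
    refine ⟨(jl6_bit _ _).1 hw2, ?_⟩
    simpa using hw3)
  have hz2 : ∀ᶠ d in (U : Filter ℕ), Nat.testBit (rep a d) (rep z d) = true ∧
      halt (rep x d) (rep z d) = true := by
    filter_upwards [hz, hp] with d h1 h3
    obtain ⟨_, h4⟩ := h1
    rw [h3] at h4
    simp only [Nat.unpair_pair] at h4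
    exact ⟨(jl6_bit _ _).2 h4.1, h4.2⟩
  have hza : z ∈ fset a := (mem_fset_iff z a).2 (hz2.mono fun d h => h.1)
  exact ha hza ⟨x, hz2.mono fun d h => h.2⟩

end


/-! ### part 25019 -/

section

variable {F : Set (ℕ → ℕ)} {U : Ultrafilter ℕ} {P : ℕ → ℕ} {u s : ℕ → ℕ → ℕ}
















variable [hA : Fact (Adm F U (BB P u))]


theorem true_iff_find_primrec {α : Type*} [Primcodable α] (c : ℕ) {q b x y : α → ℕ}
    (hq : Primrec q) (hb : Primrec b) (hx : Primrec x) (hy : Primrec y) :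
    Primrec (fun a => (List.range (b a)).findIdx (fun z =>
      halt (y a) (Nat.pair c (Nat.pair (q a) z)) && !halt (x a) (Nat.pair c (Nat.pair (q a) z)))) := by
  have h1 : Primrec (fun p : α × ℕ => Nat.pair c (Nat.pair (q p.1) p.2)) :=
    Primrec₂.natPair.comp (Primrec.const c)
      (Primrec₂.natPair.comp (hq.comp Primrec.fst) Primrec.snd)
  refine Primrec.list_findIdx (Primrec.list_range.comp hb) ?_
  exact Primrec.and.comp (halt_primrec.comp (hy.comp Primrec.fst) h1)
    (Primrec.not.comp (halt_primrec.comp (hx.comp Primrec.fst) h1))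

/-- the least witness -/
def true_iff_G (c n : ℕ) : ℕ :=
  (List.range (bfun c n.unpair.1 n.unpair.2.unpair.1 n.unpair.2.unpair.2.unpair.1)).findIdx
    (fun z => halt n.unpair.2.unpair.2.unpair.2 (Nat.pair c (Nat.pair n.unpair.1 z)) &&
      !halt n.unpair.2.unpair.1 (Nat.pair c (Nat.pair n.unpair.1 z)))

theorem true_iff_G_comp (c : ℕ) : Computable (true_iff_G c) := by
  have h1 : Primrec (fun n : ℕ => n.unpair.1) := Primrec.fst.comp Primrec.unpair
  have h2 : Primrec (fun n : ℕ => n.unpair.2) := Primrec.snd.comp Primrec.unpair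
  have h3 : Primrec (fun n : ℕ => bfun c n.unpair.1 n.unpair.2.unpair.1
      n.unpair.2.unpair.2.unpair.1) := by
    unfold bfun
    exact true_iff_find_primrec c h1 (h1.comp h2) (h1.comp h2) (h1.comp (h2.comp h2))
  exact (true_iff_find_primrec c h1 h3 (h1.comp h2) (h2.comp (h2.comp h2))).to_comp

theorem true_iff_G_spec (c q x x' w : ℕ) (hex : ∃ z < bfun c q x x',
    halt w (Nat.pair c (Nat.pair q z)) = true ∧ ¬ halt x (Nat.pair c (Nat.pair q z)) = true) :
    true_iff_G c (Nat.pair q (Nat.pair x (Nat.pair x' w))) < bfun c q x x' ∧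
    halt w (Nat.pair c (Nat.pair q
      (true_iff_G c (Nat.pair q (Nat.pair x (Nat.pair x' w)))))) = true ∧
    ¬ halt x (Nat.pair c (Nat.pair q
      (true_iff_G c (Nat.pair q (Nat.pair x (Nat.pair x' w)))))) = true := by
  obtain ⟨z, hz, h1, h2⟩ := hex
  unfold true_iff_G
  simp only [Nat.unpair_pair]
  have hlt : (List.range (bfun c q x x')).findIdx
      (fun z => halt w (Nat.pair c (Nat.pair q z)) && !halt x (Nat.pair c (Nat.pair q z))) <
      (List.range (bfun c q x x')).length := by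
    rw [List.findIdx_lt_length]
    refine ⟨z, List.mem_range.2 hz, ?_⟩
    rw [h1, Bool.eq_false_iff.2 h2]
    rfl
  have hsp := List.findIdx_getElem (w := hlt)
  rw [List.getElem_range, Bool.and_eq_true, Bool.not_eq_true'] at hsp
  rw [List.length_range] at hlt
  exact ⟨hlt, hsp.1, by rw [hsp.2]; exact Bool.false_ne_true⟩

theorem Ctx.true_iff (h : Ctx F U P u s) (c : ℕ) (q : Mod F U (BB P u)) {r : ℕ → ℕ} (hr : r ∈ F)
    (hI : Ini U u r) : ¬ Ini U u (fun d => yy (P d) c (rep q d) (EE u s d) (r d)) ↔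
      ∀ z ∈ WS F U P u c q, (∀ᶠ d in (U : Filter ℕ), rep z d < bb (P d) c (rep q d) (r d)) →
        ∀ᶠ d in (U : Filter ℕ), halt (X (P d) (r d)) (Nat.pair c (Nat.pair (rep q d) (rep z d))) = true := by
  constructor
  · intro hni z hz hzb
    obtain ⟨t, ht⟩ := hz
    obtain ⟨k, hk⟩ := (rep_pre t).2
    filter_upwards [ht, hk, h.u_le_of_not_ini hni k, h.ini_le_EE hI, hzb] with d h1 h2 h3 h4 h5
    have h6 := yy_spec (c := c) (q := rep q d) (h.good d) h4
    exact h6.2.2 (u k d) h3 (rep z d) h5 (halt_mono h2 h1)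
  · intro hall hyI
    obtain ⟨j, hj⟩ := hyI
    have hex : ∀ᶠ d in (U : Filter ℕ), ∃ z < bfun c (rep q d) (X (P d) (r d)) (X (P d) (r d + 1)),
        halt (X (P d) (u j d)) (Nat.pair c (Nat.pair (rep q d) z)) = true ∧
        ¬ halt (X (P d) (r d)) (Nat.pair c (Nat.pair (rep q d) z)) = true := by
      filter_upwards [hj, h.ini_le_EE (h.ini_u j)] with d h1 h2
      by_contra hcon
      push Not at hcon
      have h3 : u j d ≤ yy (P d) c (rep q d) (EE u s d) (r d) := by
        unfold yy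
        refine Nat.le_findGreatest h2 ?_
        intro z hz hzt
        exact hcon z hz hzt
      exact absurd h1 (not_lt.2 h3)
    have hxpre := h.pre_X hr hI
    have hr1 : (fun d => r d + 1) ∈ F := h.comp (fun n => n + 1) Primrec.succ.to_comp r hr
    have hx'pre := h.pre_X hr1 (h.ini_succ hI)
    have hwpre := h.pre_X (h.umem j) (h.ini_u j)
    have hGpre := ((rep_pre q).pair (hxpre.pair (hx'pre.pair hwpre))).comp (true_iff_G_comp c)
    obtain ⟨z, hz⟩ := exists_rep _ hGpre
    obtain ⟨t, ht⟩ := exists_rep _ hwpre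
    have hsp : ∀ᶠ d in (U : Filter ℕ),
        rep z d < bfun c (rep q d) (X (P d) (r d)) (X (P d) (r d + 1)) ∧
        halt (X (P d) (u j d)) (Nat.pair c (Nat.pair (rep q d) (rep z d))) = true ∧
        ¬ halt (X (P d) (r d)) (Nat.pair c (Nat.pair (rep q d) (rep z d))) = true := by
      filter_upwards [hex, hz] with d h1 h2
      rw [h2]
      exact true_iff_G_spec c (rep q d) _ _ _ h1
    have hzW : z ∈ WS F U P u c q := by
      refine ⟨t, ?_⟩
      filter_upwards [hsp, ht] with d h1 h2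
      rw [h2]
      exact h1.2.1
    have hfin := hall z hzW (by
      filter_upwards [hsp] with d h1
      exact h1.1)
    obtain ⟨d, h1, h2⟩ := (hsp.and hfin).exists
    exact h1.2.2 h2

end


/-! ### part 25021 -/

section

variable {F : Set (ℕ → ℕ)} {U : Ultrafilter ℕ} {P : ℕ → ℕ} {u s : ℕ → ℕ → ℕ}
















variable [hA : Fact (Adm F U (BB P u))]



omit hA in
theorem Ctx.true_K_aux : Primrec (fun n : ℕ => (List.range n.unpair.1).findIdx
    (fun z => halt n.unpair.2.unpair.1 z && !halt n.unpair.2.unpair.2 z)) := by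
  refine Primrec.list_findIdx (Primrec.list_range.comp (Primrec.fst.comp Primrec.unpair)) ?_
  have h1 : Primrec (fun p : ℕ × ℕ => p.1.unpair.2.unpair.1) :=
    Primrec.fst.comp (Primrec.unpair.comp (Primrec.snd.comp (Primrec.unpair.comp Primrec.fst)))
  have h2 : Primrec (fun p : ℕ × ℕ => p.1.unpair.2.unpair.2) :=
    Primrec.snd.comp (Primrec.unpair.comp (Primrec.snd.comp (Primrec.unpair.comp Primrec.fst)))
  exact Primrec.and.comp (halt_primrec.comp h1 Primrec.snd)
    (Primrec.not.comp (halt_primrec.comp h2 Primrec.snd))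

omit hA in
theorem Ctx.true_K_aux2 {a b c : ℕ} (h : ∃ z < a, halt b z = true ∧ halt c z = false) :
    (List.range a).findIdx (fun z => halt b z && !halt c z) < a ∧
    halt b ((List.range a).findIdx (fun z => halt b z && !halt c z)) = true ∧
    halt c ((List.range a).findIdx (fun z => halt b z && !halt c z)) = false := by
  obtain ⟨z, hz, h1, h2⟩ := h
  have hlt : (List.range a).findIdx (fun z => halt b z && !halt c z) < (List.range a).length := by
    apply List.findIdx_lt_length_of_exists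
    exact ⟨z, List.mem_range.2 hz, by simp [h1, h2]⟩
  have h3 := List.findIdx_getElem (p := fun z => halt b z && !halt c z) (xs := List.range a) (w := hlt)
  rw [List.getElem_range] at h3
  rw [List.length_range] at hlt
  simp only [Bool.and_eq_true, Bool.not_eq_true'] at h3
  exact ⟨hlt, h3⟩

theorem Ctx.true_K (h : Ctx F U P u s) {e r : ℕ → ℕ} (he : Ini U u e) (hI : Ini U u r)
    (hg : ¬ Ini U u (fun d => gg (P d) (EE u s d) (e d) (r d))) (z : Mod F U (BB P u))
    (hz : z ∈ KS F U P u) (hze : ∀ᶠ d in (U : Filter ℕ), rep z d < X (P d) (e d)) :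
    ∀ᶠ d in (U : Filter ℕ), halt (X (P d) (r d)) (rep z d) = true := by
  obtain ⟨t, ht⟩ := hz
  obtain ⟨-, k, hk⟩ := rep_pre t
  filter_upwards [ht, hk, h.u_le_of_not_ini hg k, h.ini_le_EE hI, hze] with d h1 h2 h3 h4 h5
  have h6 := (gg_spec (e := e d) (h.good d) h4).2.2 (u k d) h3 (rep z d) h5
  exact h6 (halt_mono h2 h1)

theorem Ctx.exists_true_K (h : Ctx F U P u s) {e : ℕ → ℕ} (he : e ∈ F) (hI : Ini U u e) :
    ∃ r ∈ F, Ini U u r ∧ ¬ Ini U u (fun d => gg (P d) (EE u s d) (e d) (r d)) := by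
  obtain ⟨b, hb⟩ := exists_rep _ (h.pre_X he hI)
  obtain ⟨j, hj⟩ := h.quiet b
  refine ⟨u j, h.umem j, h.ini_u j, ?_⟩
  rintro ⟨k, hk⟩
  obtain ⟨xk, hxk⟩ := exists_rep _ (h.pre_X (h.umem k) (h.ini_u k))
  obtain ⟨xj, hxj⟩ := exists_rep _ (h.pre_X (h.umem j) (h.ini_u j))
  obtain ⟨p, hp⟩ := exists_pair xk xj
  obtain ⟨q, hq⟩ := exists_pair b p
  obtain ⟨z, hz⟩ := exists_comp q Ctx.true_K_aux.to_comp
  have key : ∀ᶠ d in (U : Filter ℕ), rep z d < rep b d ∧ halt (rep xk d) (rep z d) = true ∧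
      halt (rep xj d) (rep z d) = false := by
    filter_upwards [hb, hk, hxk, hxj, hp, hq, hz, h.ini_le_EE (h.ini_u k)]
      with d h1 h2 h3 h4 h5 h6 h7 h8
    rw [h6, h5] at h7
    simp only [Nat.unpair_pair] at h7
    rw [h7]
    apply Ctx.true_K_aux2
    rw [h1, h3, h4]
    by_contra hc
    push Not at hc
    have h9 : u k d ≤ gg (P d) (EE u s d) (e d) (u j d) := by
      unfold gg
      apply Nat.le_findGreatest h8
      intro z hz1 hz2
      have := hc z hz1 hz2
      simpa using this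
    omega
  have h1 := hj z (by filter_upwards [key] with d hd; exact hd.1.le)
    ⟨xk, by filter_upwards [key] with d hd; exact hd.2.1⟩
  obtain ⟨d, ⟨hd1, hd2⟩, hd3⟩ := ((key.and h1).and hxj).exists
  rw [hd3] at hd1
  rw [hd1.2.2] at hd2
  exact absurd hd2 (by simp)

end


/-! ### part 25022 -/

section

variable {F : Set (ℕ → ℕ)} {U : Ultrafilter ℕ} {P : ℕ → ℕ} {u s : ℕ → ℕ → ℕ}
















theorem Ctx.EE_mem (h : Ctx F U P u s) : (fun d => EE u s d) ∈ F := by
  have h1 := h.pair _ (h.umem 0) _ (h.smem 0)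
  have hc : Computable (fun n : ℕ => n.unpair.1 + 2 ^ n.unpair.2) :=
    (Primrec.nat_add.comp (Primrec.fst.comp Primrec.unpair)
      (aux_pow.comp (Primrec.const 2) (Primrec.snd.comp Primrec.unpair))).to_comp
  have h2 := h.comp _ hc _ h1
  simp only [Nat.unpair_pair] at h2
  exact h2

theorem Ctx.pre_P (h : Ctx F U P u s) : IsPre F U (BB P u) P :=
  ⟨h.Pmem, 0, Eventually.of_forall fun d => ((lt_X_zero (h.good d)).le.trans
    ((X_strictMono (h.good d)).monotone (Nat.zero_le _)))⟩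

theorem tab_encode_map (f : ℕ → ℕ) (N r : ℕ) (hr : r < N) :
    tab (Encodable.encode ((List.range N).map f)) r = f r := by
  unfold tab
  rw [Denumerable.ofNat_encode]
  rw [List.getD_eq_getElem?_getD, List.getElem?_map, List.getElem?_range hr]
  rfl

variable [hA : Fact (Adm F U (BB P u))]

theorem Ctx.exists_ytab (h : Ctx F U P u s) (c : ℕ) (q : Mod F U (BB P u)) :
    ∃ yt : Mod F U (BB P u), ∀ᶠ d in (U : Filter ℕ), ∀ r ≤ EE u s d,
      tab (rep yt d) r = yy (P d) c (rep q d) (EE u s d) r := by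
  have hmem : (fun d => Sacks.pick Rytab (Nat.pair (P d) (Nat.pair c (Nat.pair (rep q d) (EE u s d)))))
      ∈ F := by
    refine h.pick Rytab (by simp [RR]) _ ?_
    exact h.pair _ h.Pmem _ (h.pair _ (h.const c) _ (h.pair _ (rep_pre q).1 _ h.EE_mem))
  have hval : ∀ d, Sacks.pick Rytab (Nat.pair (P d) (Nat.pair c (Nat.pair (rep q d) (EE u s d)))) =
      Encodable.encode ((List.range (EE u s d + 1)).map
        (yy (P d) c (rep q d) (EE u s d))) := by
    intro d
    have h1 := Sacks.pick_spec (R := Rytab)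
      (n := Nat.pair (P d) (Nat.pair c (Nat.pair (rep q d) (EE u s d)))) ⟨_, rfl⟩
    unfold Rytab at h1
    simp only [Nat.unpair_pair] at h1
    exact h1
  have hle : ∀ d, Sacks.pick Rytab (Nat.pair (P d) (Nat.pair c (Nat.pair (rep q d) (EE u s d)))) ≤
      P d := by
    intro d
    rw [hval]
    apply h.big
    · rw [List.length_map, List.length_range]
      show EE u s d + 1 ≤ (EE u s d + 2) ^ 2
      nlinarith
    · intro x hx
      rw [List.mem_map] at hx
      obtain ⟨r, -, rfl⟩ := hx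
      have : yy (P d) c (rep q d) (EE u s d) r ≤ EE u s d := Nat.findGreatest_le _
      exact this.trans (Nat.le_add_right _ 2)
  obtain ⟨yt, hyt⟩ := exists_rep _ (IsPre.of_le h.pre_P hmem (Eventually.of_forall hle))
  refine ⟨yt, ?_⟩
  filter_upwards [hyt] with d hd r hr
  rw [hd, hval, tab_encode_map _ _ _ (Nat.lt_succ_of_le hr)]

theorem Ctx.exists_gtab (h : Ctx F U P u s) :
    ∃ gt : Mod F U (BB P u), ∀ᶠ d in (U : Filter ℕ), ∀ e ≤ EE u s d, ∀ r ≤ EE u s d,
      tab (rep gt d) (e * (EE u s d + 1) + r) = gg (P d) (EE u s d) e r := by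
  have hmem : (fun d => Sacks.pick Rgtab (Nat.pair (P d) (EE u s d))) ∈ F := by
    refine h.pick Rgtab (by simp [RR]) _ ?_
    exact h.pair _ h.Pmem _ h.EE_mem
  have hval : ∀ d, Sacks.pick Rgtab (Nat.pair (P d) (EE u s d)) =
      Encodable.encode ((List.range ((EE u s d + 1) * (EE u s d + 1))).map
        (fun k => gg (P d) (EE u s d) (k / (EE u s d + 1)) (k % (EE u s d + 1)))) := by
    intro d
    have h1 := Sacks.pick_spec (R := Rgtab) (n := Nat.pair (P d) (EE u s d)) ⟨_, rfl⟩
    unfold Rgtab at h1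
    simp only [Nat.unpair_pair] at h1
    exact h1
  have hle : ∀ d, Sacks.pick Rgtab (Nat.pair (P d) (EE u s d)) ≤ P d := by
    intro d
    rw [hval]
    apply h.big
    · rw [List.length_map, List.length_range]
      show (EE u s d + 1) * (EE u s d + 1) ≤ (EE u s d + 2) ^ 2
      nlinarith
    · intro x hx
      rw [List.mem_map] at hx
      obtain ⟨r, -, rfl⟩ := hx
      have : gg (P d) (EE u s d) (r / (EE u s d + 1)) (r % (EE u s d + 1)) ≤ EE u s d :=
        Nat.findGreatest_le _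
      exact this.trans (Nat.le_add_right _ 2)
  obtain ⟨gt, hgt⟩ := exists_rep _ (IsPre.of_le h.pre_P hmem (Eventually.of_forall hle))
  refine ⟨gt, ?_⟩
  filter_upwards [hgt] with d hd e he r hr
  have hlt : e * (EE u s d + 1) + r < (EE u s d + 1) * (EE u s d + 1) := by nlinarith
  rw [hd, hval, tab_encode_map _ _ _ hlt]
  have h1 : (e * (EE u s d + 1) + r) / (EE u s d + 1) = e := by
    rw [mul_comm, Nat.mul_add_div (Nat.succ_pos _), Nat.div_eq_of_lt (Nat.lt_succ_of_le hr),
      add_zero]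
  have h2 : (e * (EE u s d + 1) + r) % (EE u s d + 1) = r := by
    rw [mul_comm, Nat.mul_add_mod, Nat.mod_eq_of_lt (Nat.lt_succ_of_le hr)]
  rw [h1, h2]

end


end Pool.Agent.Helper317.Sacks
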