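import Pool.Agent.Helper317.Sacks.Core3

/-!
Failure of collection, completeness, incomparability, minimality.
-/

namespace Pool.Agent.Helper317.Sacks

open FirstOrder FirstOrder.Language Filter
open Pool.Agent.Helper626
open Nat.Partrec (Code)


/-! ### part 25015 -/

section

variable {F : Set (ℕ → ℕ)} {U : Ultrafilter ℕ} {P : ℕ → ℕ} {u s : ℕ → ℕ → ℕ}














variable [hA : Fact (Adm F U (BB P u))]




/-- the matrix of the formula -/
def QQ (P x v t1 t2 t3 : ℕ) : Prop :=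
  (v ≤ t1 ∧ len P t1 ≤ x) ∧
    (¬ (0 < v.unpair.1.unpair.1 ∧ 2 ^ v.unpair.1.unpair.2 ∣ v.unpair.1.unpair.1 ∧
        v.unpair.1.unpair.1 + 2 ^ v.unpair.1.unpair.2 ≤ x + 1) ∨
      (v ≤ t2 ∧ len P t2 ≤ v.unpair.1.unpair.1) ∨
      (v < t3 ∧ v.unpair.1.unpair.1 + 2 ^ v.unpair.1.unpair.2 ≤ len P t3))

def RQ (z y : ℕ) : Prop :=
  QQ z.unpair.1.unpair.1.unpair.2 z.unpair.1.unpair.2 z.unpair.2 y.unpair.1 y.unpair.2.unpair.1
    y.unpair.2.unpair.2

theorem RQ_prim : PrimrecRel RQ := by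
  have u1 : Primrec (fun n : ℕ => n.unpair.1) := Primrec.fst.comp Primrec.unpair
  have u2 : Primrec (fun n : ℕ => n.unpair.2) := Primrec.snd.comp Primrec.unpair
  have fP : Primrec (fun p : ℕ × ℕ => p.1.unpair.1.unpair.1.unpair.2) :=
    u2.comp (u1.comp (u1.comp Primrec.fst))
  have fx : Primrec (fun p : ℕ × ℕ => p.1.unpair.1.unpair.2) := u2.comp (u1.comp Primrec.fst)
  have fv : Primrec (fun p : ℕ × ℕ => p.1.unpair.2) := u2.comp Primrec.fst
  have ft1 : Primrec (fun p : ℕ × ℕ => p.2.unpair.1) := u1.comp Primrec.snd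
  have ft2 : Primrec (fun p : ℕ × ℕ => p.2.unpair.2.unpair.1) := u1.comp (u2.comp Primrec.snd)
  have ft3 : Primrec (fun p : ℕ × ℕ => p.2.unpair.2.unpair.2) := u2.comp (u2.comp Primrec.snd)
  have fw : Primrec (fun p : ℕ × ℕ => p.1.unpair.2.unpair.1.unpair.1) := u1.comp (u1.comp fv)
  have fs : Primrec (fun p : ℕ × ℕ => p.1.unpair.2.unpair.1.unpair.2) := u2.comp (u1.comp fv)
  have hp : Primrec₂ (fun a b : ℕ => a ^ b) := Primrec₂.unpaired'.1 Nat.Primrec.pow
  have f2 : Primrec (fun p : ℕ × ℕ => 2 ^ p.1.unpair.2.unpair.1.unpair.2) :=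
    hp.comp (Primrec.const 2) fs
  have fE : Primrec (fun p : ℕ × ℕ => p.1.unpair.2.unpair.1.unpair.1 +
      2 ^ p.1.unpair.2.unpair.1.unpair.2) := Primrec.nat_add.comp fw f2
  have c1 : PrimrecPred (fun p : ℕ × ℕ => p.1.unpair.2 ≤ p.2.unpair.1) :=
    Primrec.nat_le.comp fv ft1
  have c2 : PrimrecPred (fun p : ℕ × ℕ => len p.1.unpair.1.unpair.1.unpair.2 p.2.unpair.1 ≤
      p.1.unpair.1.unpair.2) := Primrec.nat_le.comp (len_primrec.comp fP ft1) fx
  have c3 : PrimrecPred (fun p : ℕ × ℕ => 0 < p.1.unpair.2.unpair.1.unpair.1) :=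
    Primrec.nat_lt.comp (Primrec.const 0) fw
  have c4 : PrimrecPred (fun p : ℕ × ℕ => 2 ^ p.1.unpair.2.unpair.1.unpair.2 ∣
      p.1.unpair.2.unpair.1.unpair.1) := by
    have : PrimrecPred (fun p : ℕ × ℕ => p.1.unpair.2.unpair.1.unpair.1 %
        2 ^ p.1.unpair.2.unpair.1.unpair.2 = 0) :=
      Primrec.eq.comp (Primrec.nat_mod.comp fw f2) (Primrec.const 0)
    exact this.of_eq fun p => (Nat.dvd_iff_mod_eq_zero ..).symm
  have c5 : PrimrecPred (fun p : ℕ × ℕ => p.1.unpair.2.unpair.1.unpair.1 +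
      2 ^ p.1.unpair.2.unpair.1.unpair.2 ≤ p.1.unpair.1.unpair.2 + 1) :=
    Primrec.nat_le.comp fE (Primrec.succ.comp fx)
  have c6 : PrimrecPred (fun p : ℕ × ℕ => p.1.unpair.2 ≤ p.2.unpair.2.unpair.1) :=
    Primrec.nat_le.comp fv ft2
  have c7 : PrimrecPred (fun p : ℕ × ℕ => len p.1.unpair.1.unpair.1.unpair.2
      p.2.unpair.2.unpair.1 ≤ p.1.unpair.2.unpair.1.unpair.1) :=
    Primrec.nat_le.comp (len_primrec.comp fP ft2) fw
  have c8 : PrimrecPred (fun p : ℕ × ℕ => p.1.unpair.2 < p.2.unpair.2.unpair.2) :=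
    Primrec.nat_lt.comp fv ft3
  have c9 : PrimrecPred (fun p : ℕ × ℕ => p.1.unpair.2.unpair.1.unpair.1 +
      2 ^ p.1.unpair.2.unpair.1.unpair.2 ≤ len p.1.unpair.1.unpair.1.unpair.2
      p.2.unpair.2.unpair.2) :=
    Primrec.nat_le.comp fE (len_primrec.comp fP ft3)
  exact (c1.and c2).and ((c3.and (c4.and c5)).not.or ((c6.and c7).or (c8.and c9)))

theorem enc_three {F : Set (ℕ → ℕ)} {U : Ultrafilter ℕ} {B : ℕ → ℕ → ℕ} [Fact (Adm F U B)]
    (p x v : Mod F U B) (d : ℕ) :
    enc 3 (fun i => rep ((Fin.snoc (Fin.snoc (fun _ : Fin 1 => p) x : Fin 2 → Mod F U B) v :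
      Fin 3 → Mod F U B) i) d) =
      Nat.pair (Nat.pair (Nat.pair 0 (rep p d)) (rep x d)) (rep v d) := by
  rw [rep_snoc, rep_snoc]
  unfold enc
  rw [Fin.init_snoc, Fin.snoc_last]
  unfold enc
  rw [Fin.init_snoc, Fin.snoc_last]
  rfl

theorem Ctx.not_bsigma (h : Ctx F U P u s) : ¬ BSigma true 2 (Mod F U (BB P u)) := by
  intro hB
  obtain ⟨φ, hφ, hsat⟩ := pi_of (F := F) (U := U) (B := BB P u) 3 RQ_prim
  -- basic elements
  have hPpre : IsPre F U (BB P u) P := by
    refine ⟨h.Pmem, 0, Eventually.of_forall fun d => ?_⟩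
    exact (lt_X_zero (h.good d)).le.trans ((X_strictMono (h.good d)).monotone (Nat.zero_le _))
  obtain ⟨Pm, hPm⟩ := exists_rep P hPpre
  have hpow : Computable (fun n : ℕ => n.unpair.1 + 2 ^ n.unpair.2) := by
    have hp : Primrec₂ (fun a b : ℕ => a ^ b) := Primrec₂.unpaired'.1 Nat.Primrec.pow
    have u1 : Primrec (fun n : ℕ => n.unpair.1) := Primrec.fst.comp Primrec.unpair
    have u2 : Primrec (fun n : ℕ => n.unpair.2) := Primrec.snd.comp Primrec.unpair
    exact (Primrec.nat_add.comp u1 (hp.comp (Primrec.const 2) u2)).to_comp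
  have hEmem : EE u s ∈ F := by
    have h1 := h.comp _ hpow _ (h.pair _ (h.umem 0) _ (h.smem 0))
    have h2 : (fun d => (Nat.pair (u 0 d) (s 0 d)).unpair.1 +
        2 ^ (Nat.pair (u 0 d) (s 0 d)).unpair.2) = EE u s := by
      funext d
      rw [Nat.unpair_pair]
      rfl
    rw [← h2]
    exact h1
  have hEpre : IsPre F U (BB P u) (EE u s) :=
    hPpre.of_le hEmem (Eventually.of_forall fun d => h.EE_le d)
  obtain ⟨a, ha⟩ := exists_rep (EE u s) hEpre
  have hupre : ∀ j, IsPre F U (BB P u) (u j) := fun j =>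
    ⟨h.umem j, j, Eventually.of_forall fun d => (X_strictMono (h.good d)).le_apply⟩
  have hspre : ∀ j, IsPre F U (BB P u) (s j) := by
    intro j
    refine (hupre j).of_le (h.smem j) ?_
    filter_upwards [h.pos j] with d hd
    exact (Nat.lt_two_pow_self).le.trans (Nat.le_of_dvd hd.1 hd.2)
  have hXpre : ∀ j, IsPre F U (BB P u) (fun d => X (P d) (u j d)) := fun j =>
    h.pre_X (h.umem j) (h.ini_u j)
  -- the formula
  have key : ∀ x v : Mod F U (BB P u),
      (Sat φ (Fin.snoc (Fin.snoc (fun _ : Fin 1 => Pm) x : Fin 2 → Mod F U (BB P u)) v :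
        Fin 3 → Mod F U (BB P u)) ↔
      ¬ ∃ y : Mod F U (BB P u), ∀ᶠ d in (U : Filter ℕ), QQ (P d) (rep x d) (rep v d)
        (rep y d).unpair.1 (rep y d).unpair.2.unpair.1 (rep y d).unpair.2.unpair.2) := by
    intro x v
    rw [hsat]
    apply not_congr
    apply exists_congr
    intro y
    have e1 : ∀ d, rep Pm d = P d → (RQ (enc 3 (fun i => rep ((Fin.snoc (Fin.snoc
        (fun _ : Fin 1 => Pm) x : Fin 2 → Mod F U (BB P u)) v : Fin 3 → Mod F U (BB P u)) i) d))
        (rep y d) ↔ QQ (P d) (rep x d) (rep v d)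
        (rep y d).unpair.1 (rep y d).unpair.2.unpair.1 (rep y d).unpair.2.unpair.2) := by
      intro d hd
      rw [enc_three]
      unfold RQ
      simp only [Nat.unpair_pair]
      rw [hd]
    constructor
    · intro hy
      filter_upwards [hy, hPm] with d h1 h2
      exact (e1 d h2).1 h1
    · intro hy
      filter_upwards [hy, hPm] with d h1 h2
      exact (e1 d h2).2 h1
  -- hypothesis of collection
  obtain ⟨t0, ht0⟩ := hB 1 φ ⟨0, φ, hφ, rfl⟩ (fun _ : Fin 1 => Pm) a (by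
    intro x _
    by_cases hI : Ini U u (rep x)
    · have h1 : IsPre F U (BB P u) (fun d => X (P d) (rep x d) + 1) :=
        (h.pre_X (rep_pre x).1 hI).comp Primrec.succ.to_comp
      obtain ⟨v, hv⟩ := exists_rep _ h1
      refine ⟨v, ?_⟩
      refine (key x v).2 ?_
      rintro ⟨y, hy⟩
      obtain ⟨d, hd1, hd2⟩ := (hv.and hy).exists
      have h2 := hd2.1
      rw [hd1] at h2
      have h3 := P3_le_X (h.good d) h2.2
      omega
    · obtain ⟨j, hj⟩ := (h.not_ini_iff (rep_pre x).1).1 hI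
      have h1 : IsPre F U (BB P u) (fun d => Nat.pair (Nat.pair (u j d) (s j d))
          (X (P d) (u j d) + 1)) :=
        ((hupre j).pair (hspre j)).pair ((hXpre j).comp Primrec.succ.to_comp)
      obtain ⟨v, hv⟩ := exists_rep _ h1
      refine ⟨v, ?_⟩
      refine (key x v).2 ?_
      rintro ⟨y, hy⟩
      obtain ⟨k, hk⟩ := (rep_pre y).2
      obtain ⟨d, hd1, hd2, hd3, hd4, hd5, hd6⟩ :=
        (hv.and (hy.and (hj.and (hk.and ((h.pos j).and (h.u_lt_e k j)))))).exists
      have h2 := hd2.2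
      rw [hd1] at h2
      simp only [Nat.unpair_pair] at h2
      have hge : X (P d) (u j d) + 1 ≤ Nat.pair (Nat.pair (u j d) (s j d))
          (X (P d) (u j d) + 1) := Nat.right_le_pair _ _
      rcases h2 with h2 | h2 | h2
      · exact h2 ⟨hd5.1, hd5.2, by omega⟩
      · have h3 := P3_le_X (h.good d) h2.2
        omega
      · have h3 : X (P d) (u j d) < (rep y d).unpair.2.unpair.2 := by omega
        have h4 := X_complete (h.good d) hd5.1 hd5.2 h3 h2.2
        have h5 : (rep y d).unpair.2.unpair.2 ≤ rep y d :=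
          (Nat.unpair_right_le _).trans (Nat.unpair_right_le _)
        have h6 : rep y d ≤ X (P d) (u k d) := hd4
        have h7 : X (P d) (u k d) ≤ X (P d) (u j d + 2 ^ (s j d) - 1) :=
          (X_strictMono (h.good d)).monotone (by omega)
        omega)
  obtain ⟨j, hj⟩ := h.lt_X_u (rep_pre t0)
  obtain ⟨x, hx⟩ := exists_rep _ (hupre j)
  have hxa : x < a := by
    rw [lt_iff]
    filter_upwards [hx, ha, h.u_lt_e j 0] with d h1 h2 h3
    rw [h1, h2]
    exact h3
  obtain ⟨v, hvt, hv⟩ := ht0 x hxa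
  rw [lt_iff] at hvt
  have hv' := (key x v).1 hv
  apply hv'
  have hvlt : ∀ᶠ d in (U : Filter ℕ), rep v d < X (P d) (u j d) := by
    filter_upwards [hvt, hj] with d h1 h2
    exact h1.trans h2
  have hzero : IsPre F U (BB P u) (fun _ => 0) := IsPre.const 0
  by_cases hc : ∀ᶠ d in (U : Filter ℕ), (0 < (rep v d).unpair.1.unpair.1 ∧
      2 ^ (rep v d).unpair.1.unpair.2 ∣ (rep v d).unpair.1.unpair.1 ∧
      (rep v d).unpair.1.unpair.1 + 2 ^ (rep v d).unpair.1.unpair.2 ≤ u j d + 1)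
  · -- the top of the node of `v`
    have hg : Computable (fun n : ℕ => n.unpair.1.unpair.1 + 2 ^ n.unpair.1.unpair.2 - 1) := by
      have hp : Primrec₂ (fun a b : ℕ => a ^ b) := Primrec₂.unpaired'.1 Nat.Primrec.pow
      have u1 : Primrec (fun n : ℕ => n.unpair.1) := Primrec.fst.comp Primrec.unpair
      have u2 : Primrec (fun n : ℕ => n.unpair.2) := Primrec.snd.comp Primrec.unpair
      exact (Primrec.nat_sub.comp (Primrec.nat_add.comp (u1.comp u1)
        (hp.comp (Primrec.const 2) (u2.comp u1))) (Primrec.const 1)).to_comp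
    have hfm : (fun d => (rep v d).unpair.1.unpair.1 + 2 ^ (rep v d).unpair.1.unpair.2 - 1) ∈ F :=
      h.comp _ hg _ (rep_pre v).1
    have hfI : Ini U u (fun d => (rep v d).unpair.1.unpair.1 +
        2 ^ (rep v d).unpair.1.unpair.2 - 1) := by
      refine (h.ini_u j).of_le ?_
      filter_upwards [hc] with d hd
      omega
    have h1 := h.pre_X hfm hfI
    have hadd : Computable (fun n : ℕ => n.unpair.1 + n.unpair.2 + 1) := by
      have u1 : Primrec (fun n : ℕ => n.unpair.1) := Primrec.fst.comp Primrec.unpair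
      have u2 : Primrec (fun n : ℕ => n.unpair.2) := Primrec.snd.comp Primrec.unpair
      exact (Primrec.succ.comp (Primrec.nat_add.comp u1 u2)).to_comp
    have h2 := (h1.pair (rep_pre v)).comp hadd
    simp only [Nat.unpair_pair] at h2
    obtain ⟨y, hy⟩ := exists_rep _ ((hXpre j).pair (hzero.pair h2))
    refine ⟨y, ?_⟩
    filter_upwards [hy, hx, hvlt, hc] with d d1 d2 d3 d4
    rw [d1, d2]
    simp only [Nat.unpair_pair]
    refine ⟨⟨d3.le, (len_X (h.good d) _).le⟩, Or.inr (Or.inr ⟨by omega, ?_⟩)⟩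
    have h3 := lt_len_of_X_lt (h.good d) (r := (rep v d).unpair.1.unpair.1 +
      2 ^ (rep v d).unpair.1.unpair.2 - 1) (t := X (P d) ((rep v d).unpair.1.unpair.1 +
      2 ^ (rep v d).unpair.1.unpair.2 - 1) + rep v d + 1) (by omega)
    omega
  · rw [← Ultrafilter.eventually_not] at hc
    obtain ⟨y, hy⟩ := exists_rep _ ((hXpre j).pair (hzero.pair hzero))
    refine ⟨y, ?_⟩
    filter_upwards [hy, hx, hvlt, hc] with d d1 d2 d3 d4
    rw [d1, d2]
    simp only [Nat.unpair_pair]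
    exact ⟨⟨d3.le, (len_X (h.good d) _).le⟩, Or.inl d4⟩

end


/-! ### part 25016 -/

section

variable {F : Set (ℕ → ℕ)} {U : Ultrafilter ℕ} {P : ℕ → ℕ} {u s : ℕ → ℕ → ℕ}













variable [hA : Fact (Adm F U (BB P u))]



theorem leKS_halt_prim {α : Type*} [Primcodable α] (c : ℕ) {w q z : α → ℕ} (hw : Primrec w)
    (hq : Primrec q) (hz : Primrec z) :
    PrimrecPred fun a => halt (w a) (Nat.pair c (Nat.pair (q a) (z a))) = true :=
  Primrec.eq.comp (halt_primrec.comp hw (Primrec₂.natPair.comp (Primrec.const c)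
    (Primrec₂.natPair.comp hq hz))) (Primrec.const true)

theorem leKS_bit {α : Type*} [Primcodable α] {a z : α → ℕ} (ha : Primrec a) (hz : Primrec z) :
    PrimrecPred fun x => Nat.testBit (a x) (z x) = true := by
  have h : PrimrecPred fun x => a x / 2 ^ (z x) % 2 = 1 :=
    Primrec.eq.comp (Primrec.nat_mod.comp (Primrec.nat_div.comp ha
      (aux_pow.comp (Primrec.const 2) hz)) (Primrec.const 2)) (Primrec.const 1)
  refine h.of_eq ?_
  intro x
  rw [Nat.testBit_eq_decide_div_mod_eq, decide_eq_true_iff]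

theorem leKS_R1 (c : ℕ) : PrimrecRel (fun n w : ℕ => ∀ z < n.unpair.2,
    Nat.testBit n.unpair.2 z = true →
    halt w (Nat.pair c (Nat.pair n.unpair.1 z)) = true) := by
  show PrimrecPred fun p : ℕ × ℕ => ∀ z < p.1.unpair.2, Nat.testBit p.1.unpair.2 z = true →
    halt p.2 (Nat.pair c (Nat.pair p.1.unpair.1 z)) = true
  refine aux_all_lt (α := ℕ × ℕ) (R := fun z p => Nat.testBit p.1.unpair.2 z = true →
    halt p.2 (Nat.pair c (Nat.pair p.1.unpair.1 z)) = true) ?_
    (Primrec.snd.comp (Primrec.unpair.comp Primrec.fst))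
  have hz : Primrec fun r : ℕ × ℕ × ℕ => r.1 := Primrec.fst
  have hn : Primrec fun r : ℕ × ℕ × ℕ => r.2.1.unpair :=
    Primrec.unpair.comp (Primrec.fst.comp Primrec.snd)
  have hw : Primrec fun r : ℕ × ℕ × ℕ => r.2.2 := Primrec.snd.comp Primrec.snd
  have h1 := leKS_bit (Primrec.snd.comp hn) hz
  have h2 := leKS_halt_prim c hw (Primrec.fst.comp hn) hz
  refine (h1.not.or h2).of_eq ?_
  intro r
  tauto

theorem leKS_R' (c : ℕ) : PrimrecRel (fun n w : ℕ => ∃ z < n.unpair.2,
    Nat.testBit n.unpair.2 z = true ∧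
    halt w (Nat.pair c (Nat.pair n.unpair.1 z)) = true) := by
  show PrimrecPred fun p : ℕ × ℕ => ∃ z < p.1.unpair.2, Nat.testBit p.1.unpair.2 z = true ∧
    halt p.2 (Nat.pair c (Nat.pair p.1.unpair.1 z)) = true
  refine aux_ex_lt (α := ℕ × ℕ) (R := fun z p => Nat.testBit p.1.unpair.2 z = true ∧
    halt p.2 (Nat.pair c (Nat.pair p.1.unpair.1 z)) = true) ?_
    (Primrec.snd.comp (Primrec.unpair.comp Primrec.fst))
  have hz : Primrec fun r : ℕ × ℕ × ℕ => r.1 := Primrec.fst
  have hn : Primrec fun r : ℕ × ℕ × ℕ => r.2.1.unpair :=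
    Primrec.unpair.comp (Primrec.fst.comp Primrec.snd)
  have hw : Primrec fun r : ℕ × ℕ × ℕ => r.2.2 := Primrec.snd.comp Primrec.snd
  have h1 := leKS_bit (Primrec.snd.comp hn) hz
  have h2 := leKS_halt_prim c hw (Primrec.fst.comp hn) hz
  exact h1.and h2

theorem leKS_R0 (e : ℕ) : PrimrecRel (fun n _w : ℕ => Nat.testBit n.unpair.2.unpair.2.unpair.2
    (Nat.pair e (Nat.pair n.unpair.1 n.unpair.2.unpair.1)) = true) := by
  show PrimrecPred fun p : ℕ × ℕ => Nat.testBit p.1.unpair.2.unpair.2.unpair.2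
    (Nat.pair e (Nat.pair p.1.unpair.1 p.1.unpair.2.unpair.1)) = true
  have hn : Primrec fun r : ℕ × ℕ => r.1.unpair := Primrec.unpair.comp Primrec.fst
  have hn2 : Primrec fun r : ℕ × ℕ => r.1.unpair.2.unpair :=
    Primrec.unpair.comp (Primrec.snd.comp hn)
  have hn3 : Primrec fun r : ℕ × ℕ => r.1.unpair.2.unpair.2.unpair :=
    Primrec.unpair.comp (Primrec.snd.comp hn2)
  exact leKS_bit (Primrec.snd.comp hn3) (Primrec₂.natPair.comp (Primrec.const e)
    (Primrec₂.natPair.comp (Primrec.fst.comp hn) (Primrec.fst.comp hn2)))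

open Classical in
/-- the chosen element -/
noncomputable def leKS_fg (c p w : ℕ) : ℕ :=
  Nat.findGreatest (fun z => Nat.testBit p.unpair.2 z = true ∧
    halt w (Nat.pair c (Nat.pair p.unpair.1 z)) = true) p.unpair.2

theorem leKS_fg_prim (c : ℕ) : Primrec₂ (leKS_fg c) := by
  classical
  show Primrec fun r : ℕ × ℕ => leKS_fg c r.1 r.2
  unfold leKS_fg
  refine Primrec.nat_findGreatest (Primrec.snd.comp (Primrec.unpair.comp Primrec.fst)) ?_
  show PrimrecPred fun p : (ℕ × ℕ) × ℕ => Nat.testBit p.1.1.unpair.2 p.2 = true ∧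
    halt p.1.2 (Nat.pair c (Nat.pair p.1.1.unpair.1 p.2)) = true
  have hz : Primrec fun r : (ℕ × ℕ) × ℕ => r.2 := Primrec.snd
  have hn : Primrec fun r : (ℕ × ℕ) × ℕ => r.1.1.unpair :=
    Primrec.unpair.comp (Primrec.fst.comp Primrec.fst)
  have hw : Primrec fun r : (ℕ × ℕ) × ℕ => r.1.2 := Primrec.snd.comp Primrec.fst
  exact (leKS_bit (Primrec.snd.comp hn) hz).and (leKS_halt_prim c hw (Primrec.fst.comp hn) hz)

theorem leKS_fg_spec {c p w : ℕ} (h : ∃ z < p.unpair.2, Nat.testBit p.unpair.2 z = true ∧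
    halt w (Nat.pair c (Nat.pair p.unpair.1 z)) = true) :
    Nat.testBit p.unpair.2 (leKS_fg c p w) = true ∧
    halt w (Nat.pair c (Nat.pair p.unpair.1 (leKS_fg c p w))) = true := by
  classical
  obtain ⟨z, h1, h2⟩ := h
  unfold leKS_fg
  exact Nat.findGreatest_spec (P := fun z => Nat.testBit p.unpair.2 z = true ∧
    halt w (Nat.pair c (Nat.pair p.unpair.1 z)) = true) h1.le h2

theorem Ctx.le_KS (h : Ctx F U P u s) {S : Set (Mod F U (BB P u))} (hS : SigmaDef true 1 S) :
    TuringLE true S (KS F U P u) := by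
  obtain ⟨c, q, hcq⟩ := sigmaDef_elim hS
  have hSW : S = WS F U P u c q := Set.ext hcq
  obtain ⟨e, he⟩ := search (F := F) (U := U) (B := BB P u) (leKS_R' c)
  refine turing_of (leKS_R1 c) (leKS_R0 e) q ?_ ?_
  · intro a
    rw [hSW, h.fset_sub_WS c q a]
    simp only [Nat.unpair_pair]
  · intro a
    simp only [Nat.unpair_pair]
    obtain ⟨p, hp⟩ := exists_pair q a
    obtain ⟨g, hg⟩ := exists_comp p (g := fun n => Nat.pair e n)
      (Primrec₂.natPair.comp (Primrec.const e) Primrec.id).to_comp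
    have hgK : g ∈ KS F U P u ↔ ∃ z ∈ fset a, z ∈ S := by
      have h1 : g ∈ KS F U P u ↔ ∃ t : Mod F U (BB P u), ∀ᶠ d in (U : Filter ℕ),
          halt (rep t d) (Nat.pair e (rep p d)) = true := by
        constructor
        · rintro ⟨t, ht⟩
          refine ⟨t, ?_⟩
          filter_upwards [ht, hg] with d h1 h2
          rw [← h2]; exact h1
        · rintro ⟨t, ht⟩
          refine ⟨t, ?_⟩
          filter_upwards [ht, hg] with d h1 h2
          rw [h2]; exact h1
      rw [h1, he p]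
      constructor
      · rintro ⟨w, hw⟩
        obtain ⟨z, hz⟩ := exists_comp₂ p w (leKS_fg_prim c).to_comp
        refine ⟨z, (mem_fset_iff z a).2 ?_, (hcq z).2 ⟨w, ?_⟩⟩
        · filter_upwards [hw, hz, hp] with d h1 h2 h3
          have h4 := (leKS_fg_spec h1).1
          rw [← h2] at h4
          rw [h3, Nat.unpair_pair] at h4
          exact h4
        · filter_upwards [hw, hz, hp] with d h1 h2 h3
          have h4 := (leKS_fg_spec h1).2
          rw [← h2] at h4
          rw [h3, Nat.unpair_pair] at h4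
          exact h4
      · rintro ⟨z, hz1, hz2⟩
        obtain ⟨w, hw⟩ := (hcq z).1 hz2
        refine ⟨w, ?_⟩
        filter_upwards [hw, (mem_fset_iff z a).1 hz1, hp] with d h1 h2 h3
        rw [h3, Nat.unpair_pair]
        refine ⟨rep z d, ?_, h2, h1⟩
        by_contra hcon
        push Not at hcon
        rw [Nat.testBit_lt_two_pow (lt_of_le_of_lt hcon Nat.lt_two_pow_self)] at h2
        exact Bool.false_ne_true h2
    have h2 : fset a ⊆ Sᶜ ↔ g ∉ KS F U P u := by
      rw [hgK]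
      constructor
      · rintro h3 ⟨z, hz1, hz2⟩
        exact h3 hz1 hz2
      · intro h3 z hz1 hz2
        exact h3 ⟨z, hz1, hz2⟩
    rw [h2]
    constructor
    · intro h3
      obtain ⟨t, ht⟩ := exists_comp g (g := fun n => 2 ^ n)
        (aux_pow.comp (Primrec.const 2) Primrec.id).to_comp
      obtain ⟨σ, hσ⟩ := exists_const (F := F) (U := U) (B := BB P u) 0
      refine ⟨σ, t, ?_, ?_, σ, ?_⟩
      · intro x hx
        exfalso
        have h4 := (mem_fset_iff x σ).1 hx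
        obtain ⟨d, h5, h6⟩ := (h4.and hσ).exists
        rw [h6, Nat.zero_testBit] at h5
        exact Bool.false_ne_true h5
      · intro x hx
        have h4 := (mem_fset_iff x t).1 hx
        have h5 : x = g := by
          refine rep_ext ?_
          filter_upwards [h4, ht] with d h6 h7
          rw [h7, Nat.testBit_two_pow] at h6
          exact (of_decide_eq_true h6).symm
        rw [h5]
        exact h3
      · filter_upwards [ht, hg, hp] with d h6 h7 h8
        rw [h6, ← h8, ← h7, Nat.testBit_two_pow]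
        exact decide_eq_true rfl
    · rintro ⟨σ, t, -, ht, w, hw⟩
      refine ht ((mem_fset_iff g t).2 ?_)
      filter_upwards [hw, hg, hp] with d h6 h7 h8
      rw [h7, h8]
      exact h6

end


/-! ### part 25020 -/

section

variable {F : Set (ℕ → ℕ)} {U : Ultrafilter ℕ} {P : ℕ → ℕ} {u s : ℕ → ℕ → ℕ}
















variable [hA : Fact (Adm F U (BB P u))]




/-- least element with a bound -/
def l9bf (c q b x x' : ℕ) : ℕ := (List.range b).findIdx
  (fun z => halt x' (Nat.pair c (Nat.pair q z)) && !halt x (Nat.pair c (Nat.pair q z)))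

theorem l9bf_eq_bfun (c q x x' : ℕ) : bfun c q x x' = l9bf c q x x x' := rfl

theorem l9bf_le (c q b x x' : ℕ) : l9bf c q b x x' ≤ b := by
  unfold l9bf
  refine le_trans List.findIdx_le_length ?_
  simp

theorem l9bf_min {c q b x x' z : ℕ} (h : z < l9bf c q b x x') :
    halt x' (Nat.pair c (Nat.pair q z)) = true → halt x (Nat.pair c (Nat.pair q z)) = true := by
  intro h1
  unfold l9bf at h
  have h2 := List.not_of_lt_findIdx h
  have h3 : ((List.range b)[z]'(by
      have := lt_of_lt_of_le h List.findIdx_le_length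
      exact this)) = z := by simp
  rw [h3] at h2
  rw [h1] at h2
  simpa using h2

theorem l9bf_spec {c q b x x' : ℕ} (h : l9bf c q b x x' < b) :
    halt x' (Nat.pair c (Nat.pair q (l9bf c q b x x'))) = true ∧
      halt x (Nat.pair c (Nat.pair q (l9bf c q b x x'))) = false := by
  have hl : (List.range b).findIdx
    (fun z => halt x' (Nat.pair c (Nat.pair q z)) && !halt x (Nat.pair c (Nat.pair q z))) <
      (List.range b).length := by
    rw [List.length_range]
    exact h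
  have h2 := List.findIdx_getElem (xs := List.range b)
    (p := fun z => halt x' (Nat.pair c (Nat.pair q z)) && !halt x (Nat.pair c (Nat.pair q z)))
    (w := hl)
  rw [List.getElem_range] at h2
  simpa [l9bf] using h2

theorem l9bf_le_of {c q b x x' z : ℕ} (_hz : z < b)
    (h1 : halt x' (Nat.pair c (Nat.pair q z)) = true)
    (h2 : halt x (Nat.pair c (Nat.pair q z)) = false) : l9bf c q b x x' ≤ z := by
  by_contra hcon
  have := l9bf_min (not_le.1 hcon) h1
  rw [this] at h2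
  exact absurd h2 (by simp)

theorem l9bf_primrec (c : ℕ) : Primrec (fun n : ℕ => l9bf c n.unpair.1 n.unpair.2.unpair.1
    n.unpair.2.unpair.2.unpair.1 n.unpair.2.unpair.2.unpair.2) := by
  unfold l9bf
  have u1 : Primrec (fun n : ℕ => n.unpair.1) := Primrec.fst.comp Primrec.unpair
  have u2 : Primrec (fun n : ℕ => n.unpair.2) := Primrec.snd.comp Primrec.unpair
  refine Primrec.list_findIdx (Primrec.list_range.comp (u1.comp u2)) ?_
  have hpc : Primrec (fun p : ℕ × ℕ => Nat.pair c (Nat.pair p.1.unpair.1 p.2)) :=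
    Primrec₂.natPair.comp (Primrec.const c)
      (Primrec₂.natPair.comp (u1.comp Primrec.fst) Primrec.snd)
  have h1 : Primrec (fun p : ℕ × ℕ => halt p.1.unpair.2.unpair.2.unpair.2
      (Nat.pair c (Nat.pair p.1.unpair.1 p.2))) :=
    halt_primrec.comp (u2.comp (u2.comp (u2.comp Primrec.fst))) hpc
  have h2 : Primrec (fun p : ℕ × ℕ => halt p.1.unpair.2.unpair.2.unpair.1
      (Nat.pair c (Nat.pair p.1.unpair.1 p.2))) :=
    halt_primrec.comp (u1.comp (u2.comp (u2.comp Primrec.fst))) hpc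
  exact Primrec.and.comp h1 (Primrec.not.comp h2)

theorem l9_pc_mono (c q : ℕ) {z a : ℕ} (h : z ≤ a) :
    Nat.pair c (Nat.pair q z) ≤ Nat.pair c (Nat.pair q a) := by
  rcases h.eq_or_lt with h | h
  · rw [h]
  · exact (Nat.pair_lt_pair_right _ (Nat.pair_lt_pair_right _ h)).le

theorem Ctx.l9_quiet_WS (h : Ctx F U P u s) (c : ℕ) (q a : Mod F U (BB P u)) :
    ∃ j, ∀ z ∈ WS F U P u c q, (∀ᶠ d in (U : Filter ℕ), rep z d ≤ rep a d) →
      ∀ᶠ d in (U : Filter ℕ), halt (X (P d) (u j d))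
        (Nat.pair c (Nat.pair (rep q d) (rep z d))) = true := by
  obtain ⟨cc, hcc⟩ := exists_const (F := F) (U := U) (B := BB P u) c
  obtain ⟨b1, hb1⟩ := exists_pair q a
  obtain ⟨b, hb⟩ := exists_pair cc b1
  obtain ⟨j, hj⟩ := h.quiet b
  refine ⟨j, fun z hz hza => ?_⟩
  obtain ⟨t, ht⟩ := hz
  obtain ⟨w1, hw1⟩ := exists_pair q z
  obtain ⟨w, hw⟩ := exists_pair cc w1
  have h1 := hj w (by
    filter_upwards [hcc, hb1, hb, hw1, hw, hza] with d e1 e2 e3 e4 e5 e6
    rw [e5, e4, e3, e2, e1]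
    exact l9_pc_mono _ _ e6) ⟨t, by
      filter_upwards [hcc, hw1, hw, ht] with d e1 e4 e5 e6
      rw [e5, e4, e1]
      exact e6⟩
  filter_upwards [hcc, hw1, hw, h1] with d e1 e4 e5 e6
  rw [e5, e4, e1] at e6
  exact e6

theorem Ctx.exists_l9bf (c : ℕ) (q b x x' : Mod F U (BB P u)) :
    ∃ z : Mod F U (BB P u), ∀ᶠ d in (U : Filter ℕ),
      rep z d = l9bf c (rep q d) (rep b d) (rep x d) (rep x' d) := by
  obtain ⟨p1, hp1⟩ := exists_pair x x'
  obtain ⟨p2, hp2⟩ := exists_pair b p1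
  obtain ⟨p3, hp3⟩ := exists_pair q p2
  obtain ⟨z, hz⟩ := exists_comp p3 (l9bf_primrec c).to_comp
  refine ⟨z, ?_⟩
  filter_upwards [hp1, hp2, hp3, hz] with d e1 e2 e3 e4
  rw [e4, e3, e2, e1]
  simp only [Nat.unpair_pair]

theorem Ctx.l9_exists_X (h : Ctx F U P u s) {r : ℕ → ℕ} (hr : r ∈ F) (hI : Ini U u r) :
    ∃ z : Mod F U (BB P u), ∀ᶠ d in (U : Filter ℕ), rep z d = X (P d) (r d) :=
  exists_rep _ (h.pre_X hr hI)

theorem Ctx.l9_succ_mem (h : Ctx F U P u s) {r : ℕ → ℕ} (hr : r ∈ F) : (fun d => r d + 1) ∈ F :=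
  h.comp Nat.succ Computable.succ r hr

theorem Ctx.l9_fact (h : Ctx F U P u s) (c : ℕ) (q a : Mod F U (BB P u)) {j0 j1 : ℕ}
    (hj1 : ∀ z ∈ WS F U P u c q, (∀ᶠ d in (U : Filter ℕ), rep z d ≤ rep a d) →
      ∀ᶠ d in (U : Filter ℕ), halt (X (P d) (u j1 d))
        (Nat.pair c (Nat.pair (rep q d) (rep z d))) = true)
    (h10 : j1 ≤ j0)
    (ha : ∀ᶠ d in (U : Filter ℕ), rep a d < X (P d) (u j0 d))
    {r : ℕ → ℕ} (hr : r ∈ F) (hI : Ini U u r) (hr0 : ∀ᶠ d in (U : Filter ℕ), u j0 d ≤ r d) :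
    ∀ᶠ d in (U : Filter ℕ), rep a d ≤ bb (P d) c (rep q d) (r d) := by
  by_contra hcon
  rw [← Ultrafilter.eventually_not] at hcon
  obtain ⟨x, hx⟩ := h.l9_exists_X hr hI
  obtain ⟨x', hx'⟩ := h.l9_exists_X (h.l9_succ_mem hr) (h.ini_succ hI)
  obtain ⟨z, hz⟩ := Ctx.exists_l9bf (P := P) (u := u) c q x x x'
  have hzbb : ∀ᶠ d in (U : Filter ℕ), rep z d = bb (P d) c (rep q d) (r d) := by
    filter_upwards [hx, hx', hz] with d e1 e2 e3
    rw [e3, e1, e2]
    rfl
  have key : ∀ᶠ d in (U : Filter ℕ), rep z d < rep a d ∧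
      halt (rep x' d) (Nat.pair c (Nat.pair (rep q d) (rep z d))) = true ∧
      halt (X (P d) (r d)) (Nat.pair c (Nat.pair (rep q d) (rep z d))) = false := by
    filter_upwards [hx, hx', hz, hzbb, hcon, ha, hr0] with d e1 e2 e3 e4 e5 e6 e7
    rw [not_le, ← e4] at e5
    have e8 : X (P d) (u j0 d) ≤ X (P d) (r d) := (X_strictMono (h.good d)).monotone e7
    have e9 : l9bf c (rep q d) (rep x d) (rep x d) (rep x' d) < rep x d := by
      rw [← e3, e1]
      omega
    have e10 := l9bf_spec e9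
    rw [← e3] at e10
    refine ⟨e5, e10.1, ?_⟩
    rw [← e1]
    exact e10.2
  have hzW : z ∈ WS F U P u c q := ⟨x', by
    filter_upwards [key] with d e
    exact e.2.1⟩
  have h2 := hj1 z hzW (by
    filter_upwards [key] with d e
    exact e.1.le)
  obtain ⟨d, ⟨e1, e2, e3⟩, e4, e5, e6⟩ := (key.and (h2.and (hr0.and (h.u_mono h10)))).exists
  have e7 : X (P d) (u j1 d) ≤ X (P d) (r d) :=
    (X_strictMono (h.good d)).monotone (e6.trans e5)
  have e8 := halt_mono e7 e4
  rw [e8] at e3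
  exact absurd e3 (by simp)

theorem l9_pick_Rlast (P v z : ℕ) : pick Rlast (Nat.pair P (Nat.pair v z)) =
    Nat.findGreatest (fun r => halt (X P r) z = false) v := by
  have h := pick_spec (R := Rlast) (n := Nat.pair P (Nat.pair v z)) ⟨_, rfl⟩
  unfold Rlast at h
  simp only [Nat.unpair_pair] at h
  exact h

theorem l9_last_spec {P v z r0 : ℕ} (hP : Good P) (h0 : halt (X P r0) z = false)
    (hv : halt (X P v) z = true) :
    r0 ≤ Nat.findGreatest (fun r => halt (X P r) z = false) v ∧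
    Nat.findGreatest (fun r => halt (X P r) z = false) v < v ∧
    halt (X P (Nat.findGreatest (fun r => halt (X P r) z = false) v)) z = false ∧
    halt (X P (Nat.findGreatest (fun r => halt (X P r) z = false) v + 1)) z = true := by
  have h1 : r0 < v := by
    by_contra hcon
    have := halt_mono ((X_strictMono hP).monotone (not_lt.1 hcon)) hv
    rw [this] at h0
    exact absurd h0 (by simp)
  have h2 : r0 ≤ Nat.findGreatest (fun r => halt (X P r) z = false) v :=
    Nat.le_findGreatest h1.le h0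
  have h3 : halt (X P (Nat.findGreatest (fun r => halt (X P r) z = false) v)) z = false :=
    Nat.findGreatest_spec (P := fun r => halt (X P r) z = false) h1.le h0
  have h4 : Nat.findGreatest (fun r => halt (X P r) z = false) v ≤ v := Nat.findGreatest_le v
  have h5 : Nat.findGreatest (fun r => halt (X P r) z = false) v ≠ v := by
    intro h
    rw [h, hv] at h3
    exact absurd h3 (by simp)
  refine ⟨h2, lt_of_le_of_ne h4 h5, h3, ?_⟩
  have h6 := Nat.findGreatest_is_greatest (P := fun r => halt (X P r) z = false) (n := v)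
    (k := Nat.findGreatest (fun r => halt (X P r) z = false) v + 1) (Nat.lt_succ_self _)
    (lt_of_le_of_ne h4 h5)
  simpa using h6

theorem Ctx.true_unbounded (h : Ctx F U P u s) (c : ℕ) (q a : Mod F U (BB P u)) :
    ∃ r ∈ F, Ini U u r ∧ (∀ᶠ d in (U : Filter ℕ), rep a d ≤ bb (P d) c (rep q d) (r d)) ∧
      ¬ Ini U u (fun d => yy (P d) c (rep q d) (EE u s d) (r d)) := by
  obtain ⟨j1, hj1⟩ := h.l9_quiet_WS c q a
  obtain ⟨j2, hj2⟩ := h.lt_X_u (rep_pre a)
  set j0 := max j1 j2 with hj0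
  have ha : ∀ᶠ d in (U : Filter ℕ), rep a d < X (P d) (u j0 d) := by
    filter_upwards [hj2, h.u_mono (le_max_right j1 j2)] with d e1 e2
    exact lt_of_lt_of_le e1 ((X_strictMono (h.good d)).monotone e2)
  have FACT : ∀ {r : ℕ → ℕ}, r ∈ F → Ini U u r → (∀ᶠ d in (U : Filter ℕ), u j0 d ≤ r d) →
      ∀ᶠ d in (U : Filter ℕ), rep a d ≤ bb (P d) c (rep q d) (r d) := fun hr hI hr0 =>
    h.l9_fact c q a hj1 (le_max_left j1 j2) ha hr hI hr0
  by_cases hcase : ∀ z ∈ WS F U P u c q, ∀ᶠ d in (U : Filter ℕ), halt (X (P d) (u j0 d))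
        (Nat.pair c (Nat.pair (rep q d) (rep z d))) = true
  · refine ⟨u j0, h.umem j0, h.ini_u j0, FACT (h.umem j0) (h.ini_u j0)
      (Eventually.of_forall fun d => le_rfl), ?_⟩
    exact (h.true_iff c q (h.umem j0) (h.ini_u j0)).2 (fun z hz _ => hcase z hz)
  · push Not at hcase
    obtain ⟨z', hz'W, hz'⟩ := hcase
    have hz'0 : ∀ᶠ d in (U : Filter ℕ), halt (X (P d) (u j0 d))
        (Nat.pair c (Nat.pair (rep q d) (rep z' d))) = false := by
      have h1 : ¬ ∀ᶠ d in (U : Filter ℕ), halt (X (P d) (u j0 d))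
        (Nat.pair c (Nat.pair (rep q d) (rep z' d))) = true := by
        simpa using hz'
      rw [← Ultrafilter.eventually_not] at h1
      filter_upwards [h1] with d e
      simpa using e
    obtain ⟨j3, hj3⟩ := h.l9_quiet_WS c q z'
    obtain ⟨x, hx⟩ := h.l9_exists_X (h.umem j0) (h.ini_u j0)
    obtain ⟨x', hx'⟩ := h.l9_exists_X (h.umem j3) (h.ini_u j3)
    obtain ⟨b, hb⟩ := exists_comp z' (g := Nat.succ) Computable.succ
    obtain ⟨z0, hz0⟩ := Ctx.exists_l9bf (P := P) (u := u) c q b x x'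
    have hz'3 := hj3 z' hz'W (Eventually.of_forall fun d => le_rfl)
    -- properties of `z0`
    have key : ∀ᶠ d in (U : Filter ℕ), rep z0 d ≤ rep z' d ∧
        halt (X (P d) (u j3 d)) (Nat.pair c (Nat.pair (rep q d) (rep z0 d))) = true ∧
        halt (X (P d) (u j0 d)) (Nat.pair c (Nat.pair (rep q d) (rep z0 d))) = false ∧
        ∀ z < rep z0 d, halt (X (P d) (u j3 d)) (Nat.pair c (Nat.pair (rep q d) z)) = true →
          halt (X (P d) (u j0 d)) (Nat.pair c (Nat.pair (rep q d) z)) = true := by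
      filter_upwards [hx, hx', hb, hz0, hz'0, hz'3] with d e1 e2 e3 e4 e5 e6
      have e7 : rep z0 d ≤ rep z' d := by
        rw [e4]
        refine l9bf_le_of (by rw [e3]; exact Nat.lt_succ_self _) ?_ ?_
        · rw [e2]; exact e6
        · rw [e1]; exact e5
      have e8 : l9bf c (rep q d) (rep b d) (rep x d) (rep x' d) < rep b d := by
        rw [← e4, e3]
        omega
      have e9 := l9bf_spec e8
      rw [← e4, e1, e2] at e9
      refine ⟨e7, e9.1, e9.2, ?_⟩
      intro z hz hh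
      rw [e4] at hz
      rw [← e1]
      rw [← e2] at hh
      exact l9bf_min hz hh
    -- the function `r`
    set r : ℕ → ℕ := fun d => Sacks.pick Rlast (Nat.pair (P d) (Nat.pair (u j3 d)
      (Nat.pair c (Nat.pair (rep q d) (rep z0 d))))) with hrdef
    have hrF : r ∈ F := by
      refine h.pick Rlast (by simp [RR]) (fun d => Nat.pair (P d) (Nat.pair (u j3 d)
        (Nat.pair c (Nat.pair (rep q d) (rep z0 d))))) ?_
      refine h.pair _ h.Pmem _ ?_
      refine h.pair _ (h.umem j3) _ ?_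
      refine h.pair _ (h.const c) _ ?_
      exact h.pair _ (rep_pre q).1 _ (rep_pre z0).1
    have key2 : ∀ᶠ d in (U : Filter ℕ), u j0 d ≤ r d ∧ r d < u j3 d ∧
        halt (X (P d) (r d)) (Nat.pair c (Nat.pair (rep q d) (rep z0 d))) = false ∧
        halt (X (P d) (r d + 1)) (Nat.pair c (Nat.pair (rep q d) (rep z0 d))) = true := by
      filter_upwards [key] with d e
      have e1 := l9_last_spec (h.good d) e.2.2.1 e.2.1
      have e2 : r d = Nat.findGreatest (fun r => halt (X (P d) r)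
          (Nat.pair c (Nat.pair (rep q d) (rep z0 d))) = false) (u j3 d) := l9_pick_Rlast _ _ _
      rw [← e2] at e1
      exact e1
    have hI : Ini U u r := ⟨j3, by
      filter_upwards [key2] with d e
      exact e.2.1⟩
    have hr0 : ∀ᶠ d in (U : Filter ℕ), u j0 d ≤ r d := by
      filter_upwards [key2] with d e
      exact e.1
    have hbb : ∀ᶠ d in (U : Filter ℕ), bb (P d) c (rep q d) (r d) ≤ rep z0 d := by
      filter_upwards [key2] with d e
      unfold bb
      rw [l9bf_eq_bfun]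
      rcases lt_or_ge (rep z0 d) (X (P d) (r d)) with e1 | e1
      · exact l9bf_le_of e1 e.2.2.2 e.2.2.1
      · exact (l9bf_le _ _ _ _ _).trans e1
    refine ⟨r, hrF, hI, FACT hrF hI hr0, ?_⟩
    refine (h.true_iff c q hrF hI).2 (fun z hz hzb => ?_)
    have h3 := hj3 z hz (by
      filter_upwards [hzb, hbb, key] with d e1 e2 e3
      omega)
    filter_upwards [h3, hzb, hbb, key, hr0] with d e1 e2 e3 e4 e5
    have e6 := e4.2.2.2 (rep z d) (lt_of_lt_of_le e2 e3) e1
    exact halt_mono ((X_strictMono (h.good d)).monotone e5) e6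


end


/-! ### part 25023 -/

section

variable {F : Set (ℕ → ℕ)} {U : Ultrafilter ℕ} {P : ℕ → ℕ} {u s : ℕ → ℕ → ℕ}



















variable [hA : Fact (Adm F U (BB P u))]











theorem c2_lt_of_testBit {a z : ℕ} (h : Nat.testBit a z = true) : z < a :=
  lt_of_lt_of_le Nat.lt_two_pow_self (Nat.ge_two_pow_of_testBit h)

theorem c2_fs_primrec : Primrec fs := Primrec.fst.comp Primrec.unpair
theorem c2_sn_primrec : Primrec sn := Primrec.snd.comp Primrec.unpair

theorem c2_fs_pair (a b : ℕ) : fs (Nat.pair a b) = a := by unfold fs; rw [Nat.unpair_pair]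
theorem c2_sn_pair (a b : ℕ) : sn (Nat.pair a b) = b := by unfold sn; rw [Nat.unpair_pair]

/-- the positive certificate -/
def R1C (c n w : ℕ) : Prop := ∀ z < sn n, Nat.testBit (sn n) z = true →
  halt w (Nat.pair c (Nat.pair (fs (fs n)) z)) = true

theorem R1C_primrec (c : ℕ) : PrimrecRel (R1C c) := by
  have hR : PrimrecPred (fun q : ℕ × (ℕ × ℕ) => Nat.testBit (sn q.2.1) q.1 = true →
      halt q.2.2 (Nat.pair c (Nat.pair (fs (fs q.2.1)) q.1)) = true) := by
    have h1 : PrimrecPred (fun q : ℕ × (ℕ × ℕ) => sn q.2.1 / 2 ^ q.1 % 2 = 1) :=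
      Primrec.eq.comp (Primrec.nat_mod.comp (Primrec.nat_div.comp
        (c2_sn_primrec.comp (Primrec.fst.comp Primrec.snd))
        (aux_pow.comp (Primrec.const 2) Primrec.fst)) (Primrec.const 2)) (Primrec.const 1)
    have h2 : PrimrecPred (fun q : ℕ × (ℕ × ℕ) =>
        halt q.2.2 (Nat.pair c (Nat.pair (fs (fs q.2.1)) q.1)) = true) :=
      Primrec.eq.comp (halt_primrec.comp (Primrec.snd.comp Primrec.snd)
        (Primrec₂.natPair.comp (Primrec.const c) (Primrec₂.natPair.comp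
          (c2_fs_primrec.comp (c2_fs_primrec.comp (Primrec.fst.comp Primrec.snd))) Primrec.fst)))
        (Primrec.const true)
    refine (h1.not.or h2).of_eq ?_
    rintro ⟨z, n, w⟩
    simp only [Nat.testBit_eq_decide_div_mod_eq, decide_eq_true_eq]
    tauto
  exact aux_all_lt (α := ℕ × ℕ) (R := fun z p => Nat.testBit (sn p.1) z = true →
      halt p.2 (Nat.pair c (Nat.pair (fs (fs p.1)) z)) = true) hR (c2_sn_primrec.comp Primrec.fst)

theorem c2_or {a b : ℕ} (hab : a < b) : 2 ^ b + 2 ^ a = 2 ^ b ||| 2 ^ a := by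
  have h := Nat.two_pow_add_eq_or_of_lt (i := b) (b := 2 ^ a)
    (Nat.pow_lt_pow_right (by norm_num) hab) 1
  rwa [mul_one] at h

theorem c2_testBit_two {a b z : ℕ} (hab : a < b) (h : Nat.testBit (2 ^ b + 2 ^ a) z = true) :
    z = a ∨ z = b := by
  rw [c2_or hab, Nat.testBit_or, Nat.testBit_two_pow, Nat.testBit_two_pow] at h
  simp only [Bool.or_eq_true, decide_eq_true_eq] at h
  rcases h with h | h
  · exact Or.inr h.symm
  · exact Or.inl h.symm

theorem c2_testBit_a {a b : ℕ} (hab : a < b) : Nat.testBit (2 ^ b + 2 ^ a) a = true := by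
  rw [c2_or hab, Nat.testBit_or, Nat.testBit_two_pow, Nat.testBit_two_pow]
  simp

theorem c2_testBit_b {a b : ℕ} (hab : a < b) : Nat.testBit (2 ^ b + 2 ^ a) b = true := by
  rw [c2_or hab, Nat.testBit_or, Nat.testBit_two_pow, Nat.testBit_two_pow]
  simp

/-- code of the negative information -/
def tauf (n : ℕ) : ℕ :=
  2 ^ (Nat.pair (fs n + 1) (sn (sn n) + 1)) + 2 ^ (Nat.pair (fs n) (fs (sn n) + 1))

theorem tauf_computable : Computable tauf := by
  have h1 : Primrec (fun n : ℕ => 2 ^ (Nat.pair (fs n + 1) (sn (sn n) + 1))) :=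
    aux_pow.comp (Primrec.const 2) (Primrec₂.natPair.comp (Primrec.succ.comp c2_fs_primrec)
      (Primrec.succ.comp (c2_sn_primrec.comp c2_sn_primrec)))
  have h2 : Primrec (fun n : ℕ => 2 ^ (Nat.pair (fs n) (fs (sn n) + 1))) :=
    aux_pow.comp (Primrec.const 2) (Primrec₂.natPair.comp c2_fs_primrec
      (Primrec.succ.comp (c2_fs_primrec.comp c2_sn_primrec)))
  exact (Primrec.nat_add.comp h1 h2).to_comp

theorem tauf_pair (r x x' : ℕ) : tauf (Nat.pair r (Nat.pair x x')) =
    2 ^ (Nat.pair (r + 1) (x' + 1)) + 2 ^ (Nat.pair r (x + 1)) := by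
  unfold tauf
  rw [c2_fs_pair, c2_sn_pair, c2_fs_pair, c2_sn_pair]

theorem c2_pair_lt {r x x' : ℕ} (h : x < x') : Nat.pair r (x + 1) < Nat.pair (r + 1) (x' + 1) :=
  (Nat.pair_lt_pair_left _ (Nat.lt_succ_self r)).trans (Nat.pair_lt_pair_right _ (by omega))

omit hA in
theorem Ctx.c2_P (h : Ctx F U P u s) : IsPre F U (BB P u) P := by
  refine ⟨h.Pmem, 0, Eventually.of_forall fun d => ?_⟩
  exact (lt_X_zero (h.good d)).le.trans ((X_strictMono (h.good d)).monotone (Nat.zero_le _))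

omit hA in
theorem Ctx.c2_ele (h : Ctx F U P u s) (j : ℕ) :
    ∀ᶠ d in (U : Filter ℕ), u j d + 2 ^ (s j d) ≤ EE u s d := by
  induction j with
  | zero => exact Eventually.of_forall fun d => le_rfl
  | succ j ih =>
    filter_upwards [ih, h.nest j] with d h1 h2
    exact h2.2.trans h1

omit hA in
theorem Ctx.c2_emem (h : Ctx F U P u s) (j : ℕ) : (fun d => u j d + 2 ^ (s j d)) ∈ F := by
  have hc : Computable (fun n : ℕ => n.unpair.1 + 2 ^ n.unpair.2) := by
    have hp : Primrec (fun n : ℕ => n.unpair.1 + 2 ^ n.unpair.2) :=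
      Primrec.nat_add.comp (Primrec.fst.comp Primrec.unpair)
        (aux_pow.comp (Primrec.const 2) (Primrec.snd.comp Primrec.unpair))
    exact hp.to_comp
  have h1 := h.comp _ hc _ (h.pair _ (h.umem j) _ (h.smem j))
  simpa only [Nat.unpair_pair] using h1

theorem Ctx.c2_e (h : Ctx F U P u s) (j : ℕ) :
    IsPre F U (BB P u) (fun d => u j d + 2 ^ (s j d)) := by
  refine IsPre.of_le h.c2_P (h.c2_emem j) ?_
  filter_upwards [h.c2_ele j] with d h1
  exact h1.trans (h.EE_le d)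

theorem Ctx.c2_r (h : Ctx F U P u s) {r : ℕ → ℕ} (hr : r ∈ F) (hI : Ini U u r) :
    IsPre F U (BB P u) r :=
  IsPre.of_le (h.pre_X hr hI) hr (Eventually.of_forall fun d => (X_strictMono (h.good d)).le_apply)

theorem Ctx.case2 (h : Ctx F U P u s) (c : ℕ) (q : Mod F U (BB P u)) (j : ℕ)
    (hj : ∀ r ∈ F, Ini U u r → ¬ Ini U u (fun d => yy (P d) c (rep q d) (EE u s d) (r d)) →
      ∀ᶠ d in (U : Filter ℕ), u j d + 2 ^ (s j d) ≤ yy (P d) c (rep q d) (EE u s d) (r d)) :
    TuringLE true (WS F U P u c q) (AS F U P u) := by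
  obtain ⟨yt, hyt⟩ := h.exists_ytab c q
  obtain ⟨Q, hQ⟩ := exists_rep (F := F) (U := U) (B := BB P u)
    (fun d => Nat.pair (rep q d) (Nat.pair (P d) (Nat.pair (rep yt d) (u j d + 2 ^ (s j d)))))
    ((rep_pre q).pair (h.c2_P.pair ((rep_pre yt).pair (h.c2_e j))))
  refine turing_of (R1C_primrec c) (RCase2_primrec c) Q ?_ ?_
  · intro a
    rw [h.fset_sub_WS c q a]
    refine exists_congr fun w => ?_
    constructor
    · intro hw
      filter_upwards [hw, hQ] with d h1 h2
      unfold R1C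
      rw [c2_sn_pair, c2_fs_pair, h2, c2_fs_pair]
      exact h1
    · intro hw
      filter_upwards [hw, hQ] with d h1 h2
      unfold R1C at h1
      rw [c2_sn_pair, c2_fs_pair, h2, c2_fs_pair] at h1
      exact h1
  · intro a
    have hR : ∀ (σ τ w : Mod F U (BB P u)), ∀ᶠ d in (U : Filter ℕ),
        (RCase2 c (Nat.pair (rep Q d) (Nat.pair (rep a d) (Nat.pair (rep σ d) (rep τ d)))) (rep w d) ↔
        Case2 c (rep q d) (P d) (rep yt d) (u j d + 2 ^ (s j d)) (rep a d) (rep τ d)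
          (fs (rep w d)) (fs (sn (rep w d))) (fs (sn (sn (rep w d))))
          (fs (sn (sn (sn (rep w d))))) (sn (sn (sn (sn (rep w d)))))) := by
      intro σ τ w
      filter_upwards [hQ] with d h2
      unfold RCase2
      rw [h2]
      simp only [c2_sn_pair, c2_fs_pair]
    constructor
    · intro ha
      obtain ⟨r, hr, hI, hab, hny⟩ := h.true_unbounded c q a
      have hr1 : (fun d => r d + 1) ∈ F := h.comp _ Primrec.succ.to_comp _ hr
      have px := h.pre_X hr hI
      have px' := h.pre_X hr1 (h.ini_succ hI)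
      have pr := h.c2_r hr hI
      obtain ⟨σ, hσ⟩ := exists_const (F := F) (U := U) (B := BB P u) 0
      obtain ⟨τ, hτ⟩ := exists_rep (F := F) (U := U) (B := BB P u)
        (fun d => tauf (Nat.pair (r d) (Nat.pair (X (P d) (r d)) (X (P d) (r d + 1)))))
        ((pr.pair (px.pair px')).comp tauf_computable)
      obtain ⟨w, hw⟩ := exists_rep (F := F) (U := U) (B := BB P u)
        (fun d => Nat.pair (r d) (Nat.pair (X (P d) (r d)) (Nat.pair (X (P d) (r d))
          (Nat.pair (X (P d) (r d + 1)) (X (P d) (r d + 1))))))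
        (pr.pair (px.pair (px.pair (px'.pair px'))))
      obtain ⟨x, hx⟩ := exists_rep _ px
      refine ⟨σ, τ, ?_, ?_, w, ?_⟩
      · intro z hz
        rw [mem_fset_iff] at hz
        obtain ⟨d, hd1, hd2⟩ := (hz.and hσ).exists
        rw [hd2] at hd1
        simp at hd1
      · rw [h.fset_sub_ASc]
        filter_upwards [hτ] with d h1 z hz
        have hlt : X (P d) (r d) < X (P d) (r d + 1) := X_strictMono (h.good d) (Nat.lt_succ_self _)
        rw [h1, tauf_pair] at hz
        unfold AN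
        rcases c2_testBit_two (c2_pair_lt hlt) hz with rfl | rfl
        · rw [Nat.unpair_pair]; simp
        · rw [Nat.unpair_pair]; simp
      · filter_upwards [hR σ τ w, hτ, hw, hx, hyt, hj r hr hI hny, h.ini_le_EE hI,
          h.not_halt c q a x ha, hab] with d h1 h2 h3 h4 h5 h6 h7 h8 h9
        rw [h1, h3]
        simp only [c2_sn_pair, c2_fs_pair]
        have hlt : X (P d) (r d) < X (P d) (r d + 1) := X_strictMono (h.good d) (Nat.lt_succ_self _)
        refine ⟨?_, ?_, ?_, ?_⟩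
        · refine Cert.of_testBit (h.good d) ?_
          rw [h2, tauf_pair]
          exact c2_testBit_a (c2_pair_lt hlt)
        · refine Cert.of_testBit (h.good d) ?_
          rw [h2, tauf_pair]
          exact c2_testBit_b (c2_pair_lt hlt)
        · rw [h5 _ h7]
          exact h6
        · intro z hz hb
          have h10 := h8 z hz hb
          rw [h4] at h10
          exact ⟨lt_of_lt_of_le hz h9, h10⟩
    · rintro ⟨σ, τ, hσ, hτ, w, hw⟩ z hz hzW
      rw [h.fset_sub_ASc] at hτ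
      have hC : ∀ᶠ d in (U : Filter ℕ),
          Case2 c (rep q d) (P d) (rep yt d) (u j d + 2 ^ (s j d)) (rep a d) (rep τ d)
          (fs (rep w d)) (fs (sn (rep w d))) (fs (sn (sn (rep w d))))
          (fs (sn (sn (sn (rep w d))))) (sn (sn (sn (sn (rep w d))))) := by
        filter_upwards [hw, hR σ τ w] with d h1 h2
        exact h2.1 h1
      have pr : IsPre F U (BB P u) (fun d => fs (rep w d)) :=
        (rep_pre w).comp c2_fs_primrec.to_comp
      have px : IsPre F U (BB P u) (fun d => fs (sn (rep w d))) :=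
        (rep_pre w).comp (c2_fs_primrec.comp c2_sn_primrec).to_comp
      have hx : ∀ᶠ d in (U : Filter ℕ), fs (sn (rep w d)) = X (P d) (fs (rep w d)) := by
        filter_upwards [hC, hτ] with d h1 h2
        exact Cert.eq (h.good d) h2 h1.1
      have hx' : ∀ᶠ d in (U : Filter ℕ),
          fs (sn (sn (sn (rep w d)))) = X (P d) (fs (rep w d) + 1) := by
        filter_upwards [hC, hτ] with d h1 h2
        exact Cert.eq (h.good d) h2 h1.2.1
      have hI : Ini U u (fun d => fs (rep w d)) := by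
        by_contra hI
        obtain ⟨d, hd1, hd2⟩ := ((h.lt_X hI px).and hx).exists
        rw [hd2] at hd1
        exact lt_irrefl _ hd1
      have hny : ¬ Ini U u (fun d => yy (P d) c (rep q d) (EE u s d) (fs (rep w d))) := by
        rintro ⟨k, hk⟩
        obtain ⟨d, h1, h2, h3, h4, h5⟩ :=
          (hk.and ((h.u_lt_e k j).and (hC.and (hyt.and (h.ini_le_EE hI))))).exists
        have h6 := h3.2.2.1
        rw [h4 _ h5] at h6
        simp only at h1
        omega
      have hkey := (h.true_iff c q pr.1 hI).1 hny z hzW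
      rw [mem_fset_iff] at hz
      have h1 : ∀ᶠ d in (U : Filter ℕ), rep z d < bb (P d) c (rep q d) (fs (rep w d)) := by
        filter_upwards [hC, hz, hx, hx'] with d h1 h2 h3 h4
        have h5 := (h1.2.2.2 _ (c2_lt_of_testBit h2) h2).1
        rw [h3, h4] at h5
        exact h5
      obtain ⟨d, h2, h3, h4, h5⟩ := ((hkey h1).and (hC.and (hz.and hx))).exists
      have h6 := (h3.2.2.2 _ (c2_lt_of_testBit h4) h4).2
      rw [h5, h2] at h6
      exact absurd h6 (by simp)

end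


/-! ### part 25018 -/

section

variable {F : Set (ℕ → ℕ)} {U : Ultrafilter ℕ} {P : ℕ → ℕ} {u s : ℕ → ℕ → ℕ}













variable [hA : Fact (Adm F U (BB P u))]







theorem Ctx.L7_leX (h : Ctx F U P u s) (d r : ℕ) : r ≤ X (P d) r :=
  (X_strictMono (h.good d)).le_apply

theorem L7_rel : PrimrecRel (fun n t : ℕ => n.unpair.2.unpair.2.unpair.2 < t ∧
    n.unpair.2.unpair.1 + 2 ^ n.unpair.2.unpair.2.unpair.1 ≤ len n.unpair.1 t) := by
  have u1 : Primrec (fun p : ℕ × ℕ => p.1.unpair.1) :=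
    Primrec.fst.comp (Primrec.unpair.comp Primrec.fst)
  have u2 : Primrec (fun p : ℕ × ℕ => p.1.unpair.2) :=
    Primrec.snd.comp (Primrec.unpair.comp Primrec.fst)
  have u3 : Primrec (fun p : ℕ × ℕ => p.1.unpair.2.unpair.1) :=
    Primrec.fst.comp (Primrec.unpair.comp u2)
  have u4 : Primrec (fun p : ℕ × ℕ => p.1.unpair.2.unpair.2) :=
    Primrec.snd.comp (Primrec.unpair.comp u2)
  have u5 : Primrec (fun p : ℕ × ℕ => p.1.unpair.2.unpair.2.unpair.1) :=
    Primrec.fst.comp (Primrec.unpair.comp u4)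
  have u6 : Primrec (fun p : ℕ × ℕ => p.1.unpair.2.unpair.2.unpair.2) :=
    Primrec.snd.comp (Primrec.unpair.comp u4)
  have hp : Primrec₂ (fun a b : ℕ => a ^ b) := Primrec₂.unpaired'.1 Nat.Primrec.pow
  have h1 : PrimrecPred (fun p : ℕ × ℕ => p.1.unpair.2.unpair.2.unpair.2 < p.2) :=
    Primrec.nat_lt.comp u6 Primrec.snd
  have h2 : PrimrecPred (fun p : ℕ × ℕ =>
      p.1.unpair.2.unpair.1 + 2 ^ p.1.unpair.2.unpair.2.unpair.1 ≤ len p.1.unpair.1 p.2) :=
    Primrec.nat_le.comp (Primrec.nat_add.comp u3 (hp.comp (Primrec.const 2) u5))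
      (len_primrec.comp u1 Primrec.snd)
  exact h1.and h2

theorem Ctx.L7_Ppre (h : Ctx F U P u s) : IsPre F U (BB P u) P := by
  refine ⟨h.Pmem, 0, Eventually.of_forall fun d => ?_⟩
  have h1 := lt_X_zero (h.good d)
  have h2 : X (P d) 0 ≤ X (P d) (u 0 d) := (X_strictMono (h.good d)).monotone (Nat.zero_le _)
  exact (h1.le).trans h2

theorem Ctx.L7_upre (h : Ctx F U P u s) (j : ℕ) : IsPre F U (BB P u) (u j) :=
  ⟨h.umem j, j, Eventually.of_forall fun d => h.L7_leX d _⟩

theorem Ctx.L7_KS (h : Ctx F U P u s) {e : ℕ}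
    (he : ∀ x : Mod F U (BB P u),
      ((∃ t : Mod F U (BB P u), ∀ᶠ d in (U : Filter ℕ),
          halt (rep t d) (Nat.pair e (rep x d)) = true) ↔
        ∃ w : Mod F U (BB P u), ∀ᶠ d in (U : Filter ℕ),
          ((rep x d).unpair.2.unpair.2.unpair.2 < (rep w d) ∧
            (rep x d).unpair.2.unpair.1 + 2 ^ (rep x d).unpair.2.unpair.2.unpair.1 ≤
              len (rep x d).unpair.1 (rep w d))))
    {w s' m : ℕ → ℕ} (hw : IsPre F U (BB P u) w) (hs : IsPre F U (BB P u) s')
    (hm : IsPre F U (BB P u) m) :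
    ∃ g : Mod F U (BB P u), (∀ᶠ d in (U : Filter ℕ), rep g d = prg e (P d) (w d) (s' d) (m d)) ∧
      (g ∈ KS F U P u ↔ ∃ t : Mod F U (BB P u), ∀ᶠ d in (U : Filter ℕ),
        m d < rep t d ∧ w d + 2 ^ (s' d) ≤ len (P d) (rep t d)) := by
  obtain ⟨x, hx⟩ := exists_rep _ (h.L7_Ppre.pair (hw.pair (hs.pair hm)))
  obtain ⟨g, hg⟩ := exists_rep _ ((IsPre.const (F := F) (U := U) (B := BB P u) e).pair
    (h.L7_Ppre.pair (hw.pair (hs.pair hm))))
  refine ⟨g, hg, ?_⟩
  have e1 : g ∈ KS F U P u ↔ ∃ t : Mod F U (BB P u), ∀ᶠ d in (U : Filter ℕ),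
      halt (rep t d) (Nat.pair e (rep x d)) = true := by
    constructor
    · rintro ⟨t, ht⟩
      refine ⟨t, ?_⟩
      filter_upwards [ht, hx, hg] with d h1 h2 h3
      rw [h2, ← h3]
      exact h1
    · rintro ⟨t, ht⟩
      refine ⟨t, ?_⟩
      filter_upwards [ht, hx, hg] with d h1 h2 h3
      rw [h3, ← h2]
      exact h1
  rw [e1, he x]
  constructor
  · rintro ⟨t, ht⟩
    refine ⟨t, ?_⟩
    filter_upwards [ht, hx] with d h1 h2
    rw [h2] at h1
    simpa using h1
  · rintro ⟨t, ht⟩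
    refine ⟨t, ?_⟩
    filter_upwards [ht, hx] with d h1 h2
    rw [h2]
    simpa using h1

theorem L7_pow {f : ℕ → ℕ} (hf : IsPre F U (BB P u) f) :
    IsPre F U (BB P u) (fun d => 2 ^ f d) := by
  have hp : Primrec₂ (fun a b : ℕ => a ^ b) := Primrec₂.unpaired'.1 Nat.Primrec.pow
  have h1 : Computable (fun n : ℕ => 2 ^ n) := (hp.comp (Primrec.const 2) Primrec.id).to_comp
  exact hf.comp h1

theorem Ctx.L7_claim1 (h : Ctx F U P u s) {e : ℕ}
    (he : ∀ x : Mod F U (BB P u),
      ((∃ t : Mod F U (BB P u), ∀ᶠ d in (U : Filter ℕ),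
          halt (rep t d) (Nat.pair e (rep x d)) = true) ↔
        ∃ w : Mod F U (BB P u), ∀ᶠ d in (U : Filter ℕ),
          ((rep x d).unpair.2.unpair.2.unpair.2 < (rep w d) ∧
            (rep x d).unpair.2.unpair.1 + 2 ^ (rep x d).unpair.2.unpair.2.unpair.1 ≤
              len (rep x d).unpair.1 (rep w d))))
    {c : ℕ} {q : Mod F U (BB P u)}
    (hcq : ∀ a : Mod F U (BB P u), fset a ⊆ (KS F U P u)ᶜ ↔ ∃ s t : Mod F U (BB P u),
      fset s ⊆ (AS F U P u) ∧ fset t ⊆ (AS F U P u)ᶜ ∧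
      ∃ w : Mod F U (BB P u), ∀ᶠ d in (U : Filter ℕ),
        halt (rep w d) (Nat.pair c (Nat.pair (rep q d)
          (Nat.pair (rep a d) (Nat.pair (rep s d) (rep t d))))) = true)
    {k : ℕ → ℕ} (hk : k ∈ F) (hI : Ini U u k) :
    ¬ ∀ᶠ d in (U : Filter ℕ), ∃ w s σ τ t, Fail (P d) e c (rep q d) (k d) w s σ τ t := by
  intro hF
  have hnF : (fun d => Nat.pair (P d) (Nat.pair e (Nat.pair c (Nat.pair (rep q d) (k d))))) ∈ F :=
    h.pair _ h.Pmem _ (h.pair _ (h.const e) _ (h.pair _ (h.const c) _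
      (h.pair _ (rep_pre q).1 _ hk)))
  obtain ⟨y, hyF, hyR⟩ : ∃ y : ℕ → ℕ, y ∈ F ∧
      ∀ᶠ d in (U : Filter ℕ), Fail (P d) e c (rep q d) (k d) (y d).unpair.1
      (y d).unpair.2.unpair.1 (y d).unpair.2.unpair.2.unpair.1
      (y d).unpair.2.unpair.2.unpair.2.unpair.1 (y d).unpair.2.unpair.2.unpair.2.unpair.2 := by
    refine ⟨_, h.pick Rfail (by simp [RR]) _ hnF, ?_⟩
    filter_upwards [hF] with d hd
    obtain ⟨w, s', σ, τ, t, hd⟩ := hd
    have hex : ∃ y, Rfail
      (Nat.pair (P d) (Nat.pair e (Nat.pair c (Nat.pair (rep q d) (k d))))) y := by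
      refine ⟨Nat.pair w (Nat.pair s' (Nat.pair σ (Nat.pair τ t))), ?_⟩
      unfold Rfail
      simp only [Nat.unpair_pair]
      exact hd
    have h9 := pick_spec hex
    generalize hz : Sacks.pick Rfail
      (Nat.pair (P d) (Nat.pair e (Nat.pair c (Nat.pair (rep q d) (k d))))) = z at h9 ⊢
    unfold Rfail at h9
    simp only [Nat.unpair_pair] at h9
    exact h9
  -- components
  have c1 : Computable (fun n : ℕ => n.unpair.1) := (Primrec.fst.comp Primrec.unpair).to_comp
  have p2 : Primrec (fun n : ℕ => n.unpair.2) := (Primrec.snd.comp Primrec.unpair)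
  have p3 : Primrec (fun n : ℕ => n.unpair.2.unpair.1) :=
    (Primrec.fst.comp (Primrec.unpair.comp p2))
  have p4 : Primrec (fun n : ℕ => n.unpair.2.unpair.2) :=
    (Primrec.snd.comp (Primrec.unpair.comp p2))
  have p5 : Primrec (fun n : ℕ => n.unpair.2.unpair.2.unpair.1) :=
    (Primrec.fst.comp (Primrec.unpair.comp p4))
  have p6 : Primrec (fun n : ℕ => n.unpair.2.unpair.2.unpair.2) :=
    (Primrec.snd.comp (Primrec.unpair.comp p4))
  have p7 : Primrec (fun n : ℕ => n.unpair.2.unpair.2.unpair.2.unpair.1) :=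
    (Primrec.fst.comp (Primrec.unpair.comp p6))
  have p8 : Primrec (fun n : ℕ => n.unpair.2.unpair.2.unpair.2.unpair.2) :=
    (Primrec.snd.comp (Primrec.unpair.comp p6))
  have hp : Primrec₂ (fun a b : ℕ => a ^ b) := Primrec₂.unpaired'.1 Nat.Primrec.pow
  have hwF := h.comp _ c1 _ hyF
  have hsF := h.comp _ p3.to_comp _ hyF
  have hσF := h.comp _ p5.to_comp _ hyF
  have hτF := h.comp _ p7.to_comp _ hyF
  have htF := h.comp _ p8.to_comp _ hyF
  have hXk := h.pre_X hk hI
  have hwp : IsPre F U (BB P u) (fun d => (y d).unpair.1) :=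
    hXk.of_le hwF (by
      filter_upwards [hyR] with d hd
      exact hd.1.le.trans (h.L7_leX d _))
  have hsp : IsPre F U (BB P u) (fun d => (y d).unpair.2.unpair.1) :=
    hXk.of_le hsF (by
      filter_upwards [hyR] with d hd
      exact hd.2.1.le.trans (h.L7_leX d _))
  have hσp : IsPre F U (BB P u) (fun d => (y d).unpair.2.unpair.2.unpair.1) :=
    hXk.of_le hσF (by
      filter_upwards [hyR] with d hd
      exact hd.2.2.2.2.2.1.le)
  have hτp : IsPre F U (BB P u) (fun d => (y d).unpair.2.unpair.2.unpair.2.unpair.1) :=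
    hXk.of_le hτF (by
      filter_upwards [hyR] with d hd
      exact hd.2.2.2.2.2.2.1.le)
  have htp : IsPre F U (BB P u) (fun d => (y d).unpair.2.unpair.2.unpair.2.unpair.2) :=
    hXk.of_le htF (by
      filter_upwards [hyR] with d hd
      exact hd.2.2.2.2.2.2.2.1.le)
  have hwI : Ini U u (fun d => (y d).unpair.1) := hI.of_le (by
      filter_upwards [hyR] with d hd
      exact hd.1.le)
  have hXw := h.pre_X hwF hwI
  obtain ⟨g, hg, hgK⟩ := h.L7_KS he hwp hsp hXw
  obtain ⟨a, ha⟩ := exists_rep _ (L7_pow (rep_pre g))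
  obtain ⟨σ, hσ⟩ := exists_rep _ hσp
  obtain ⟨τ, hτ⟩ := exists_rep _ hτp
  obtain ⟨t, ht⟩ := exists_rep _ htp
  have hsub : fset a ⊆ (KS F U P u)ᶜ := by
    rw [hcq a]
    refine ⟨σ, τ, ?_, ?_, t, ?_⟩
    · rw [h.fset_sub_AS]
      filter_upwards [hσ, hyR] with d h1 h2
      rw [h1]
      exact h2.2.2.2.2.2.2.2.2.2.1
    · rw [h.fset_sub_ASc]
      filter_upwards [hτ, hyR] with d h1 h2
      rw [h1]
      exact h2.2.2.2.2.2.2.2.2.2.2
    · filter_upwards [hσ, hτ, ht, ha, hg, hyR] with d h1 h2 h3 h4 h5 h6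
      rw [h1, h2, h3, h4, h5]
      exact h6.2.2.2.2.2.2.2.2.1
  have hga : g ∈ fset a := by
    rw [mem_fset_iff]
    filter_upwards [ha] with d h1
    rw [h1]
    exact Nat.testBit_two_pow_self
  have hgn : g ∉ KS F U P u := hsub hga
  apply hgn
  rw [hgK]
  -- the stage
  have hrF : (fun d => (y d).unpair.1 + 2 ^ (y d).unpair.2.unpair.1 - 1) ∈ F := by
    have hc : Computable (fun n : ℕ => n.unpair.1 + 2 ^ n.unpair.2.unpair.1 - 1) := by
      refine Primrec.to_comp ?_
      exact Primrec.nat_sub.comp (Primrec.nat_add.comp (Primrec.fst.comp Primrec.unpair)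
        (hp.comp (Primrec.const 2) p3)) (Primrec.const 1)
    exact h.comp _ hc _ hyF
  have hrI : Ini U u (fun d => (y d).unpair.1 + 2 ^ (y d).unpair.2.unpair.1 - 1) :=
    hI.of_le (by
      filter_upwards [hyR] with d hd
      have := hd.2.2.2.2.1
      omega)
  have hrp := (h.pre_X hrF hrI).comp (g := fun n => n + 1) Computable.succ
  obtain ⟨t', ht'⟩ := exists_rep _ hrp
  refine ⟨t', ?_⟩
  filter_upwards [ht', hyR] with d h1 h2
  rw [h1]
  have hpos : 0 < 2 ^ (y d).unpair.2.unpair.1 := by positivity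
  constructor
  · have : X (P d) ((y d).unpair.1) ≤
        X (P d) ((y d).unpair.1 + 2 ^ (y d).unpair.2.unpair.1 - 1) :=
      (X_strictMono (h.good d)).monotone (by omega)
    omega
  · have := lt_len_of_X_lt (h.good d) (r := (y d).unpair.1 + 2 ^ (y d).unpair.2.unpair.1 - 1)
      (t := X (P d) ((y d).unpair.1 + 2 ^ (y d).unpair.2.unpair.1 - 1) + 1) (Nat.lt_succ_self _)
    omega

theorem Ctx.L7_claim2 (h : Ctx F U P u s) {e : ℕ}
    (he : ∀ x : Mod F U (BB P u),
      ((∃ t : Mod F U (BB P u), ∀ᶠ d in (U : Filter ℕ),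
          halt (rep t d) (Nat.pair e (rep x d)) = true) ↔
        ∃ w : Mod F U (BB P u), ∀ᶠ d in (U : Filter ℕ),
          ((rep x d).unpair.2.unpair.2.unpair.2 < (rep w d) ∧
            (rep x d).unpair.2.unpair.1 + 2 ^ (rep x d).unpair.2.unpair.2.unpair.1 ≤
              len (rep x d).unpair.1 (rep w d))))
    {c : ℕ} {q : Mod F U (BB P u)}
    (hcq : ∀ a : Mod F U (BB P u), fset a ⊆ (KS F U P u)ᶜ ↔ ∃ s t : Mod F U (BB P u),
      fset s ⊆ (AS F U P u) ∧ fset t ⊆ (AS F U P u)ᶜ ∧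
      ∃ w : Mod F U (BB P u), ∀ᶠ d in (U : Filter ℕ),
        halt (rep w d) (Nat.pair c (Nat.pair (rep q d)
          (Nat.pair (rep a d) (Nat.pair (rep s d) (rep t d))))) = true) (j : ℕ) :
    ∀ᶠ d in (U : Filter ℕ), ∃ w s' σ τ t,
      Fail (P d) e c (rep q d) (u j d + 2 ^ (s j d)) w s' σ τ t := by
  have hup := h.L7_upre j
  have hsle : ∀ᶠ d in (U : Filter ℕ), s j d ≤ u j d := by
    filter_upwards [h.pos j] with d hd
    have h1 := Nat.le_of_dvd hd.1 hd.2
    exact (Nat.lt_two_pow_self.le).trans h1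
  have hsp : IsPre F U (BB P u) (s j) := hup.of_le (h.smem j) hsle
  have hXp : IsPre F U (BB P u) (fun d => X (P d) (u j d)) := h.pre_X (h.umem j) (h.ini_u j)
  obtain ⟨g, hg, hgK⟩ := h.L7_KS he hup hsp hXp
  obtain ⟨a, ha⟩ := exists_rep _ (L7_pow (rep_pre g))
  have hgn : g ∉ KS F U P u := by
    rw [hgK]
    rintro ⟨t, ht⟩
    obtain ⟨k, hk⟩ := (rep_pre t).2
    obtain ⟨d, hd⟩ := (((ht.and hk).and (h.pos j)).and (h.u_lt_e k j)).exists
    obtain ⟨⟨⟨⟨h1, h2⟩, h3⟩, h4, h5⟩, h6⟩ := hd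
    have h7 := X_complete (h.good d) h4 h5 h1 h2
    have h8 : X (P d) (u k d) ≤ X (P d) (u j d + 2 ^ (s j d) - 1) :=
      (X_strictMono (h.good d)).monotone (by omega)
    have h9 : rep t d ≤ X (P d) (u k d) := h3
    omega
  have hsub : fset a ⊆ (KS F U P u)ᶜ := by
    intro x hx
    rw [mem_fset_iff] at hx
    have hxg : x = g := by
      apply rep_ext
      filter_upwards [hx, ha] with d h1 h2
      rw [h2, Nat.testBit_two_pow] at h1
      simpa using (of_decide_eq_true h1).symm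
    rw [hxg]
    exact hgn
  rw [hcq a] at hsub
  obtain ⟨σ, τ, hσ, hτ, t, ht⟩ := hsub
  rw [h.fset_sub_AS] at hσ
  rw [h.fset_sub_ASc] at hτ
  obtain ⟨k1, hk1⟩ := (rep_pre σ).2
  obtain ⟨k2, hk2⟩ := (rep_pre τ).2
  obtain ⟨k3, hk3⟩ := (rep_pre t).2
  filter_upwards [hσ, hτ, ht, hk1, hk2, hk3, h.u_lt_e k1 j, h.u_lt_e k2 j, h.u_lt_e k3 j,
    h.pos j, hsle, ha, hg] with d a1 a2 a3 a4 a5 a6 a7 a8 a9 a10 a11 a12 a13
  have hm := X_strictMono (h.good d)
  have hpos : 0 < 2 ^ (s j d) := by positivity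
  unfold BB at a4 a5 a6
  refine ⟨u j d, s j d, rep σ d, rep τ d, rep t d, by omega, by omega, a10.1, a10.2, le_rfl,
    a4.trans_lt (hm a7), a5.trans_lt (hm a8), a6.trans_lt (hm a9), ?_, a1, a2⟩
  rw [a12, a13] at a3
  exact a3

theorem Ctx.KS_not_le (h : Ctx F U P u s) : ¬ TuringLE true (KS F U P u) (AS F U P u) := by
  intro hT
  obtain ⟨c, q, hcq⟩ := turing_elim hT
  obtain ⟨e, he⟩ := search (F := F) (U := U) (B := BB P u) L7_rel
  have hnF : (fun d => Nat.pair (P d) (Nat.pair e (Nat.pair c (rep q d)))) ∈ F :=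
    h.pair _ h.Pmem _ (h.pair _ (h.const e) _ (h.pair _ (h.const c) _ (rep_pre q).1))
  have hcF := h.pick Rleast (by simp [RR]) _ hnF
  have hle : ∀ j, ∀ᶠ d in (U : Filter ℕ), Sacks.pick Rleast
      (Nat.pair (P d) (Nat.pair e (Nat.pair c (rep q d)))) ≤ u j d + 2 ^ (s j d) := by
    intro j
    filter_upwards [h.L7_claim2 he hcq j] with d hd
    apply pick_le
    unfold Rleast
    simpa only [Nat.unpair_pair] using hd
  have hfail : ∀ᶠ d in (U : Filter ℕ), ∃ w s σ τ t, Fail (P d) e c (rep q d)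
      (Sacks.pick Rleast (Nat.pair (P d) (Nat.pair e (Nat.pair c (rep q d))))) w s σ τ t := by
    filter_upwards [h.L7_claim2 he hcq 0] with d hd
    have hex : ∃ k, Rleast (Nat.pair (P d) (Nat.pair e (Nat.pair c (rep q d)))) k := by
      refine ⟨u 0 d + 2 ^ (s 0 d), ?_⟩
      unfold Rleast
      simpa only [Nat.unpair_pair] using hd
    have h9 := pick_spec hex
    generalize hz : Sacks.pick Rleast
      (Nat.pair (P d) (Nat.pair e (Nat.pair c (rep q d)))) = z at h9 ⊢
    unfold Rleast at h9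
    simp only [Nat.unpair_pair] at h9
    exact h9
  have hpF := h.comp (fun n => n - 1) (Primrec.nat_sub.comp Primrec.id (Primrec.const 1)).to_comp
    _ hcF
  rcases h.gap _ hpF with ⟨j, hj⟩ | ⟨j, hj⟩
  · refine h.L7_claim1 he hcq hcF ⟨j + 1, ?_⟩ hfail
    filter_upwards [hj, h.nest j] with d h1 h2
    have h3 := h2.1
    omega
  · obtain ⟨d, h1, h2⟩ := (hj.and (hle j)).exists
    have hpos : 0 < 2 ^ (s j d) := by positivity
    omega

end


/-! ### part 25024 -/

section

variable {F : Set (ℕ → ℕ)} {U : Ultrafilter ℕ} {P : ℕ → ℕ} {u s : ℕ → ℕ → ℕ}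




















variable [hA : Fact (Adm F U (BB P u))]















omit hA in
theorem c1_testBit_primrec : Primrec₂ Nat.testBit := by
  have h1 : PrimrecPred fun p : ℕ × ℕ => p.1 / 2 ^ p.2 % 2 = 1 :=
    Primrec.eq.comp (Primrec.nat_mod.comp (Primrec.nat_div.comp Primrec.fst
      (aux_pow.comp (Primrec.const 2) Primrec.snd)) (Primrec.const 2)) (Primrec.const 1)
  refine h1.decide.of_eq ?_
  rintro ⟨x, i⟩
  show decide (x / 2 ^ i % 2 = 1) = Nat.testBit x i
  rw [Nat.testBit_eq_decide_div_mod_eq]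

/-- number with prescribed bits -/
def bs (f : ℕ → ℕ → Bool) (p n : ℕ) : ℕ :=
  Nat.rec (motive := fun _ => ℕ) 0 (fun i acc => acc + cond (f p i) (2 ^ i) 0) n

omit hA in
theorem bs_lt (f : ℕ → ℕ → Bool) (p n : ℕ) : bs f p n < 2 ^ n := by
  induction n with
  | zero => show (0 : ℕ) < 2 ^ 0; norm_num
  | succ n ih =>
    have h1 : bs f p (n + 1) = bs f p n + cond (f p n) (2 ^ n) 0 := rfl
    rw [h1, pow_succ]
    cases f p n
    · simp only [cond_false]; omega
    · simp only [cond_true]; omega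

omit hA in
theorem bs_testBit (f : ℕ → ℕ → Bool) (p n i : ℕ) :
    Nat.testBit (bs f p n) i = (decide (i < n) && f p i) := by
  induction n with
  | zero =>
    have h1 : bs f p 0 = 0 := rfl
    rw [h1]
    simp
  | succ n ih =>
    have h1 : bs f p (n + 1) = bs f p n + cond (f p n) (2 ^ n) 0 := rfl
    rw [h1]
    have hlt := bs_lt f p n
    cases hf : f p n
    · simp only [cond_false, add_zero]
      rw [ih]
      rcases Nat.lt_trichotomy i n with h | h | h
      · have : i < n + 1 := by omega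
        simp [h, this]
      · subst h
        simp [hf]
      · have h2 : ¬ i < n := by omega
        have h3 : ¬ i < n + 1 := by omega
        simp [h2, h3]
    · simp only [cond_true]
      rw [add_comm]
      rcases Nat.lt_trichotomy i n with h | h | h
      · rw [Nat.testBit_two_pow_add_gt h, ih]
        have : i < n + 1 := by omega
        simp [h, this]
      · subst h
        rw [Nat.testBit_two_pow_add_eq, Nat.testBit_lt_two_pow hlt]
        simp [hf]
      · have h3 : ¬ i < n + 1 := by omega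
        have h4 : 2 ^ n + bs f p n < 2 ^ i := by
          have : 2 ^ (n + 1) ≤ 2 ^ i := Nat.pow_le_pow_right (by norm_num) h
          rw [pow_succ] at this
          omega
        rw [Nat.testBit_lt_two_pow h4]
        simp [h3]

omit hA in
theorem bs_primrec {f : ℕ → ℕ → Bool} (hf : Primrec₂ f) : Primrec₂ (bs f) := by
  have h := Primrec.nat_rec (f := fun _ : ℕ => (0 : ℕ))
    (g := fun p (q : ℕ × ℕ) => q.2 + cond (f p q.1) (2 ^ q.1) 0) (Primrec.const 0) (by
      have h1 : Primrec fun a : ℕ × ℕ × ℕ => f a.1 a.2.1 :=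
        hf.comp Primrec.fst (Primrec.fst.comp Primrec.snd)
      have h2 : Primrec fun a : ℕ × ℕ × ℕ => 2 ^ a.2.1 :=
        aux_pow.comp (Primrec.const 2) (Primrec.fst.comp Primrec.snd)
      have h3 : Primrec fun a : ℕ × ℕ × ℕ => cond (f a.1 a.2.1) (2 ^ a.2.1) 0 :=
        Primrec.cond h1 h2 (Primrec.const 0)
      exact Primrec.nat_add.comp (Primrec.snd.comp Primrec.snd) h3)
  exact h

omit hA in
theorem c1_R1 : PrimrecRel (fun n w : ℕ => ∀ z < sn n, Nat.testBit (sn n) z = true →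
    halt w z = true) := by
  have hsn : Primrec sn := Primrec.snd.comp Primrec.unpair
  have h1 : PrimrecPred fun p : ℕ × ℕ × ℕ =>
      (Nat.testBit (sn p.2.1) p.1 = false ∨ halt p.2.2 p.1 = true) := by
    refine PrimrecPred.or ?_ ?_
    · exact Primrec.eq.comp (c1_testBit_primrec.comp
        (hsn.comp (Primrec.fst.comp Primrec.snd)) Primrec.fst) (Primrec.const false)
    · exact Primrec.eq.comp (halt_primrec.comp (Primrec.snd.comp Primrec.snd) Primrec.fst)
        (Primrec.const true)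
  have h2 := aux_all_lt (α := ℕ × ℕ)
    (R := fun z p => Nat.testBit (sn p.1) z = false ∨ halt p.2 z = true)
    (f := fun p : ℕ × ℕ => sn p.1) h1 (hsn.comp Primrec.fst)
  refine PrimrecPred.of_eq h2 ?_
  rintro ⟨n, w⟩
  refine forall_congr' (fun z => forall_congr' (fun _ => ?_))
  show (Nat.testBit (sn n) z = false ∨ halt w z = true) ↔ _
  cases Nat.testBit (sn n) z <;> simp


omit hA in
theorem c1_lt_of_testBit {a z : ℕ} (h : Nat.testBit a z = true) : z < a := by
  by_contra hcon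
  have h1 : a < 2 ^ z := lt_of_le_of_lt (not_lt.1 hcon) Nat.lt_two_pow_self
  rw [Nat.testBit_lt_two_pow h1] at h
  exact Bool.false_ne_true h

theorem c1_fset_sub {a b : Mod F U (BB P u)}
    (h : ∀ᶠ d in (U : Filter ℕ), Sub (rep a d) (rep b d)) : fset a ⊆ fset b := by
  intro x hx
  rw [mem_fset_iff] at hx ⊢
  filter_upwards [h, hx] with d h1 h2
  exact h1 _ (c1_lt_of_testBit h2) h2

theorem Ctx.c1_sound (h : Ctx F U P u s) (c cA : ℕ)
    (q qA yt gt a σ τ κ σ' τ' t0 e xe r' xr r x x' : Mod F U (BB P u)) (te tr t t' : ℕ → ℕ)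
    (hT : (∃ s t : Mod F U (BB P u), fset s ⊆ WS F U P u c q ∧ fset t ⊆ (WS F U P u c q)ᶜ ∧
      ∃ w : Mod F U (BB P u), ∀ᶠ d in (U : Filter ℕ),
        halt (rep w d) (Nat.pair cA (Nat.pair (rep qA d)
          (Nat.pair (rep κ d) (Nat.pair (rep s d) (rep t d))))) = true) →
      fset κ ⊆ (AS F U P u)ᶜ)
    (hyt : ∀ᶠ d in (U : Filter ℕ), ∀ r ≤ EE u s d,
      tab (rep yt d) r = yy (P d) c (rep q d) (EE u s d) r)
    (hgt : ∀ᶠ d in (U : Filter ℕ), ∀ e ≤ EE u s d, ∀ r ≤ EE u s d,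
      tab (rep gt d) (e * (EE u s d + 1) + r) = gg (P d) (EE u s d) e r)
    (hσ : fset σ ⊆ WS F U P u c q) (hτ : fset τ ⊆ (WS F U P u c q)ᶜ)
    (H : ∀ᶠ d in (U : Filter ℕ), Case1 c cA (rep q d) (P d) (rep yt d) (rep gt d) (EE u s d)
      (rep qA d) (rep a d) (rep σ d) (rep τ d) (rep κ d) (rep σ' d) (rep τ' d) (rep t0 d)
      (rep e d) (rep xe d) (te d) (rep r' d) (rep xr d) (tr d) (rep r d) (rep x d) (t d)
      (rep x' d) (t' d)) : fset a ⊆ (KS F U P u)ᶜ := by
  have h1 : fset κ ⊆ (AS F U P u)ᶜ := by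
    apply hT
    refine ⟨σ', τ', ?_, ?_, t0, ?_⟩
    · exact (c1_fset_sub (H.mono fun d hd => hd.1)).trans hσ
    · exact (c1_fset_sub (H.mono fun d hd => hd.2.1)).trans hτ
    · exact H.mono fun d hd => hd.2.2.1
  have h2 := (h.fset_sub_ASc κ).1 h1
  have hxe : ∀ᶠ d in (U : Filter ℕ), rep xe d = X (P d) (rep e d) := by
    filter_upwards [H, h2] with d hd h3
    exact Cert.eq (h.good d) h3 hd.2.2.2.1
  have hxr : ∀ᶠ d in (U : Filter ℕ), rep xr d = X (P d) (rep r' d) := by
    filter_upwards [H, h2] with d hd h3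
    exact Cert.eq (h.good d) h3 hd.2.2.2.2.1
  have hx : ∀ᶠ d in (U : Filter ℕ), rep x d = X (P d) (rep r d) := by
    filter_upwards [H, h2] with d hd h3
    exact Cert.eq (h.good d) h3 hd.2.2.2.2.2.1
  have hx' : ∀ᶠ d in (U : Filter ℕ), rep x' d = X (P d) (rep r d + 1) := by
    filter_upwards [H, h2] with d hd h3
    exact Cert.eq (h.good d) h3 hd.2.2.2.2.2.2.1
  have key : ∀ y z : Mod F U (BB P u), (∀ᶠ d in (U : Filter ℕ), rep y d = X (P d) (rep z d)) →
      Ini U u (rep z) := by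
    intro y z hyz
    by_contra hcon
    have h3 := h.lt_X hcon (rep_pre y)
    obtain ⟨d, hd1, hd2⟩ := (h3.and hyz).exists
    omega
  have hIe : Ini U u (rep e) := key _ _ hxe
  have hIr' : Ini U u (rep r') := key _ _ hxr
  have hIr : Ini U u (rep r) := key _ _ hx
  have hyy : ¬ Ini U u (fun d => yy (P d) c (rep q d) (EE u s d) (rep r d)) := by
    rw [h.true_iff c q (rep_pre r).1 hIr]
    intro z hz hzb
    by_contra hcon
    rw [← Ultrafilter.eventually_not] at hcon
    have h3 : z ∈ fset τ := by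
      rw [mem_fset_iff]
      filter_upwards [H, hcon, hzb, hx, hx'] with d hd h4 h5 h6 h7
      refine hd.2.2.2.2.2.2.2.2.2.2 _ ?_ ?_
      · rw [h6, h7]
        exact h5
      · rw [h6]
        exact Bool.eq_false_iff.2 h4
    exact hτ h3 hz
  have hgg : ¬ Ini U u (fun d => gg (P d) (EE u s d) (rep e d) (rep r' d)) := by
    intro hcon
    apply hyy
    refine Ini.of_le hcon ?_
    filter_upwards [H, hyt, hgt, h.ini_le_EE hIe, h.ini_le_EE hIr', h.ini_le_EE hIr]
      with d hd h3 h4 h5 h6 h7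
    rw [← h3 _ h7, ← h4 _ h5 _ h6]
    exact hd.2.2.2.2.2.2.2.2.2.1
  intro z hz hzK
  rw [mem_fset_iff] at hz
  have h3 := h.true_K hIe hIr' hgg z hzK (by
    filter_upwards [H, hxe, hz] with d hd h4 h5
    have h6 := c1_lt_of_testBit h5
    have h7 := hd.2.2.2.2.2.2.2.1
    omega)
  obtain ⟨d, hd, h4, h5, h6⟩ := (H.and (h3.and (hz.and hxr))).exists
  have h7 := hd.2.2.2.2.2.2.2.2.1 _ (c1_lt_of_testBit h5) h5
  rw [h6, h4] at h7
  exact Bool.false_ne_true h7.symm


omit hA in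
theorem c1_fs : Primrec fs := Primrec.fst.comp Primrec.unpair

omit hA in
theorem c1_sn : Primrec sn := Primrec.snd.comp Primrec.unpair

omit hA in
theorem c1_fs_le (n : ℕ) : fs n ≤ n := Nat.unpair_left_le n

omit hA in
theorem c1_sn_le (n : ℕ) : sn n ≤ n := Nat.unpair_right_le n

/-- `p = ⟨A, ⟨B, ⟨C, D⟩⟩⟩` -/
def kapf (p i : ℕ) : Bool :=
  decide (i = fs p) || (decide (i = fs (sn p)) || (decide (i = fs (sn (sn p))) ||
    decide (i = sn (sn (sn p)))))

omit hA in
theorem kapf_primrec : Primrec₂ kapf := by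
  have h1 : Primrec fun p : ℕ × ℕ => decide (p.2 = fs p.1) :=
    (Primrec.eq.comp Primrec.snd (c1_fs.comp Primrec.fst)).decide
  have h2 : Primrec fun p : ℕ × ℕ => decide (p.2 = fs (sn p.1)) :=
    (Primrec.eq.comp Primrec.snd (c1_fs.comp (c1_sn.comp Primrec.fst))).decide
  have h3 : Primrec fun p : ℕ × ℕ => decide (p.2 = fs (sn (sn p.1))) :=
    (Primrec.eq.comp Primrec.snd (c1_fs.comp (c1_sn.comp (c1_sn.comp Primrec.fst)))).decide
  have h4 : Primrec fun p : ℕ × ℕ => decide (p.2 = sn (sn (sn p.1))) :=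
    (Primrec.eq.comp Primrec.snd (c1_sn.comp (c1_sn.comp (c1_sn.comp Primrec.fst)))).decide
  exact Primrec.or.comp h1 (Primrec.or.comp h2 (Primrec.or.comp h3 h4))

/-- the set of the four components -/
def kap (p : ℕ) : ℕ := bs kapf p (p + 1)

omit hA in
theorem kap_primrec : Primrec kap :=
  (bs_primrec kapf_primrec).comp Primrec.id (Primrec.succ.comp Primrec.id)

omit hA in
theorem kap_testBit (A B C D i : ℕ) :
    Nat.testBit (kap (Nat.pair A (Nat.pair B (Nat.pair C D)))) i = true ↔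
      i = A ∨ i = B ∨ i = C ∨ i = D := by
  unfold kap
  rw [bs_testBit]
  set p := Nat.pair A (Nat.pair B (Nat.pair C D)) with hp
  have hA' : fs p = A := by rw [hp]; unfold fs; simp only [Nat.unpair_pair]
  have hB : fs (sn p) = B := by rw [hp]; unfold fs sn; simp only [Nat.unpair_pair]
  have hC : fs (sn (sn p)) = C := by rw [hp]; unfold fs sn; simp only [Nat.unpair_pair]
  have hD : sn (sn (sn p)) = D := by rw [hp]; unfold sn; simp only [Nat.unpair_pair]
  have h1 : A ≤ p := by rw [← hA']; exact c1_fs_le p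
  have h2 : B ≤ p := by rw [← hB]; exact (c1_fs_le _).trans (c1_sn_le _)
  have h3 : C ≤ p := by
    rw [← hC]; exact (c1_fs_le _).trans ((c1_sn_le _).trans (c1_sn_le _))
  have h4 : D ≤ p := by
    rw [← hD]; exact (c1_sn_le _).trans ((c1_sn_le _).trans (c1_sn_le _))
  unfold kapf
  rw [hA', hB, hC, hD]
  simp only [Bool.and_eq_true, Bool.or_eq_true, decide_eq_true_eq]
  constructor
  · exact fun h => h.2
  · intro h
    refine ⟨?_, h⟩
    omega

/-- `p = ⟨τ', ⟨x, ⟨x', ⟨c, q⟩⟩⟩⟩` -/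
def tauf_25024 (p i : ℕ) : Bool :=
  Nat.testBit (fs p) i || (decide (i < bfun (fs (sn (sn (sn p)))) (sn (sn (sn (sn p)))) (fs (sn p))
    (fs (sn (sn p)))) &&
    !halt (fs (sn p)) (Nat.pair (fs (sn (sn (sn p)))) (Nat.pair (sn (sn (sn (sn p)))) i)))

omit hA in
theorem tauf_primrec : Primrec₂ tauf_25024 := by
  have hx : Primrec fun p : ℕ => fs (sn p) := c1_fs.comp c1_sn
  have hx' : Primrec fun p : ℕ => fs (sn (sn p)) := c1_fs.comp (c1_sn.comp c1_sn)
  have hc : Primrec fun p : ℕ => fs (sn (sn (sn p))) := c1_fs.comp (c1_sn.comp (c1_sn.comp c1_sn))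
  have hq : Primrec fun p : ℕ => sn (sn (sn (sn p))) := c1_sn.comp (c1_sn.comp (c1_sn.comp c1_sn))
  have hb : Primrec fun p : ℕ => bfun (fs (sn (sn (sn p)))) (sn (sn (sn (sn p)))) (fs (sn p))
      (fs (sn (sn p))) := by
    unfold bfun
    refine Primrec.list_findIdx (Primrec.list_range.comp hx) ?_
    have hz : Primrec fun p : ℕ × ℕ =>
        Nat.pair (fs (sn (sn (sn p.1)))) (Nat.pair (sn (sn (sn (sn p.1)))) p.2) :=
      Primrec₂.natPair.comp (hc.comp Primrec.fst)
        (Primrec₂.natPair.comp (hq.comp Primrec.fst) Primrec.snd)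
    exact Primrec.and.comp (halt_primrec.comp (hx'.comp Primrec.fst) hz)
      (Primrec.not.comp (halt_primrec.comp (hx.comp Primrec.fst) hz))
  have hz : Primrec fun p : ℕ × ℕ =>
      Nat.pair (fs (sn (sn (sn p.1)))) (Nat.pair (sn (sn (sn (sn p.1)))) p.2) :=
    Primrec₂.natPair.comp (hc.comp Primrec.fst)
      (Primrec₂.natPair.comp (hq.comp Primrec.fst) Primrec.snd)
  exact Primrec.or.comp (c1_testBit_primrec.comp (c1_fs.comp Primrec.fst) Primrec.snd)
    (Primrec.and.comp (Primrec.nat_lt.comp Primrec.snd (hb.comp Primrec.fst)).decide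
      (Primrec.not.comp (halt_primrec.comp (hx.comp Primrec.fst) hz)))

/-- the negative information -/
def tauN (p : ℕ) : ℕ := bs tauf_25024 p (p + 1)

omit hA in
theorem tauN_primrec : Primrec tauN :=
  (bs_primrec tauf_primrec).comp Primrec.id (Primrec.succ.comp Primrec.id)

omit hA in
theorem bfun_le (c q x x' : ℕ) : bfun c q x x' ≤ x := by
  unfold bfun
  refine List.findIdx_le_length.trans ?_
  rw [List.length_range]

omit hA in
theorem tauN_testBit (τ' x x' c q i : ℕ) :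
    Nat.testBit (tauN (Nat.pair τ' (Nat.pair x (Nat.pair x' (Nat.pair c q))))) i = true ↔
      (Nat.testBit τ' i = true ∨
        (i < bfun c q x x' ∧ halt x (Nat.pair c (Nat.pair q i)) = false)) := by
  unfold tauN
  rw [bs_testBit]
  set p := Nat.pair τ' (Nat.pair x (Nat.pair x' (Nat.pair c q))) with hp
  have hA' : fs p = τ' := by rw [hp]; unfold fs; simp only [Nat.unpair_pair]
  have hB : fs (sn p) = x := by rw [hp]; unfold fs sn; simp only [Nat.unpair_pair]
  have hC : fs (sn (sn p)) = x' := by rw [hp]; unfold fs sn; simp only [Nat.unpair_pair]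
  have hD : fs (sn (sn (sn p))) = c := by rw [hp]; unfold fs sn; simp only [Nat.unpair_pair]
  have hE : sn (sn (sn (sn p))) = q := by rw [hp]; unfold sn; simp only [Nat.unpair_pair]
  have h1 : τ' ≤ p := by rw [← hA']; exact c1_fs_le p
  have h2 : x ≤ p := by rw [← hB]; exact (c1_fs_le _).trans (c1_sn_le _)
  have h3 := bfun_le c q x x'
  unfold tauf_25024
  rw [hA', hB, hC, hD, hE]
  simp only [Bool.and_eq_true, Bool.or_eq_true, decide_eq_true_eq, Bool.not_eq_true']
  constructor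
  · exact fun h => h.2
  · intro h
    refine ⟨?_, h⟩
    rcases h with h | h
    · have := c1_lt_of_testBit h
      omega
    · omega

omit hA in
theorem Ctx.c1_pre (h : Ctx F U P u s) {f : ℕ → ℕ} (hf : f ∈ F) (hI : Ini U u f) :
    IsPre F U (BB P u) f := by
  obtain ⟨k, hk⟩ := hI
  refine ⟨hf, k, ?_⟩
  filter_upwards [hk] with d hd
  refine hd.le.trans ?_
  exact (X_strictMono (h.good d)).le_apply

theorem Ctx.c1_complete (h : Ctx F U P u s) (c cA : ℕ) (q qA yt gt a : Mod F U (BB P u))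
    (hT : ∀ κ : Mod F U (BB P u), fset κ ⊆ (AS F U P u)ᶜ → (∃ s t : Mod F U (BB P u),
      fset s ⊆ WS F U P u c q ∧ fset t ⊆ (WS F U P u c q)ᶜ ∧
      ∃ w : Mod F U (BB P u), ∀ᶠ d in (U : Filter ℕ),
        halt (rep w d) (Nat.pair cA (Nat.pair (rep qA d)
          (Nat.pair (rep κ d) (Nat.pair (rep s d) (rep t d))))) = true))
    (hyt : ∀ᶠ d in (U : Filter ℕ), ∀ r ≤ EE u s d,
      tab (rep yt d) r = yy (P d) c (rep q d) (EE u s d) r)
    (hgt : ∀ᶠ d in (U : Filter ℕ), ∀ e ≤ EE u s d, ∀ r ≤ EE u s d,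
      tab (rep gt d) (e * (EE u s d + 1) + r) = gg (P d) (EE u s d) e r)
    (hEE : (fun d => EE u s d) ∈ F)
    (hj : ∀ j, ∃ r ∈ F, Ini U u r ∧ ¬ Ini U u (fun d => yy (P d) c (rep q d) (EE u s d) (r d)) ∧
      ∀ᶠ d in (U : Filter ℕ), yy (P d) c (rep q d) (EE u s d) (r d) < u j d + 2 ^ (s j d))
    (ha : fset a ⊆ (KS F U P u)ᶜ) :
    ∃ σ τ κ σ' τ' t0 e xe r' xr r x x' : Mod F U (BB P u),
      fset σ ⊆ WS F U P u c q ∧ fset τ ⊆ (WS F U P u c q)ᶜ ∧
      ∀ᶠ d in (U : Filter ℕ), Case1 c cA (rep q d) (P d) (rep yt d) (rep gt d) (EE u s d)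
      (rep qA d) (rep a d) (rep σ d) (rep τ d) (rep κ d) (rep σ' d) (rep τ' d) (rep t0 d)
      (rep e d) (rep xe d) (rep xe d) (rep r' d) (rep xr d) (rep xr d) (rep r d) (rep x d)
      (rep x d) (rep x' d) (rep x' d) := by
  obtain ⟨j1, hj1⟩ := h.lt_X_u (rep_pre a)
  obtain ⟨fr', hr'F, hIr', hgr'⟩ := h.exists_true_K (h.umem j1) (h.ini_u j1)
  have hIe := h.ini_u j1
  -- the function `g`
  have hgF : (fun d => tab (rep gt d) (u j1 d * (EE u s d + 1) + fr' d)) ∈ F := by
    have h1 := h.pair _ (rep_pre gt).1 _ (h.pair _ (h.umem j1) _ (h.pair _ hEE _ hr'F))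
    have h2 : Computable fun n : ℕ => tab (fs n) (fs (sn n) * (fs (sn (sn n)) + 1) + sn (sn (sn n))) := by
      have g1 : Primrec fun n : ℕ => (Denumerable.ofNat (List ℕ) (fs n)).getD
          (fs (sn n) * (fs (sn (sn n)) + 1) + sn (sn (sn n))) 0 :=
        (Primrec.list_getD 0).comp ((Primrec.ofNat (List ℕ)).comp c1_fs)
          (Primrec.nat_add.comp (Primrec.nat_mul.comp (c1_fs.comp c1_sn)
            (Primrec.succ.comp (c1_fs.comp (c1_sn.comp c1_sn))))
            (c1_sn.comp (c1_sn.comp c1_sn)))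
      exact g1.to_comp
    have h3 := h.comp _ h2 _ h1
    refine (congrArg (· ∈ F) ?_).mp h3
    funext d
    unfold fs sn
    simp only [Nat.unpair_pair]
  have hgI : ¬ Ini U u (fun d => tab (rep gt d) (u j1 d * (EE u s d + 1) + fr' d)) := by
    intro hcon
    apply hgr'
    refine Ini.of_le hcon ?_
    filter_upwards [hgt, h.ini_le_EE hIe, h.ini_le_EE hIr'] with d h1 h2 h3
    rw [h1 _ h2 _ h3]
  obtain ⟨j, hj2⟩ := (h.not_ini_iff hgF).1 hgI
  obtain ⟨fr, hrF, hIr, hyr, hyj⟩ := hj j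
  obtain ⟨e, he⟩ := exists_rep _ (h.c1_pre (h.umem j1) hIe)
  obtain ⟨r', hr'⟩ := exists_rep _ (h.c1_pre hr'F hIr')
  obtain ⟨r, hr⟩ := exists_rep _ (h.c1_pre hrF hIr)
  obtain ⟨xe, hxe⟩ := exists_rep _ (h.pre_X (h.umem j1) hIe)
  obtain ⟨xr, hxr⟩ := exists_rep _ (h.pre_X hr'F hIr')
  obtain ⟨x, hx⟩ := exists_rep _ (h.pre_X hrF hIr)
  have hrsF : (fun d => fr d + 1) ∈ F := h.comp (fun n => n + 1) Primrec.succ.to_comp _ hrF
  obtain ⟨x', hx'⟩ := exists_rep _ (h.pre_X hrsF (h.ini_succ hIr))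
  -- kappa
  obtain ⟨kA, hkA⟩ := exists_comp₂ (g := fun a b => Nat.pair a (b + 1)) e xe
    (Primrec₂.natPair.comp Primrec.fst (Primrec.succ.comp Primrec.snd)).to_comp
  obtain ⟨kB, hkB⟩ := exists_comp₂ (g := fun a b => Nat.pair a (b + 1)) r' xr
    (Primrec₂.natPair.comp Primrec.fst (Primrec.succ.comp Primrec.snd)).to_comp
  obtain ⟨kC, hkC⟩ := exists_comp₂ (g := fun a b => Nat.pair a (b + 1)) r x
    (Primrec₂.natPair.comp Primrec.fst (Primrec.succ.comp Primrec.snd)).to_comp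
  obtain ⟨kD, hkD⟩ := exists_comp₂ (g := fun a b => Nat.pair (a + 1) (b + 1)) r x'
    (Primrec₂.natPair.comp (Primrec.succ.comp Primrec.fst) (Primrec.succ.comp Primrec.snd)).to_comp
  obtain ⟨k1, hk1⟩ := exists_pair kC kD
  obtain ⟨k2, hk2⟩ := exists_pair kB k1
  obtain ⟨k3, hk3⟩ := exists_pair kA k2
  obtain ⟨κ, hκ⟩ := exists_comp k3 kap_primrec.to_comp
  have hκb : ∀ᶠ d in (U : Filter ℕ), ∀ i, Nat.testBit (rep κ d) i = true ↔
      (i = Nat.pair (u j1 d) (X (P d) (u j1 d) + 1) ∨ i = Nat.pair (fr' d) (X (P d) (fr' d) + 1) ∨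
      i = Nat.pair (fr d) (X (P d) (fr d) + 1) ∨
      i = Nat.pair (fr d + 1) (X (P d) (fr d + 1) + 1)) := by
    filter_upwards [hκ, hk1, hk2, hk3, hkA, hkB, hkC, hkD, he, hr', hr, hxe, hxr, hx, hx']
      with d g1 g2 g3 g4 g5 g6 g7 g8 g9 g10 g11 g12 g13 g14 g15 i
    rw [g1, g4, g3, g2, kap_testBit, g5, g6, g7, g8, g9, g10, g11, g12, g13, g14, g15]
  have hκA : fset κ ⊆ (AS F U P u)ᶜ := by
    rw [h.fset_sub_ASc κ]
    filter_upwards [hκb] with d hd z hz
    rw [hd z] at hz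
    unfold AN
    rcases hz with rfl | rfl | rfl | rfl <;> simp only [Nat.unpair_pair] <;> omega
  obtain ⟨σ, τ', hσ, hτ', t0, ht0⟩ := hT κ hκA
  -- tau
  obtain ⟨cc, hcc⟩ := exists_const (F := F) (U := U) (B := BB P u) c
  obtain ⟨l1, hl1⟩ := exists_pair cc q
  obtain ⟨l2, hl2⟩ := exists_pair x' l1
  obtain ⟨l3, hl3⟩ := exists_pair x l2
  obtain ⟨l4, hl4⟩ := exists_pair τ' l3
  obtain ⟨τ, hτ⟩ := exists_comp l4 tauN_primrec.to_comp
  have hτb : ∀ᶠ d in (U : Filter ℕ), ∀ i, Nat.testBit (rep τ d) i = true ↔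
      (Nat.testBit (rep τ' d) i = true ∨ (i < bfun c (rep q d) (rep x d) (rep x' d) ∧
        halt (rep x d) (Nat.pair c (Nat.pair (rep q d) i)) = false)) := by
    filter_upwards [hτ, hl1, hl2, hl3, hl4, hcc] with d g1 g2 g3 g4 g5 g6 i
    rw [g1, g5, g4, g3, g2, g6, tauN_testBit]
  refine ⟨σ, τ, κ, σ, τ', t0, e, xe, r', xr, r, x, x', hσ, ?_, ?_⟩
  · intro z hz hzW
    rw [mem_fset_iff] at hz
    have h1 : ∀ᶠ d in (U : Filter ℕ), Nat.testBit (rep τ' d) (rep z d) = true ∨
        (rep z d < bfun c (rep q d) (rep x d) (rep x' d) ∧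
          halt (rep x d) (Nat.pair c (Nat.pair (rep q d) (rep z d))) = false) := by
      filter_upwards [hz, hτb] with d h1 h2
      exact (h2 _).1 h1
    rw [Ultrafilter.eventually_or] at h1
    rcases h1 with h1 | h1
    · exact hτ' ((mem_fset_iff _ _).2 h1) hzW
    · have h2 := (h.true_iff c q hrF hIr).1 hyr z hzW (by
        filter_upwards [h1, hx, hx'] with d g1 g2 g3
        rw [g2, g3] at g1
        exact g1.1)
      obtain ⟨d, g1, g2, g3⟩ := (h1.and (h2.and hx)).exists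
      rw [g3, g2] at g1
      exact Bool.false_ne_true g1.2.symm
  · filter_upwards [hκb, hτb, ht0, hj1, hj2, hyj, h.not_haltK a xr ha, hyt, hgt,
      h.ini_le_EE hIe, h.ini_le_EE hIr', h.ini_le_EE hIr, he, hr', hr, hxe, hxr, hx, hx']
      with d g1 g2 g3 g4 g5 g6 g7 g8 g9 g10 g11 g12 g13 g14 g15 g16 g17 g18 g19
    refine ⟨fun z _ hz => hz, fun z _ hz => (g2 z).2 (Or.inl hz), g3, ?_, ?_, ?_, ?_, ?_, g7, ?_, ?_⟩
    · rw [g16, g13]
      exact Cert.of_testBit (h.good d) ((g1 _).2 (Or.inl rfl))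
    · rw [g17, g14]
      exact Cert.of_testBit (h.good d) ((g1 _).2 (Or.inr (Or.inl rfl)))
    · rw [g18, g15]
      exact Cert.of_testBit (h.good d) ((g1 _).2 (Or.inr (Or.inr (Or.inl rfl))))
    · rw [g19, g15]
      exact Cert.of_testBit (h.good d) ((g1 _).2 (Or.inr (Or.inr (Or.inr rfl))))
    · rw [g16]
      exact g4.le
    · rw [g15, g13, g14, g8 _ g12]
      exact (g6.trans_le g5).le
    · intro z hz hz2
      exact (g2 z).2 (Or.inr ⟨hz, hz2⟩)


theorem Ctx.case1 (h : Ctx F U P u s) (c : ℕ) (q : Mod F U (BB P u))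
    (hle : TuringLE true (AS F U P u) (WS F U P u c q))
    (hj : ∀ j, ∃ r ∈ F, Ini U u r ∧ ¬ Ini U u (fun d => yy (P d) c (rep q d) (EE u s d) (r d)) ∧
      ∀ᶠ d in (U : Filter ℕ), yy (P d) c (rep q d) (EE u s d) (r d) < u j d + 2 ^ (s j d)) :
    TuringLE true (KS F U P u) (WS F U P u c q) := by
  obtain ⟨cA, qA, hT⟩ := turing_elim hle
  obtain ⟨yt, hyt⟩ := h.exists_ytab c q
  obtain ⟨gt, hgt⟩ := h.exists_gtab
  have hPpre : IsPre F U (BB P u) P := by
    refine ⟨h.Pmem, 0, Eventually.of_forall fun d => ?_⟩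
    refine (lt_X_zero (h.good d)).le.trans ?_
    exact (X_strictMono (h.good d)).monotone (Nat.zero_le _)
  have hEF : (fun d => EE u s d) ∈ F := by
    have g1 : Primrec fun n : ℕ => fs n + 2 ^ sn n :=
      Primrec.nat_add.comp c1_fs (aux_pow.comp (Primrec.const 2) c1_sn)
    have g2 := h.comp _ g1.to_comp _ (h.pair _ (h.umem 0) _ (h.smem 0))
    refine (congrArg (· ∈ F) ?_).mp g2
    funext d
    unfold fs sn EE
    simp only [Nat.unpair_pair]
  have hEpre : IsPre F U (BB P u) (fun d => EE u s d) :=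
    hPpre.of_le hEF (Eventually.of_forall fun d => h.EE_le d)
  obtain ⟨Pe, hPe⟩ := exists_rep _ hPpre
  obtain ⟨Ee, hEe⟩ := exists_rep _ hEpre
  obtain ⟨q1, hq1⟩ := exists_pair Ee qA
  obtain ⟨q2, hq2⟩ := exists_pair gt q1
  obtain ⟨q3, hq3⟩ := exists_pair yt q2
  obtain ⟨q4, hq4⟩ := exists_pair Pe q3
  obtain ⟨Q, hQ⟩ := exists_pair q q4
  have hQ' : ∀ᶠ d in (U : Filter ℕ), rep Q d = Nat.pair (rep q d) (Nat.pair (P d)
      (Nat.pair (rep yt d) (Nat.pair (rep gt d) (Nat.pair (EE u s d) (rep qA d))))) := by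
    filter_upwards [hPe, hEe, hq1, hq2, hq3, hq4, hQ] with d g1 g2 g3 g4 g5 g6 g7
    rw [g7, g6, g5, g4, g3, g2, g1]
  refine turing_of c1_R1 (RCase1_primrec c cA) Q ?_ ?_
  · intro a
    rw [h.fset_sub_KS a]
    refine exists_congr fun w => ?_
    refine eventually_congr (Eventually.of_forall fun d => ?_)
    unfold sn
    simp only [Nat.unpair_pair]
  · intro a
    constructor
    · intro ha
      obtain ⟨σ, τ, κ, σ', τ', t0, e, xe, r', xr, r, x, x', hσ, hτ, H⟩ :=
        h.c1_complete c cA q qA yt gt a (fun κ => (hT κ).1) hyt hgt hEF hj ha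
      refine ⟨σ, τ, hσ, hτ, ?_⟩
      obtain ⟨p1, hp1⟩ := exists_pair τ' t0
      obtain ⟨p2, hp2⟩ := exists_pair σ' p1
      obtain ⟨p3, hp3⟩ := exists_pair κ p2
      obtain ⟨p4, hp4⟩ := exists_pair xe xe
      obtain ⟨p5, hp5⟩ := exists_pair e p4
      obtain ⟨p6, hp6⟩ := exists_pair xr xr
      obtain ⟨p7, hp7⟩ := exists_pair r' p6
      obtain ⟨p8, hp8⟩ := exists_pair x' x'
      obtain ⟨p9, hp9⟩ := exists_pair x p8
      obtain ⟨p10, hp10⟩ := exists_pair x p9
      obtain ⟨p11, hp11⟩ := exists_pair r p10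
      obtain ⟨p12, hp12⟩ := exists_pair p7 p11
      obtain ⟨p13, hp13⟩ := exists_pair p5 p12
      obtain ⟨w, hw⟩ := exists_pair p3 p13
      refine ⟨w, ?_⟩
      filter_upwards [H, hQ', hp1, hp2, hp3, hp4, hp5, hp6, hp7, hp8, hp9, hp10, hp11, hp12, hp13,
        hw] with d gH gQ g1 g2 g3 g4 g5 g6 g7 g8 g9 g10 g11 g12 g13 gw
      rw [gw, g13, g12, g11, g10, g9, g8, g7, g6, g5, g4, g3, g2, g1, gQ]
      unfold RCase1 fs sn
      simp only [Nat.unpair_pair]
      exact gH
    · rintro ⟨σ, τ, hσ, hτ, w, hw⟩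
      obtain ⟨κ, hκ⟩ := exists_comp w (g := fun w => fs (fs w)) (c1_fs.comp c1_fs).to_comp
      obtain ⟨σ', hσ'⟩ := exists_comp w (g := fun w => fs (sn (fs w)))
        (c1_fs.comp (c1_sn.comp c1_fs)).to_comp
      obtain ⟨τ', hτ'⟩ := exists_comp w (g := fun w => fs (sn (sn (fs w))))
        (c1_fs.comp (c1_sn.comp (c1_sn.comp c1_fs))).to_comp
      obtain ⟨t0, ht0⟩ := exists_comp w (g := fun w => sn (sn (sn (fs w))))
        (c1_sn.comp (c1_sn.comp (c1_sn.comp c1_fs))).to_comp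
      obtain ⟨e, he⟩ := exists_comp w (g := fun w => fs (fs (sn w)))
        (c1_fs.comp (c1_fs.comp c1_sn)).to_comp
      obtain ⟨xe, hxe⟩ := exists_comp w (g := fun w => fs (sn (fs (sn w))))
        (c1_fs.comp (c1_sn.comp (c1_fs.comp c1_sn))).to_comp
      obtain ⟨r', hr'⟩ := exists_comp w (g := fun w => fs (fs (sn (sn w))))
        (c1_fs.comp (c1_fs.comp (c1_sn.comp c1_sn))).to_comp
      obtain ⟨xr, hxr⟩ := exists_comp w (g := fun w => fs (sn (fs (sn (sn w)))))
        (c1_fs.comp (c1_sn.comp (c1_fs.comp (c1_sn.comp c1_sn)))).to_comp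
      have hs3 : Primrec fun w : ℕ => sn (sn (sn w)) := c1_sn.comp (c1_sn.comp c1_sn)
      obtain ⟨r, hr⟩ := exists_comp w (g := fun w => fs (sn (sn (sn w)))) (c1_fs.comp hs3).to_comp
      obtain ⟨x, hx⟩ := exists_comp w (g := fun w => fs (sn (sn (sn (sn w)))))
        (c1_fs.comp (c1_sn.comp hs3)).to_comp
      obtain ⟨x', hx'⟩ := exists_comp w (g := fun w => fs (sn (sn (sn (sn (sn (sn w)))))))
        (c1_fs.comp (c1_sn.comp (c1_sn.comp (c1_sn.comp hs3)))).to_comp
      refine h.c1_sound c cA q qA yt gt a σ τ κ σ' τ' t0 e xe r' xr r x x'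
        (fun d => sn (sn (fs (sn (rep w d))))) (fun d => sn (sn (fs (sn (sn (rep w d))))))
        (fun d => fs (sn (sn (sn (sn (sn (rep w d)))))))
        (fun d => sn (sn (sn (sn (sn (sn (sn (rep w d)))))))) (hT κ).2 hyt hgt hσ hτ ?_
      filter_upwards [hw, hQ', hκ, hσ', hτ', ht0, he, hxe, hr', hxr, hr, hx, hx']
        with d gw gQ g1 g2 g3 g4 g5 g6 g7 g8 g9 g10 g11
      rw [g1, g2, g3, g4, g5, g6, g7, g8, g9, g10, g11]
      rw [gQ] at gw
      unfold RCase1 at gw
      have e1 : ∀ a b, fs (Nat.pair a b) = a := fun a b => by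
        unfold fs; rw [Nat.unpair_pair]
      have e2 : ∀ a b, sn (Nat.pair a b) = b := fun a b => by
        unfold sn; rw [Nat.unpair_pair]
      simp only [e1, e2] at gw
      exact gw


end


/-! ### minimality -/

section

variable {F : Set (ℕ → ℕ)} {U : Ultrafilter ℕ} {P : ℕ → ℕ} {u s : ℕ → ℕ → ℕ}

variable [hA : Fact (Adm F U (BB P u))]

theorem Ctx.minimal (h : Ctx F U P u s) {C : Set (Mod F U (BB P u))} (hC : SigmaDef true 1 C)
    (hle : TuringLE true (AS F U P u) C) :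
    TuringLE true C (AS F U P u) ∨ TuringLE true (KS F U P u) C := by
  obtain ⟨c, q, hcq⟩ := sigmaDef_elim hC
  have hCW : C = WS F U P u c q := Set.ext hcq
  subst hCW
  by_cases hj : ∃ j, ∀ r ∈ F, Ini U u r →
      ¬ Ini U u (fun d => yy (P d) c (rep q d) (EE u s d) (r d)) →
      ∀ᶠ d in (U : Filter ℕ), u j d + 2 ^ (s j d) ≤ yy (P d) c (rep q d) (EE u s d) (r d)
  · obtain ⟨j, hj⟩ := hj
    exact Or.inl (h.case2 c q j hj)
  · push Not at hj
    refine Or.inr (h.case1 c q hle fun j => ?_)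
    obtain ⟨r, hr, hI, hy, hn⟩ := hj j
    refine ⟨r, hr, hI, hy, ?_⟩
    exact hn

end

end Pool.Agent.Helper317.Sacks
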