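import Pool.Agent.Helper626.Deg

/-!
Initial segments of restricted ultrapowers of the standard model.
-/

namespace Pool.Agent.Helper317.Sacks

open FirstOrder FirstOrder.Language Filter
open Pool.Agent.Helper626
open Nat.Partrec (Code)

/-- admissible triples -/
structure Adm (F : Set (ℕ → ℕ)) (U : Ultrafilter ℕ) (B : ℕ → ℕ → ℕ) : Prop where
  const : ∀ k : ℕ, (fun _ => k) ∈ F
  pair : ∀ f ∈ F, ∀ g ∈ F, (fun d => Nat.pair (f d) (g d)) ∈ F
  comp : ∀ g : ℕ → ℕ, Computable g → ∀ f ∈ F, (fun d => g (f d)) ∈ F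
  Bmem : ∀ j, B j ∈ F
  Bmono : ∀ j, ∀ᶠ d in (U : Filter ℕ), B j d ≤ B (j + 1) d
  Brec : ∀ g : ℕ → ℕ, Computable g → ∀ j, ∃ j', ∀ᶠ d in (U : Filter ℕ), ∀ n, n ≤ B j d →
    g n ≤ B j' d

/-- the functions representing elements of the model -/
def IsPre (F : Set (ℕ → ℕ)) (U : Ultrafilter ℕ) (B : ℕ → ℕ → ℕ) (f : ℕ → ℕ) : Prop :=
  f ∈ F ∧ ∃ k, ∀ᶠ d in (U : Filter ℕ), f d ≤ B k d

instance preSetoid (F : Set (ℕ → ℕ)) (U : Ultrafilter ℕ) (B : ℕ → ℕ → ℕ) :
    Setoid {f : ℕ → ℕ // IsPre F U B f} where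
  r f g := ∀ᶠ d in (U : Filter ℕ), f.1 d = g.1 d
  iseqv := {
    refl := fun f => Eventually.of_forall fun d => rfl
    symm := fun h => h.mono fun d h => h.symm
    trans := fun h h' => h.mp (h'.mono fun d h' h => h.trans h') }

/-- the model -/
def Mod (F : Set (ℕ → ℕ)) (U : Ultrafilter ℕ) (B : ℕ → ℕ → ℕ) : Type := Quotient (preSetoid F U B)

section

variable {F : Set (ℕ → ℕ)} {U : Ultrafilter ℕ} {B : ℕ → ℕ → ℕ}

/-- representatives -/
noncomputable def rep (x : Mod F U B) : ℕ → ℕ := (Quotient.out x).1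

theorem rep_pre (x : Mod F U B) : IsPre F U B (rep x) := (Quotient.out x).2

theorem rep_ext {x y : Mod F U B} (h : ∀ᶠ d in (U : Filter ℕ), rep x d = rep y d) : x = y := by
  rw [← Quotient.out_eq x, ← Quotient.out_eq y]
  exact Quotient.sound h

/-- the element represented by a function -/
def mkM (f : ℕ → ℕ) (h : IsPre F U B f) : Mod F U B := Quotient.mk (preSetoid F U B) ⟨f, h⟩

theorem rep_mk (f : ℕ → ℕ) (h : IsPre F U B f) :
    ∀ᶠ d in (U : Filter ℕ), rep (mkM f h) d = f d := by
  have : Quotient.out (mkM f h) ≈ (⟨f, h⟩ : {f : ℕ → ℕ // IsPre F U B f}) := Quotient.mk_out _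
  exact this

theorem exists_rep (f : ℕ → ℕ) (h : IsPre F U B f) :
    ∃ x : Mod F U B, ∀ᶠ d in (U : Filter ℕ), rep x d = f d := ⟨_, rep_mk f h⟩

variable [hA : Fact (Adm F U B)]

omit hA in
theorem Adm.mono (A : Adm F U B) {i j : ℕ} (h : i ≤ j) : ∀ᶠ d in (U : Filter ℕ), B i d ≤ B j d := by
  induction h with
  | refl => exact Eventually.of_forall fun d => le_rfl
  | @step j h ih =>
    filter_upwards [ih, A.Bmono j] with d h1 h2
    exact h1.trans h2

theorem IsPre.pair {f g : ℕ → ℕ} (hf : IsPre F U B f) (hg : IsPre F U B g) :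
    IsPre F U B (fun d => Nat.pair (f d) (g d)) := by
  have A := hA.out
  refine ⟨A.pair f hf.1 g hg.1, ?_⟩
  obtain ⟨i, hi⟩ := hf.2
  obtain ⟨j, hj⟩ := hg.2
  have hc : Computable (fun n : ℕ => (n + 1) ^ 2) := by
    have hp : Primrec₂ (fun a b : ℕ => a ^ b) := Primrec₂.unpaired'.1 Nat.Primrec.pow
    exact (hp.comp Primrec.succ (Primrec.const 2)).to_comp
  obtain ⟨k, hk⟩ := A.Brec _ hc (max i j)
  refine ⟨k, ?_⟩
  filter_upwards [hi, hj, hk, A.mono (le_max_left i j), A.mono (le_max_right i j)]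
    with d h1 h2 h3 h4 h5
  refine (Nat.pair_lt_max_add_one_sq (f d) (g d)).le.trans ?_
  refine le_trans ?_ (h3 _ le_rfl)
  exact Nat.pow_le_pow_left (by have := max_le (h1.trans h4) (h2.trans h5); omega) 2

theorem IsPre.comp {f : ℕ → ℕ} (hf : IsPre F U B f) {g : ℕ → ℕ} (hg : Computable g) :
    IsPre F U B (fun d => g (f d)) := by
  have A := hA.out
  refine ⟨A.comp g hg f hf.1, ?_⟩
  obtain ⟨i, hi⟩ := hf.2
  obtain ⟨k, hk⟩ := A.Brec g hg i
  refine ⟨k, ?_⟩
  filter_upwards [hi, hk] with d h1 h2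
  exact h2 _ h1

theorem IsPre.of_le {f g : ℕ → ℕ} (hf : IsPre F U B f) (hg : g ∈ F)
    (h : ∀ᶠ d in (U : Filter ℕ), g d ≤ f d) : IsPre F U B g := by
  obtain ⟨i, hi⟩ := hf.2
  refine ⟨hg, i, ?_⟩
  filter_upwards [hi, h] with d h1 h2
  exact h2.trans h1

theorem IsPre.const (k : ℕ) : IsPre F U B (fun _ => k) := by
  have A := hA.out
  refine ⟨A.const k, ?_⟩
  obtain ⟨j, hj⟩ := A.Brec (fun _ => k) (Computable.const k) 0
  exact ⟨j, hj.mono fun d hd => hd 0 (Nat.zero_le _)⟩

theorem exists_comp (x : Mod F U B) {g : ℕ → ℕ} (hg : Computable g) :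
    ∃ y : Mod F U B, ∀ᶠ d in (U : Filter ℕ), rep y d = g (rep x d) :=
  exists_rep _ ((rep_pre x).comp hg)

theorem exists_pair (x y : Mod F U B) :
    ∃ z : Mod F U B, ∀ᶠ d in (U : Filter ℕ), rep z d = Nat.pair (rep x d) (rep y d) :=
  exists_rep _ ((rep_pre x).pair (rep_pre y))

theorem exists_const (k : ℕ) : ∃ z : Mod F U B, ∀ᶠ d in (U : Filter ℕ), rep z d = k :=
  exists_rep _ (IsPre.const k)

theorem exists_comp₂ (x y : Mod F U B) {g : ℕ → ℕ → ℕ} (hg : Computable₂ g) :
    ∃ z : Mod F U B, ∀ᶠ d in (U : Filter ℕ), rep z d = g (rep x d) (rep y d) := by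
  obtain ⟨p, hp⟩ := exists_pair x y
  have hc : Computable (fun n : ℕ => g n.unpair.1 n.unpair.2) :=
    hg.comp (Computable.fst.comp Computable.unpair) (Computable.snd.comp Computable.unpair)
  obtain ⟨z, hz⟩ := exists_comp p hc
  refine ⟨z, ?_⟩
  filter_upwards [hp, hz] with d h1 h2
  rw [h2, h1, Nat.unpair_pair]

theorem exists_enc : ∀ (n : ℕ) (x : Fin n → Mod F U B),
    ∃ z : Mod F U B, ∀ᶠ d in (U : Filter ℕ), rep z d = enc n (fun i => rep (x i) d)
  | 0, _ => exists_const 0
  | n + 1, x => by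
    obtain ⟨a, ha⟩ := exists_enc n (Fin.init x)
    obtain ⟨z, hz⟩ := exists_pair a (x (Fin.last n))
    refine ⟨z, ?_⟩
    filter_upwards [ha, hz] with d h1 h2
    rw [h2, h1]
    rfl

theorem exists_term {n : ℕ} {t : (Fin n → ℕ) → ℕ} (ht : T0 true t) (x : Fin n → Mod F U B) :
    ∃ z : Mod F U B, ∀ᶠ d in (U : Filter ℕ), rep z d = t (fun i => rep (x i) d) := by
  obtain ⟨a, ha⟩ := exists_enc n x
  obtain ⟨z, hz⟩ := exists_comp a (g := fun c => t (dec n c))
    (ht.primrec (dec n) (dec_primrec n)).to_comp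
  refine ⟨z, ?_⟩
  filter_upwards [ha, hz] with d h1 h2
  rw [h2, h1, dec_enc]

theorem exists_zero : ∃ z : Mod F U B, ∀ᶠ d in (U : Filter ℕ), rep z d = 0 := exists_const 0

theorem exists_one : ∃ z : Mod F U B, ∀ᶠ d in (U : Filter ℕ), rep z d = 1 := exists_const 1

theorem exists_add (x y : Mod F U B) :
    ∃ z : Mod F U B, ∀ᶠ d in (U : Filter ℕ), rep z d = rep x d + rep y d :=
  exists_term ((T0.var 0).add (T0.var 1)) ![x, y]

theorem exists_mul (x y : Mod F U B) :
    ∃ z : Mod F U B, ∀ᶠ d in (U : Filter ℕ), rep z d = rep x d * rep y d :=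
  exists_term ((T0.var 0).mul (T0.var 1)) ![x, y]

theorem exists_pow (x y : Mod F U B) :
    ∃ z : Mod F U B, ∀ᶠ d in (U : Filter ℕ), rep z d = rep x d ^ rep y d :=
  exists_term (T0.pow rfl (T0.var 0) (T0.var 1)) ![x, y]

noncomputable instance modOps : ArithOps (Mod F U B) where
  zero := Classical.choose (exists_zero (F := F) (U := U) (B := B))
  one := Classical.choose (exists_one (F := F) (U := U) (B := B))
  add x y := Classical.choose (exists_add x y)
  mul x y := Classical.choose (exists_mul x y)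
  pow x y := Classical.choose (exists_pow x y)
  lt x y := ∀ᶠ d in (U : Filter ℕ), rep x d < rep y d

theorem rep_zero : ∀ᶠ d in (U : Filter ℕ), rep (0 : Mod F U B) d = 0 :=
  Classical.choose_spec (exists_zero (F := F) (U := U) (B := B))

theorem rep_one : ∀ᶠ d in (U : Filter ℕ), rep (1 : Mod F U B) d = 1 :=
  Classical.choose_spec (exists_one (F := F) (U := U) (B := B))

theorem rep_add (x y : Mod F U B) :
    ∀ᶠ d in (U : Filter ℕ), rep (x + y) d = rep x d + rep y d :=
  Classical.choose_spec (exists_add x y)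

theorem rep_mul (x y : Mod F U B) :
    ∀ᶠ d in (U : Filter ℕ), rep (x * y) d = rep x d * rep y d :=
  Classical.choose_spec (exists_mul x y)

theorem rep_pow (x y : Mod F U B) :
    ∀ᶠ d in (U : Filter ℕ), rep (x ^ y) d = rep x d ^ rep y d :=
  Classical.choose_spec (exists_pow x y)

theorem lt_iff (x y : Mod F U B) :
    x < y ↔ ∀ᶠ d in (U : Filter ℕ), rep x d < rep y d := Iff.rfl

theorem eq_iff (x y : Mod F U B) :
    x = y ↔ ∀ᶠ d in (U : Filter ℕ), rep x d = rep y d :=
  ⟨fun h => Eventually.of_forall fun d => by rw [h], rep_ext⟩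

theorem rep_snoc {n : ℕ} (x : Fin n → Mod F U B) (y : Mod F U B) (d : ℕ) :
    (fun i => rep ((Fin.snoc x y : Fin (n + 1) → Mod F U B) i) d) =
      (Fin.snoc (fun i => rep (x i) d) (rep y d) : Fin (n + 1) → ℕ) := by
  funext i
  refine Fin.lastCases ?_ (fun i => ?_) i
  · simp
  · simp

theorem rep_append {n r : ℕ} (x : Fin n → Mod F U B) (y : Fin r → Mod F U B) (d : ℕ) :
    (fun i => rep (Fin.append x y i) d) =
      Fin.append (fun i => rep (x i) d) (fun i => rep (y i) d) := by
  funext i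
  refine Fin.addCases (fun i => ?_) (fun i => ?_) i
  · rw [Fin.append_left, Fin.append_left]
  · rw [Fin.append_right, Fin.append_right]

/-- bounded search -/
theorem exists_bounded {n : ℕ} {P : (Fin (n + 1) → ℕ) → Prop} (hP : D0 true P)
    (x : Fin n → Mod F U B) (b : Mod F U B)
    (h : ∀ᶠ d in (U : Filter ℕ), ∃ w, w < rep b d ∧ P (Fin.snoc (fun i => rep (x i) d) w)) :
    ∃ z : Mod F U B, ∀ᶠ d in (U : Filter ℕ), rep z d < rep b d ∧
      P (Fin.snoc (fun i => rep (x i) d) (rep z d)) := by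
  classical
  have h1 : PrimrecRel (fun (c w : ℕ) => w < c.unpair.2 ∧ P (Fin.snoc (dec n c.unpair.1) w)) := by
    have h2 : PrimrecPred (fun z : ℕ => P (Fin.snoc (dec n z.unpair.1) z.unpair.2)) := by
      refine hP.primrec (fun z => Fin.snoc (dec n z.unpair.1) z.unpair.2) ?_
      intro i
      refine Fin.lastCases ?_ (fun i => ?_) i
      · simp only [Fin.snoc_last]
        exact Primrec.snd.comp Primrec.unpair
      · simp only [Fin.snoc_castSucc]
        exact (dec_primrec n i).comp (Primrec.fst.comp Primrec.unpair)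
    have h3 : PrimrecPred (fun z : ℕ × ℕ =>
        P (Fin.snoc (dec n (Nat.pair z.1.unpair.1 z.2).unpair.1) (Nat.pair z.1.unpair.1 z.2).unpair.2)) :=
      h2.comp (Primrec₂.natPair.comp (Primrec.fst.comp (Primrec.unpair.comp Primrec.fst)) Primrec.snd)
    have h4 : PrimrecPred (fun z : ℕ × ℕ => z.2 < z.1.unpair.2) :=
      Primrec.nat_lt.comp Primrec.snd (Primrec.snd.comp (Primrec.unpair.comp Primrec.fst))
    refine (h4.and h3).of_eq ?_
    rintro ⟨c, w⟩
    simp
  have h5 : Primrec (fun c : ℕ => Nat.findGreatest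
      (fun w => w < c.unpair.2 ∧ P (Fin.snoc (dec n c.unpair.1) w)) c.unpair.2) :=
    Primrec.nat_findGreatest (Primrec.snd.comp Primrec.unpair) h1
  obtain ⟨a, ha⟩ := exists_enc n x
  obtain ⟨p, hp⟩ := exists_pair a b
  obtain ⟨z, hz⟩ := exists_comp p h5.to_comp
  refine ⟨z, ?_⟩
  filter_upwards [h, ha, hp, hz] with d h1 h2 h3 h4
  obtain ⟨w, hw, hw'⟩ := h1
  rw [h3, h2] at h4
  simp only [Nat.unpair_pair, dec_enc] at h4
  have h6 := Nat.findGreatest_spec (P := fun w => w < rep b d ∧
    P (Fin.snoc (fun i => rep (x i) d) w)) hw.le ⟨hw, hw'⟩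
  rw [h4]
  exact h6

/-- Łoś for terms -/
theorem los_term {n : ℕ} (t : Trm true n) (x : Fin n → Mod F U B) :
    ∀ᶠ d in (U : Filter ℕ), rep (tval t x) d = tval t (fun i => rep (x i) d) := by
  unfold tval
  induction t with
  | var a =>
    rcases a with a | i
    · exact a.elim
    · exact Eventually.of_forall fun d => rfl
  | @func l f ts ih =>
    change AFunc true l at f
    cases f with
    | zero => exact rep_zero
    | one => exact rep_one
    | add =>
      filter_upwards [ih 0, ih 1, rep_add (F := F) (U := U) (B := B)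
        ((ts 0).realize (Sum.elim (fun a : Empty => a.elim) x))
        ((ts 1).realize (Sum.elim (fun a : Empty => a.elim) x))] with d h0 h1 h2
      refine Eq.trans h2 ?_
      rw [h0, h1]
      rfl
    | mul =>
      filter_upwards [ih 0, ih 1, rep_mul (F := F) (U := U) (B := B)
        ((ts 0).realize (Sum.elim (fun a : Empty => a.elim) x))
        ((ts 1).realize (Sum.elim (fun a : Empty => a.elim) x))] with d h0 h1 h2
      refine Eq.trans h2 ?_
      rw [h0, h1]
      rfl
    | pow h =>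
      filter_upwards [ih 0, ih 1, rep_pow (F := F) (U := U) (B := B)
        ((ts 0).realize (Sum.elim (fun a : Empty => a.elim) x))
        ((ts 1).realize (Sum.elim (fun a : Empty => a.elim) x))] with d h0 h1 h2
      refine Eq.trans h2 ?_
      rw [h0, h1]
      rfl

/-- Łoś for bounded formulas -/
theorem los_delta {n : ℕ} {φ : Fml true n} (h : IsDelta0 φ) : ∀ x : Fin n → Mod F U B,
    (Sat φ x ↔ ∀ᶠ d in (U : Filter ℕ), Sat φ (fun i => rep (x i) d)) := by
  induction h with
  | falsum =>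
    intro x
    simp only [sat_bot]
    rw [Filter.eventually_false_iff_eq_bot]
    exact ⟨fun h => h.elim, fun h => U.neBot.ne h⟩
  | eq s t =>
    intro x
    simp only [sat_eq, eq_iff]
    constructor
    · intro h
      filter_upwards [h, los_term s x, los_term t x] with d h1 h2 h3
      rw [← h2, ← h3, h1]
    · intro h
      filter_upwards [h, los_term s x, los_term t x] with d h1 h2 h3
      rw [h2, h3, h1]
  | lt s t =>
    intro x
    simp only [sat_lt, lt_iff]
    constructor
    · intro h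
      filter_upwards [h, los_term s x, los_term t x] with d h1 h2 h3
      rw [← h2, ← h3]
      exact h1
    · intro h
      filter_upwards [h, los_term s x, los_term t x] with d h1 h2 h3
      rw [h2, h3]
      exact h1
  | imp _ _ ih1 ih2 =>
    intro x
    simp only [sat_imp, Ultrafilter.eventually_imp]
    rw [ih1, ih2]
  | @ball n t φ hφ ih =>
    intro x
    simp only [sat_ball]
    constructor
    · intro h
      by_contra hcon
      rw [← Ultrafilter.eventually_not] at hcon
      obtain ⟨z, hz⟩ := exists_bounded (D0.of_delta0 hφ).not x (tval t x) (by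
        filter_upwards [hcon, los_term t x] with d hd h2
        push Not at hd
        obtain ⟨y, hy1, hy2⟩ := hd
        exact ⟨y, by rw [h2]; exact hy1, hy2⟩)
      have h1 : z < tval t x := by
        rw [lt_iff]
        filter_upwards [hz] with d h1
        exact h1.1
      have h2 := (ih _).1 (h z h1)
      simp only [rep_snoc] at h2
      obtain ⟨d, hd1, hd2⟩ := (hz.and h2).exists
      exact hd1.2 hd2
    · intro h y hy
      rw [ih]
      simp only [rep_snoc]
      filter_upwards [h, hy, los_term t x] with d h1 h2 h3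
      exact h1 _ (by rw [← h3]; exact h2)

end

end Pool.Agent.Helper317.Sacks
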