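import Pool.Agent.Helper317.Sacks.CtxDefs
import Pool.Agent.Helper317.Sacks.Model

/-!
The model: bounds, the cut, the sets.
-/

namespace Pool.Agent.Helper317.Sacks

open FirstOrder FirstOrder.Language Filter
open Pool.Agent.Helper626

/-- the bounds -/
noncomputable def BB (P : ℕ → ℕ) (u : ℕ → ℕ → ℕ) (j d : ℕ) : ℕ := X (P d) (u j d)

/-- below the cut -/
def Ini (U : Ultrafilter ℕ) (u : ℕ → ℕ → ℕ) (f : ℕ → ℕ) : Prop :=
  ∃ j, ∀ᶠ d in (U : Filter ℕ), f d < u j d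

/-- the set coding the positions of the markers -/
def AS (F : Set (ℕ → ℕ)) (U : Ultrafilter ℕ) (P : ℕ → ℕ) (u : ℕ → ℕ → ℕ) : Set (Mod F U (BB P u)) :=
  {z | ∃ t : Mod F U (BB P u), ∀ᶠ d in (U : Filter ℕ),
    (rep z d).unpair.2 ≤ rep t d ∧ len (P d) (rep t d) ≤ (rep z d).unpair.1}

/-- the halting problem -/
def KS (F : Set (ℕ → ℕ)) (U : Ultrafilter ℕ) (P : ℕ → ℕ) (u : ℕ → ℕ → ℕ) : Set (Mod F U (BB P u)) :=
  {z | ∃ t : Mod F U (BB P u), ∀ᶠ d in (U : Filter ℕ), halt (rep t d) (rep z d) = true}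

/-- the c.e. set with program `c` and parameter `q` -/
def WS (F : Set (ℕ → ℕ)) (U : Ultrafilter ℕ) (P : ℕ → ℕ) (u : ℕ → ℕ → ℕ) (c : ℕ)
    (q : Mod F U (BB P u)) : Set (Mod F U (BB P u)) :=
  {z | ∃ t : Mod F U (BB P u), ∀ᶠ d in (U : Filter ℕ),
    halt (rep t d) (Nat.pair c (Nat.pair (rep q d) (rep z d))) = true}

end Pool.Agent.Helper317.Sacks
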