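import Pool.Agent.Helper317.Sacks.Proc

/-!
The data from which the model is built.
-/

namespace Pool.Agent.Helper317.Sacks

open Filter
open Nat.Partrec (Code)

open Classical in
/-- the least number related to `n` -/
noncomputable def pick (R : ℕ → ℕ → Prop) (n : ℕ) : ℕ := if h : ∃ w, R n w then Nat.find h else 0

theorem pick_spec {R : ℕ → ℕ → Prop} {n : ℕ} (h : ∃ w, R n w) : R n (pick R n) := by
  classical
  unfold pick
  rw [dif_pos h]
  exact Nat.find_spec h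

theorem pick_le {R : ℕ → ℕ → Prop} {n w : ℕ} (h : R n w) : pick R n ≤ w := by
  classical
  unfold pick
  rw [dif_pos ⟨w, h⟩]
  exact Nat.find_min' _ h

/-- the pair `z` is below the limit position of the marker -/
def AN (P z : ℕ) : Prop := z.unpair.2 ≤ X P z.unpair.1

/-- the program (with code `e`) watching whether the node `(w, s)` is completed after stage `m` -/
def prg (e P w s m : ℕ) : ℕ := Nat.pair e (Nat.pair P (Nat.pair w (Nat.pair s m)))

/-- the node `(w, s)` is completed before `k` although the reduction with program `c` and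
parameter `q` says before stage `X P k`, with oracle information `σ`, `τ`, that it is not -/
def Fail (P e c q k w s σ τ t : ℕ) : Prop :=
  w < k ∧ s < k ∧ 0 < w ∧ 2 ^ s ∣ w ∧ w + 2 ^ s ≤ k ∧ σ < X P k ∧ τ < X P k ∧ t < X P k ∧
    halt t (Nat.pair c (Nat.pair q (Nat.pair (2 ^ prg e P w s (X P w)) (Nat.pair σ τ)))) = true ∧
    (∀ z, Nat.testBit σ z = true → AN P z) ∧ (∀ z, Nat.testBit τ z = true → ¬ AN P z)

/-- the least element entering between two stages -/
def bfun (c q x x' : ℕ) : ℕ := (List.range x).findIdx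
  (fun z => halt x' (Nat.pair c (Nat.pair q z)) && !halt x (Nat.pair c (Nat.pair q z)))

/-- the least element entering between the stages given by two successive markers -/
noncomputable def bb (P c q r : ℕ) : ℕ := bfun c q (X P r) (X P (r + 1))

/-- the last marker up to which the approximation at marker `r` is correct below `bb` -/
noncomputable def yy (P c q E r : ℕ) : ℕ :=
  Nat.findGreatest (fun r' => ∀ z, z < bb P c q r → halt (X P r') (Nat.pair c (Nat.pair q z)) = true →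
    halt (X P r) (Nat.pair c (Nat.pair q z)) = true) E

/-- the last marker up to which the approximation of the halting problem below `X P e` at marker
`r` is correct -/
noncomputable def gg (P E e r : ℕ) : ℕ :=
  Nat.findGreatest (fun r' => ∀ z, z < X P e → halt (X P r') z = true → halt (X P r) z = true) E

/-- reading a table -/
def tab (w i : ℕ) : ℕ := (Denumerable.ofNat (List ℕ) w).getD i 0

def RX (n w : ℕ) : Prop := w = X n.unpair.1 n.unpair.2

def Rin (n w : ℕ) : Prop := Nat.testBit n.unpair.2 w = true ∧ AN n.unpair.1 w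

def Rout (n w : ℕ) : Prop := Nat.testBit n.unpair.2 w = true ∧ ¬ AN n.unpair.1 w

/-- `n = ⟨P, ⟨e, ⟨c, ⟨q, k⟩⟩⟩⟩`, `y = ⟨w, ⟨s, ⟨σ, ⟨τ, t⟩⟩⟩⟩` -/
def Rfail (n y : ℕ) : Prop :=
  Fail n.unpair.1 n.unpair.2.unpair.1 n.unpair.2.unpair.2.unpair.1
    n.unpair.2.unpair.2.unpair.2.unpair.1 n.unpair.2.unpair.2.unpair.2.unpair.2
    y.unpair.1 y.unpair.2.unpair.1 y.unpair.2.unpair.2.unpair.1
    y.unpair.2.unpair.2.unpair.2.unpair.1 y.unpair.2.unpair.2.unpair.2.unpair.2

/-- `n = ⟨P, ⟨e, ⟨c, q⟩⟩⟩` -/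
def Rleast (n k : ℕ) : Prop :=
  ∃ w s σ τ t, Fail n.unpair.1 n.unpair.2.unpair.1 n.unpair.2.unpair.2.unpair.1
    n.unpair.2.unpair.2.unpair.2 k w s σ τ t

/-- `n = ⟨P, ⟨c, ⟨q, E⟩⟩⟩` -/
def Rytab (n w : ℕ) : Prop :=
  w = Encodable.encode ((List.range (n.unpair.2.unpair.2.unpair.2 + 1)).map
    (yy n.unpair.1 n.unpair.2.unpair.1 n.unpair.2.unpair.2.unpair.1 n.unpair.2.unpair.2.unpair.2))

/-- `n = ⟨P, E⟩` -/
def Rgtab (n w : ℕ) : Prop :=
  w = Encodable.encode ((List.range ((n.unpair.2 + 1) * (n.unpair.2 + 1))).map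
    (fun k => gg n.unpair.1 n.unpair.2 (k / (n.unpair.2 + 1)) (k % (n.unpair.2 + 1))))

/-- `n = ⟨P, ⟨v, z⟩⟩` -/
def Rlast (n w : ℕ) : Prop :=
  w = Nat.findGreatest (fun r => halt (X n.unpair.1 r) n.unpair.2.unpair.2 = false)
    n.unpair.2.unpair.1

/-- the relations whose choice functions are added -/
def RR : Set (ℕ → ℕ → Prop) := {RX, Rin, Rout, Rfail, Rleast, Rytab, Rgtab, Rlast}

/-- the data: a countable set `F` of functions, an ultrafilter, the parameters of the process and a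
decreasing sequence of nodes shrinking to a cut -/
structure Ctx (F : Set (ℕ → ℕ)) (U : Ultrafilter ℕ) (P : ℕ → ℕ) (u s : ℕ → ℕ → ℕ) : Prop where
  const : ∀ k : ℕ, (fun _ => k) ∈ F
  pair : ∀ f ∈ F, ∀ g ∈ F, (fun d => Nat.pair (f d) (g d)) ∈ F
  comp : ∀ g : ℕ → ℕ, Computable g → ∀ f ∈ F, (fun d => g (f d)) ∈ F
  pick : ∀ R ∈ RR, ∀ f ∈ F, (fun d => pick R (f d)) ∈ F
  Pmem : P ∈ F
  umem : ∀ j, u j ∈ F
  smem : ∀ j, s j ∈ F
  good : ∀ d, Good (P d)
  tot : ∀ c : Code, (∀ n, (c.eval n).Dom) → ∀ᶠ d in (U : Filter ℕ), Encodable.encode c ∈ WW (P d)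
  pos : ∀ j, ∀ᶠ d in (U : Filter ℕ), 0 < u j d ∧ 2 ^ (s j d) ∣ u j d
  nest : ∀ j, ∀ᶠ d in (U : Filter ℕ), u j d < u (j + 1) d ∧
    u (j + 1) d + 2 ^ (s (j + 1) d) ≤ u j d + 2 ^ (s j d)
  gap : ∀ f ∈ F, (∃ j, ∀ᶠ d in (U : Filter ℕ), f d < u j d) ∨
    ∃ j, ∀ᶠ d in (U : Filter ℕ), u j d + 2 ^ (s j d) ≤ f d
  big : ∀ d, ∀ L : List ℕ, L.length ≤ (u 0 d + 2 ^ (s 0 d) + 2) ^ 2 →
    (∀ x ∈ L, x ≤ u 0 d + 2 ^ (s 0 d) + 2) → Encodable.encode L ≤ P d

end Pool.Agent.Helper317.Sacks
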