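import Pool.Agent.Helper317.Sacks.CtxDefs

/-!
Existence of the data.
-/

namespace Pool.Agent.Helper317.Sacks

open Filter
open Nat.Partrec (Code)


/-! ### part 24370 -/

/-- stages of the closure -/
def exists_closed_family_S (J G : Set (ℕ → ℕ)) : ℕ → Set (ℕ → ℕ)
  | 0 => J
  | n + 1 => exists_closed_family_S J G n ∪
      (Set.image2 (fun f g : ℕ → ℕ => fun d => Nat.pair (f d) (g d))
        (exists_closed_family_S J G n) (exists_closed_family_S J G n) ∪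
      Set.image2 (fun g f : ℕ → ℕ => fun d => g (f d)) G (exists_closed_family_S J G n))

theorem exists_closed_family (J G : Set (ℕ → ℕ)) (hJ : J.Countable) (hG : G.Countable) :
    ∃ F : Set (ℕ → ℕ), F.Countable ∧ J ⊆ F ∧
      (∀ f ∈ F, ∀ g ∈ F, (fun d => Nat.pair (f d) (g d)) ∈ F) ∧
      (∀ g ∈ G, ∀ f ∈ F, (fun d => g (f d)) ∈ F) := by
  have hcount : ∀ n, (exists_closed_family_S J G n).Countable := by
    intro n
    induction n with
    | zero => exact hJ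
    | succ n ih => exact ih.union ((ih.image2 ih _).union (hG.image2 ih _))
  have hmono : Monotone (exists_closed_family_S J G) :=
    monotone_nat_of_le_succ (fun n => Set.subset_union_left)
  refine ⟨⋃ n, exists_closed_family_S J G n, Set.countable_iUnion hcount,
    Set.subset_iUnion (exists_closed_family_S J G) 0, ?_, ?_⟩
  · intro f hf g hg
    obtain ⟨a, ha⟩ := Set.mem_iUnion.1 hf
    obtain ⟨b, hb⟩ := Set.mem_iUnion.1 hg
    refine Set.mem_iUnion.2 ⟨max a b + 1, ?_⟩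
    exact Or.inr (Or.inl ⟨f, hmono (le_max_left a b) ha, g, hmono (le_max_right a b) hb, rfl⟩)
  · intro g hg f hf
    obtain ⟨a, ha⟩ := Set.mem_iUnion.1 hf
    exact Set.mem_iUnion.2 ⟨a + 1, Or.inr (Or.inr ⟨g, hg, f, ha, rfl⟩)⟩

theorem countable_computable : {g : ℕ → ℕ | Computable g}.Countable := by
  have h : ∀ g : {g : ℕ → ℕ | Computable g}, ∃ c : Code, c.eval = fun n => Part.some (g.1 n) := by
    intro g
    have h1 : Nat.Partrec (fun n => Part.some (g.1 n)) :=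
      Partrec.nat_iff.1 (Computable.partrec g.2)
    obtain ⟨c, hc⟩ := Code.exists_code.1 h1
    exact ⟨c, hc⟩
  choose F hF using h
  have hinj : Function.Injective F := by
    intro g g' hgg
    apply Subtype.ext
    funext n
    have h1 := hF g
    rw [hgg, hF g'] at h1
    have h2 := congrFun h1 n
    exact (Part.some_injective h2).symm
  exact Set.countable_coe_iff.1 hinj.countable


/-! ### part 24371 -/

theorem aux_pow_prim : Primrec₂ (fun a b : ℕ => a ^ b) := Primrec₂.unpaired'.1 Nat.Primrec.pow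

theorem aux_g (c : ℕ) : Computable (fun n : ℕ => n.unpair.1 + 2 ^ (n.unpair.2 - c)) := by
  have h1 : Primrec (fun n : ℕ => n.unpair.1) := Primrec.fst.comp Primrec.unpair
  have h2 : Primrec (fun n : ℕ => n.unpair.2) := Primrec.snd.comp Primrec.unpair
  have h3 : Primrec (fun n : ℕ => n.unpair.2 - c) := Primrec.nat_sub.comp h2 (Primrec.const c)
  have h4 : Primrec (fun n : ℕ => 2 ^ (n.unpair.2 - c)) := aux_pow_prim.comp (Primrec.const 2) h3
  exact (Primrec.nat_add.comp h1 h4).to_comp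

theorem aux_sub (c : ℕ) : Computable (fun n : ℕ => n - c) :=
  (Primrec.nat_sub.comp Primrec.id (Primrec.const c)).to_comp

theorem aux_two : Computable (fun n : ℕ => 2 ^ n) :=
  (aux_pow_prim.comp (Primrec.const 2) Primrec.id).to_comp

/-- the invariant -/
def Inv (F : Set (ℕ → ℕ)) (U : Ultrafilter ℕ) (p : (ℕ → ℕ) × (ℕ → ℕ)) : Prop :=
  p.1 ∈ F ∧ p.2 ∈ F ∧ (∀ k : ℕ, ∀ᶠ d in (U : Filter ℕ), k < p.2 d) ∧
    ∀ᶠ d in (U : Filter ℕ), 0 < p.1 d ∧ 2 ^ (p.2 d) ∣ p.1 d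

theorem aux_new (F : Set (ℕ → ℕ)) (U : Ultrafilter ℕ)
    (hpair : ∀ f ∈ F, ∀ g ∈ F, (fun d => Nat.pair (f d) (g d)) ∈ F)
    (hcomp : ∀ g : ℕ → ℕ, Computable g → ∀ f ∈ F, (fun d => g (f d)) ∈ F)
    (p : (ℕ → ℕ) × (ℕ → ℕ)) (hp : Inv F U p) (c : ℕ) :
    Inv F U (fun d => p.1 d + 2 ^ (p.2 d - c), fun d => p.2 d - c) := by
  obtain ⟨h1, h2, h3, h4⟩ := hp
  refine ⟨?_, hcomp _ (aux_sub c) _ h2, ?_, ?_⟩
  · have := hcomp _ (aux_g c) _ (hpair _ h1 _ h2)
    simpa using this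
  · intro k
    filter_upwards [h3 (k + c)] with d hd
    show k < p.2 d - c
    omega
  · filter_upwards [h4] with d hd
    refine ⟨by positivity, ?_⟩
    exact dvd_add ((pow_dvd_pow 2 (Nat.sub_le _ _)).trans hd.2) dvd_rfl

theorem aux_step (F : Set (ℕ → ℕ)) (U : Ultrafilter ℕ)
    (hpair : ∀ f ∈ F, ∀ g ∈ F, (fun d => Nat.pair (f d) (g d)) ∈ F)
    (hcomp : ∀ g : ℕ → ℕ, Computable g → ∀ f ∈ F, (fun d => g (f d)) ∈ F)
    (p : {p : (ℕ → ℕ) × (ℕ → ℕ) // Inv F U p}) (f : ℕ → ℕ) :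
    ∃ p' : {p : (ℕ → ℕ) × (ℕ → ℕ) // Inv F U p},
      (∀ᶠ d in (U : Filter ℕ), p.1.1 d < p'.1.1 d ∧ p'.1.1 d + 2 ^ (p'.1.2 d) ≤ p.1.1 d + 2 ^ (p.1.2 d)) ∧
      ((∀ᶠ d in (U : Filter ℕ), f d < p'.1.1 d) ∨ ∀ᶠ d in (U : Filter ℕ), p'.1.1 d + 2 ^ (p'.1.2 d) ≤ f d) := by
  obtain ⟨⟨u, s⟩, hp⟩ := p
  have h3 : ∀ᶠ d in (U : Filter ℕ), 2 < s d := hp.2.2.1 2
  by_cases hc : ∀ᶠ d in (U : Filter ℕ), f d < u d + 2 ^ (s d - 1)
  · refine ⟨⟨(fun d => u d + 2 ^ (s d - 1), fun d => s d - 1), aux_new F U hpair hcomp (u, s) hp 1⟩, ?_, Or.inl hc⟩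
    filter_upwards [h3] with d hd
    show u d < u d + 2 ^ (s d - 1) ∧ u d + 2 ^ (s d - 1) + 2 ^ (s d - 1) ≤ u d + 2 ^ s d
    have e : 2 ^ s d = 2 ^ (s d - 1) + 2 ^ (s d - 1) := by
      have : s d = (s d - 1) + 1 := by omega
      conv_lhs => rw [this, pow_succ]
      ring
    have h0 : 0 < 2 ^ (s d - 1) := by positivity
    constructor <;> omega
  · have hc' : ∀ᶠ d in (U : Filter ℕ), ¬ (f d < u d + 2 ^ (s d - 1)) := Ultrafilter.eventually_not.2 hc
    refine ⟨⟨(fun d => u d + 2 ^ (s d - 2), fun d => s d - 2), aux_new F U hpair hcomp (u, s) hp 2⟩, ?_, Or.inr ?_⟩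
    · filter_upwards [h3] with d hd
      show u d < u d + 2 ^ (s d - 2) ∧ u d + 2 ^ (s d - 2) + 2 ^ (s d - 2) ≤ u d + 2 ^ s d
      have e : 2 ^ s d = 4 * 2 ^ (s d - 2) := by
        have : s d = (s d - 2) + 2 := by omega
        conv_lhs => rw [this, pow_add]
        ring
      have h0 : 0 < 2 ^ (s d - 2) := by positivity
      constructor <;> omega
    · filter_upwards [h3, hc'] with d hd hd'
      show u d + 2 ^ (s d - 2) + 2 ^ (s d - 2) ≤ f d
      have e : 2 ^ (s d - 1) = 2 * 2 ^ (s d - 2) := by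
        have : s d - 1 = (s d - 2) + 1 := by omega
        rw [this, pow_succ]
        ring
      omega

theorem exists_path (F : Set (ℕ → ℕ)) (hF : F.Countable) (hne : F.Nonempty) (U : Ultrafilter ℕ)
    (hU : ∀ k : ℕ, ∀ᶠ d in (U : Filter ℕ), k < d)
    (hpair : ∀ f ∈ F, ∀ g ∈ F, (fun d => Nat.pair (f d) (g d)) ∈ F)
    (hcomp : ∀ g : ℕ → ℕ, Computable g → ∀ f ∈ F, (fun d => g (f d)) ∈ F)
    (hid : (fun d => d) ∈ F) :
    ∃ u s : ℕ → ℕ → ℕ, (∀ d, u 0 d = 2 ^ d) ∧ (∀ d, s 0 d = d) ∧ (∀ j, u j ∈ F) ∧ (∀ j, s j ∈ F) ∧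
      (∀ j, ∀ᶠ d in (U : Filter ℕ), 0 < u j d ∧ 2 ^ (s j d) ∣ u j d) ∧
      (∀ j, ∀ᶠ d in (U : Filter ℕ), u j d < u (j + 1) d ∧
        u (j + 1) d + 2 ^ (s (j + 1) d) ≤ u j d + 2 ^ (s j d)) ∧
      (∀ f ∈ F, (∃ j, ∀ᶠ d in (U : Filter ℕ), f d < u j d) ∨
        ∃ j, ∀ᶠ d in (U : Filter ℕ), u j d + 2 ^ (s j d) ≤ f d) := by
  obtain ⟨e, he⟩ := hF.exists_eq_range hne
  have h0 : Inv F U (fun d => 2 ^ d, fun d => d) := by
    refine ⟨?_, hid, hU, ?_⟩
    · exact hcomp _ aux_two _ hid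
    · exact Eventually.of_forall fun d => ⟨by positivity, dvd_rfl⟩
  choose nx hnx1 hnx2 using aux_step F U hpair hcomp
  let sq : ℕ → {p : (ℕ → ℕ) × (ℕ → ℕ) // Inv F U p} := fun j =>
    Nat.rec ⟨_, h0⟩ (fun j p => nx p (e j)) j
  have hsucc : ∀ j, sq (j + 1) = nx (sq j) (e j) := fun j => rfl
  refine ⟨fun j => (sq j).1.1, fun j => (sq j).1.2, fun d => rfl, fun d => rfl, fun j => (sq j).2.1,
    fun j => (sq j).2.2.1, fun j => (sq j).2.2.2.2, ?_, ?_⟩
  · intro j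
    have := hnx1 (sq j) (e j)
    rw [← hsucc] at this
    exact this
  · intro f hf
    rw [he] at hf
    obtain ⟨j, rfl⟩ := hf
    have := hnx2 (sq j) (e j)
    rw [← hsucc] at this
    rcases this with h | h
    · exact Or.inl ⟨j + 1, h⟩
    · exact Or.inr ⟨j + 1, h⟩


/-! ### part 24372 -/

theorem exists_param_fin (k B : ℕ) :
    {L : List ℕ | L.length ≤ k ∧ ∀ x ∈ L, x ≤ B}.Finite := by
  apply ((List.finite_length_le (Fin (B + 1)) k).image (List.map (fun i : Fin (B + 1) => i.1))).subset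
  rintro L ⟨h1, h2⟩
  refine ⟨L.map (Fin.ofNat (B + 1)), ?_, ?_⟩
  · simpa using h1
  · rw [List.map_map]
    conv_rhs => rw [← List.map_id L]
    apply List.map_congr_left
    intro x hx
    have := h2 x hx
    simp only [Function.comp, Fin.ofNat, id]
    exact Nat.mod_eq_of_lt (by omega)

theorem exists_param (E : ℕ → ℕ) : ∃ P : ℕ → ℕ, (∀ d, Good (P d)) ∧
    (∀ c : Code, (∀ n, (c.eval n).Dom) → ∀ d, Encodable.encode c < d → Encodable.encode c ∈ WW (P d)) ∧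
    ∀ d, ∀ L : List ℕ, L.length ≤ (E d + 2) ^ 2 → (∀ x ∈ L, x ≤ E d + 2) → Encodable.encode L ≤ P d := by
  classical
  have hm : ∀ d, ∃ m : ℕ, ∀ L : List ℕ, L.length ≤ (E d + 2) ^ 2 → (∀ x ∈ L, x ≤ E d + 2) →
      Encodable.encode L ≤ m := by
    intro d
    obtain ⟨m, hm⟩ := ((exists_param_fin ((E d + 2) ^ 2) (E d + 2)).image
      (Encodable.encode)).bddAbove
    exact ⟨m, fun L h1 h2 => hm ⟨L, ⟨h1, h2⟩, rfl⟩⟩
  choose m hm using hm
  set W : ℕ → List ℕ := fun d => (List.range d).filter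
    (fun c => decide (∀ n, (Code.eval (Denumerable.ofNat Code c) n).Dom)) with hW
  have hWW : ∀ d, WW (Nat.pair (Encodable.encode (W d)) (m d)) = W d := by
    intro d
    unfold WW
    rw [Nat.unpair_pair]
    exact Denumerable.ofNat_encode (W d)
  refine ⟨fun d => Nat.pair (Encodable.encode (W d)) (m d), ?_, ?_, ?_⟩
  · intro d c hc n
    beta_reduce at hc
    rw [hWW, hW, List.mem_filter] at hc
    have := hc.2
    rw [decide_eq_true_eq] at this
    exact this n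
  · intro c hc d hcd
    beta_reduce
    rw [hWW, hW, List.mem_filter]
    refine ⟨List.mem_range.2 hcd, ?_⟩
    rw [decide_eq_true_eq]
    intro n
    rw [Denumerable.ofNat_encode]
    exact hc n
  · intro d L h1 h2
    exact (hm d L h1 h2).trans (Nat.right_le_pair _ _)


/-! ### part 24373 -/

theorem exists_ctx : ∃ (F : Set (ℕ → ℕ)) (U : Ultrafilter ℕ) (P : ℕ → ℕ) (u s : ℕ → ℕ → ℕ),
    Ctx F U P u s := by
  classical
  have hU : ∀ k : ℕ, ∀ᶠ d in ((Filter.hyperfilter ℕ : Ultrafilter ℕ) : Filter ℕ), k < d := by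
    intro k
    have h : ((Filter.hyperfilter ℕ : Ultrafilter ℕ) : Filter ℕ) ≤ atTop := by
      rw [← Nat.cofinite_eq_atTop]
      exact Filter.hyperfilter_le_cofinite
    exact h (eventually_gt_atTop k)
  obtain ⟨P, hP1, hP2, hP3⟩ := exists_param (fun d => 2 ^ d + 2 ^ d)
  have hJ : (({(fun d => d), P} : Set (ℕ → ℕ)) ∪ Set.range (fun (k : ℕ) (_ : ℕ) => k)).Countable :=
    ((Set.countable_singleton _).insert _).union (Set.countable_range _)
  have hRR : RR.Countable := by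
    unfold RR
    exact (Set.toFinite _).countable
  have hG : ({g : ℕ → ℕ | Computable g} ∪ pick '' RR).Countable :=
    countable_computable.union (hRR.image _)
  obtain ⟨F, hFc, hJF, hpair, hcomp⟩ := exists_closed_family _ _ hJ hG
  have hid : (fun d => d) ∈ F := hJF (Or.inl (Or.inl rfl))
  have hPF : P ∈ F := hJF (Or.inl (Or.inr rfl))
  have hcomp' : ∀ g : ℕ → ℕ, Computable g → ∀ f ∈ F, (fun d => g (f d)) ∈ F :=
    fun g hg f hf => hcomp g (Or.inl hg) f hf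
  obtain ⟨u, s, hu0, hs0, huF, hsF, hpos, hnest, hgap⟩ :=
    exists_path F hFc ⟨_, hid⟩ (Filter.hyperfilter ℕ) hU hpair hcomp' hid
  refine ⟨F, Filter.hyperfilter ℕ, P, u, s, ?_⟩
  exact {
    const := fun k => hJF (Or.inr ⟨k, rfl⟩)
    pair := hpair
    comp := hcomp'
    pick := fun R hR f hf => hcomp (pick R) (Or.inr ⟨R, hR, rfl⟩) f hf
    Pmem := hPF
    umem := huF
    smem := hsF
    good := hP1
    tot := fun c hc => (hU (Encodable.encode c)).mono (fun d hd => hP2 c hc d hd)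
    pos := hpos
    nest := hnest
    gap := hgap
    big := by
      intro d L h1 h2
      rw [hu0, hs0] at h1
      rw [hu0, hs0] at h2
      exact hP3 d L h1 h2 }


end Pool.Agent.Helper317.Sacks
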