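import Pool.Agent.Helper317.Sacks.CtxEx
import Pool.Agent.Helper317.Sacks.Core4

/-!
The theorem.
-/

namespace Pool.Agent.Helper317.Sacks

open Pool.Agent.Helper626

theorem exists_gap : ∃ (M : Type) (_ : ArithOps M), PAminusExp M ∧ ISigma true 1 M ∧
    ¬ BSigma true 2 M ∧ ∃ A B : Set M, SigmaDef true 1 A ∧ SigmaDef true 1 B ∧
      (∀ C : Set M, SigmaDef true 1 C → TuringLE true C B) ∧
      TuringLE true A B ∧ ¬ TuringLE true B A ∧
      ∀ C : Set M, SigmaDef true 1 C → TuringLE true A C → TuringLE true C A ∨ TuringLE true B C := by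
  obtain ⟨F, U, P, u, s, h⟩ := exists_ctx
  haveI : Fact (Adm F U (BB P u)) := ⟨h.adm⟩
  exact ⟨Mod F U (BB P u), modOps, mod_PAminusExp, h.isigma, h.not_bsigma, AS F U P u, KS F U P u,
    h.AS_sigma, h.KS_sigma, fun C hC => h.le_KS hC, h.le_KS h.AS_sigma, h.KS_not_le,
    fun C hC hle => h.minimal hC hle⟩

end Pool.Agent.Helper317.Sacks
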