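import Mathlib

/-!
A process moving markers, in the standard model.
-/

namespace Pool.Agent.Helper317.Sacks

open Nat.Partrec (Code)

/-- program `z` halts within `s` steps -/
def halt (s z : ℕ) : Bool := (Code.evaln s (Denumerable.ofNat Code z.unpair.1) z.unpair.2).isSome

/-- some program below `b` halts exactly at stage `s` -/
def ev (s b : ℕ) : Prop := ∃ z < b, halt s z = true ∧ halt (s - 1) z = false

/-- the node `u` is active when the number of markers is `n` -/
def Act (u n : ℕ) : Prop := 0 < u ∧ u < n ∧ ∃ s < n, 2 ^ s ∣ u ∧ n < u + 2 ^ s

/-- at stage `t` it is allowed to place a marker after `b` -/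
def grow (W : List ℕ) (t b : ℕ) : Prop :=
  b < t ∧ ∀ c ∈ W, ∀ n < b + 1, ∃ y < t, Code.evaln t (Denumerable.ofNat Code c) n = some y

open Classical in
/-- one step of the process -/
noncomputable def stp (W : List ℕ) (P t : ℕ) (L : List ℕ) : List ℕ :=
  if (List.range L.length).findIdx
      (fun u => decide (Act u L.length ∧ ev t (L.getD (u - 1) 0))) < L.length
  then L.take ((List.range L.length).findIdx
      (fun u => decide (Act u L.length ∧ ev t (L.getD (u - 1) 0))))
  else if grow W t (L.getD (L.length - 1) P) then L ++ [t] else L

/-- the list of programs given by the parameter -/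
def WW (P : ℕ) : List ℕ := Denumerable.ofNat (List ℕ) P.unpair.1

/-- the markers at stage `t` -/
noncomputable def st (P : ℕ) : ℕ → List ℕ
  | 0 => []
  | t + 1 => stp (WW P) P t (st P t)

/-- the number of markers at stage `t` -/
noncomputable def len (P t : ℕ) : ℕ := (st P t).length

/-- all the programs listed by `P` are total -/
def Good (P : ℕ) : Prop := ∀ c ∈ WW P, ∀ n, (Code.eval (Denumerable.ofNat Code c) n).Dom

/-- the last stage at which the number of markers is at most `r` -/
noncomputable def X (P r : ℕ) : ℕ := sSup {t | len P t ≤ r}

end Pool.Agent.Helper317.Sacks
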